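import Mathlib

set_option autoImplicit false

set_option linter.unusedSectionVars false
set_option linter.unusedVariables false
set_option linter.style.haveILetI false

open Module
open scoped Classical

namespace Pool.Agent.H24.LS

/-- Subspaces of a finite vector space form a finite type. -/
noncomputable instance subFintype {F V : Type} [Field F] [AddCommGroup V] [Module F V] [Finite V] :
    Fintype (Submodule F V) := Fintype.ofFinite _

/-- `f` is null of strength `s`: for every subspace `T` with `dim T < s` the sum of `f` over the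
subspaces containing `T` vanishes. -/
def Null {F V : Type} [Field F] [AddCommGroup V] [Module F V] [Finite V]
    (s : ℕ) (f : Submodule F V → ℤ) : Prop :=
  ∀ T : Submodule F V, finrank F T < s →
    ∑ W : Submodule F V, (if T ≤ W then f W else 0) = 0

section Join

variable {F A V C : Type} [Field F] [Finite F]
  [AddCommGroup A] [Module F A] [Finite A]
  [AddCommGroup V] [Module F V] [Finite V]
  [AddCommGroup C] [Module F C] [Finite C]

lemma base_unique (ι : A →ₗ[F] V) (π : V →ₗ[F] C) (hι : Function.Injective ι)
    (hex : LinearMap.range ι = LinearMap.ker π) (K1 : Submodule F A) (K2 : Submodule F C)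
    (T K : Submodule F V) (hT1 : T.comap ι ≤ K1) (hT2 : T.map π = K2) :
    (K.comap ι = K1 ∧ K.map π = K2 ∧ T ≤ K) ↔ K = K1.map ι ⊔ T := by
  have hπι : ∀ a, π (ι a) = 0 := fun a => by
    have : ι a ∈ LinearMap.ker π := hex ▸ LinearMap.mem_range_self ι a
    simpa using this
  constructor
  · rintro ⟨h1, h2, h3⟩
    apply le_antisymm
    · intro x hx
      have hx2 : π x ∈ K.map π := ⟨x, hx, rfl⟩
      rw [h2, ← hT2] at hx2
      obtain ⟨t, ht, htx⟩ := hx2
      have : x - t ∈ LinearMap.ker π := by simp [htx]
      rw [← hex] at this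
      obtain ⟨a, ha⟩ := this
      have ha1 : a ∈ K.comap ι := by
        rw [Submodule.mem_comap, ha]
        exact K.sub_mem hx (h3 ht)
      rw [h1] at ha1
      have hx' : x = ι a + t := by rw [ha]; abel
      rw [hx']
      exact Submodule.add_mem_sup ⟨a, ha1, rfl⟩ ht
    · refine sup_le ?_ h3
      rw [Submodule.map_le_iff_le_comap, h1]
  · rintro rfl
    refine ⟨?_, ?_, le_sup_right⟩
    · apply le_antisymm
      · intro a ha
        rw [Submodule.mem_comap, Submodule.mem_sup] at ha
        obtain ⟨y, ⟨b, hb, rfl⟩, t, ht, hyt⟩ := ha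
        have : ι (a - b) = t := by rw [map_sub, ← hyt]; abel
        have h2 : a - b ∈ T.comap ι := by rw [Submodule.mem_comap, this]; exact ht
        have := K1.add_mem (hT1 h2) hb
        simpa using this
      · rw [← Submodule.map_le_iff_le_comap]
        exact le_sup_left
    · rw [Submodule.map_sup, hT2]
      apply le_antisymm
      · refine sup_le ?_ le_rfl
        rintro _ ⟨_, ⟨b, _, rfl⟩, rfl⟩
        rw [hπι]
        exact K2.zero_mem
      · exact le_sup_right

/-- number of subspaces with given trace, given image, containing `T` -/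
noncomputable def fibN (ι : A →ₗ[F] V) (π : V →ₗ[F] C) (K1 : Submodule F A) (K2 : Submodule F C)
    (T : Submodule F V) : ℤ :=
  ∑ K : Submodule F V, if (K.comap ι = K1 ∧ K.map π = K2 ∧ T ≤ K) then 1 else 0

lemma fibN_eq (ι : A →ₗ[F] V) (π : V →ₗ[F] C) (hι : Function.Injective ι)
    (hπ : Function.Surjective π)
    (hex : LinearMap.range ι = LinearMap.ker π) (K1 : Submodule F A) (K2 : Submodule F C)
    (m : ℕ) : ∀ (T : Submodule F V), T.comap ι ≤ K1 → T.map π ≤ K2 →
      finrank F K2 = finrank F (T.map π) + m →
      fibN ι π K1 K2 T * (Nat.card K1 : ℤ) ^ m = (Nat.card A : ℤ) ^ m := by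
  have hπι : ∀ a, π (ι a) = 0 := fun a => by
    have : ι a ∈ LinearMap.ker π := hex ▸ LinearMap.mem_range_self ι a
    simpa using this
  induction m with
  | zero =>
    intro T hT1 hT2 hm
    have hT2' : T.map π = K2 := Submodule.eq_of_le_of_finrank_eq hT2 (by omega)
    simp only [pow_zero, mul_one]
    unfold fibN
    rw [Finset.sum_eq_single (K1.map ι ⊔ T)]
    · rw [if_pos]
      rw [base_unique ι π hι hex K1 K2 T _ hT1 hT2']
    · intro K _ hK
      rw [if_neg]
      rw [base_unique ι π hι hex K1 K2 T _ hT1 hT2']
      exact hK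
    · intro h
      exact absurd (Finset.mem_univ _) h
  | succ m ih =>
    intro T hT1 hT2 hm
    have hne : ∃ c ∈ K2, c ∉ T.map π := by
      by_contra hcon
      push Not at hcon
      have : K2 = T.map π := le_antisymm hcon hT2
      rw [← this] at hm
      omega
    obtain ⟨c, hc, hcT⟩ := hne
    obtain ⟨x0, rfl⟩ := hπ c
    have key : ∀ a : A, fibN ι π K1 K2 (T ⊔ Submodule.span F {x0 + ι a}) * (Nat.card K1 : ℤ) ^ m
        = (Nat.card A : ℤ) ^ m := by
      intro a
      have hmap : (T ⊔ Submodule.span F {x0 + ι a}).map π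
          = T.map π ⊔ Submodule.span F {π x0} := by
        rw [Submodule.map_sup, Submodule.map_span, Set.image_singleton, map_add, hπι, add_zero]
      have hfr : finrank F ((T ⊔ Submodule.span F {x0 + ι a}).map π : Submodule F C)
          = finrank F (T.map π) + 1 := by
        rw [hmap]
        have hx0 : π x0 ≠ 0 := by
          intro h0
          exact hcT (h0 ▸ Submodule.zero_mem _)
        have hinf : T.map π ⊓ Submodule.span F {π x0} = ⊥ := by
          rw [eq_bot_iff]
          rintro y ⟨hy1, hy2⟩
          obtain ⟨r, rfl⟩ := Submodule.mem_span_singleton.1 hy2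
          by_cases hr : r = 0
          · simp [hr]
          · exfalso
            apply hcT
            have := (T.map π).smul_mem r⁻¹ hy1
            rwa [smul_smul, inv_mul_cancel₀ hr, one_smul] at this
        have := Submodule.finrank_sup_add_finrank_inf_eq (T.map π) (Submodule.span F {π x0})
        rw [hinf, finrank_bot, finrank_span_singleton hx0] at this
        omega
      apply ih
      · intro b hb
        rw [Submodule.mem_comap, Submodule.mem_sup] at hb
        obtain ⟨t, ht, y, hy, hty⟩ := hb
        obtain ⟨r, rfl⟩ := Submodule.mem_span_singleton.1 hy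
        have h1 : π t + r • π x0 = 0 := by
          have := congrArg π hty
          rw [map_add, map_smul, map_add, hπι, hπι, add_zero] at this
          exact this
        by_cases hr : r = 0
        · apply hT1
          rw [Submodule.mem_comap, ← hty, hr, zero_smul, add_zero]
          exact ht
        · exfalso
          apply hcT
          refine ⟨-(r⁻¹ • t), T.neg_mem (T.smul_mem _ ht), ?_⟩
          rw [map_neg, map_smul]
          have h2 : π t = -(r • π x0) := eq_neg_of_add_eq_zero_left h1
          rw [h2, smul_neg, neg_neg, smul_smul, inv_mul_cancel₀ hr, one_smul]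
      · rw [hmap]
        refine sup_le hT2 ?_
        rw [Submodule.span_singleton_le_iff_mem]
        exact hc
      · rw [hfr]; omega
    have hsum : ∑ᶠ a : A, fibN ι π K1 K2 (T ⊔ Submodule.span F {x0 + ι a})
        = (Nat.card K1 : ℤ) * fibN ι π K1 K2 T := by
      haveI : Fintype A := Fintype.ofFinite A
      rw [finsum_eq_sum_of_fintype]
      unfold fibN
      rw [Finset.sum_comm, Finset.mul_sum]
      apply Finset.sum_congr rfl
      intro K _
      by_cases hK : K.comap ι = K1 ∧ K.map π = K2 ∧ T ≤ K
      · rw [if_pos hK, mul_one]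
        obtain ⟨h1, h2, h3⟩ := hK
        have hc' : π x0 ∈ K.map π := h2 ▸ hc
        obtain ⟨y, hy, hyx⟩ := hc'
        have : y - x0 ∈ LinearMap.ker π := by simp [hyx]
        rw [← hex] at this
        obtain ⟨a0, ha0⟩ := this
        have hiff : ∀ a : A, (K.comap ι = K1 ∧ K.map π = K2 ∧
            T ⊔ Submodule.span F {x0 + ι a} ≤ K) ↔ a - a0 ∈ K1 := by
          intro a
          rw [sup_le_iff, Submodule.span_singleton_le_iff_mem, ← h1, Submodule.mem_comap, map_sub,
            ha0]
          have : ι a - (y - x0) = (x0 + ι a) - y := by abel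
          rw [this]
          constructor
          · rintro ⟨_, _, _, h⟩
            exact K.sub_mem h hy
          · intro h
            refine ⟨rfl, h2, h3, ?_⟩
            have := K.add_mem h hy
            simpa using this
        have : ∀ a : A, (if (K.comap ι = K1 ∧ K.map π = K2 ∧
            T ⊔ Submodule.span F {x0 + ι a} ≤ K) then (1 : ℤ) else 0)
            = if a - a0 ∈ K1 then 1 else 0 := by
          intro a
          by_cases h : a - a0 ∈ K1
          · rw [if_pos h, if_pos ((hiff a).2 h)]
          · rw [if_neg h, if_neg (fun h' => h ((hiff a).1 h'))]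
        rw [Finset.sum_congr rfl (fun a _ => this a)]
        rw [← Fintype.sum_equiv (Equiv.addRight a0) (fun a => if a ∈ K1 then (1 : ℤ) else 0)
          (fun a => if a - a0 ∈ K1 then (1 : ℤ) else 0) (by intro a; simp)]
        rw [Finset.sum_boole, Nat.card_eq_fintype_card, Fintype.card_subtype]
      · rw [if_neg hK, mul_zero]
        apply Finset.sum_eq_zero
        intro a _
        rw [if_neg]
        rintro ⟨h1, h2, h3⟩
        exact hK ⟨h1, h2, le_trans le_sup_left h3⟩
    haveI : Fintype A := Fintype.ofFinite A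
    rw [finsum_eq_sum_of_fintype] at hsum
    have e1 : fibN ι π K1 K2 T * (Nat.card K1 : ℤ) ^ (m + 1)
        = (∑ a : A, fibN ι π K1 K2 (T ⊔ Submodule.span F {x0 + ι a})) * (Nat.card K1 : ℤ) ^ m := by
      rw [hsum]; ring
    rw [e1, Finset.sum_mul, Finset.sum_congr rfl (fun a _ => key a)]
    rw [Finset.sum_const, Finset.card_univ, ← Nat.card_eq_fintype_card]
    simp [pow_succ]
    ring

lemma fibN_zero (ι : A →ₗ[F] V) (π : V →ₗ[F] C) (K1 : Submodule F A) (K2 : Submodule F C)
    (T : Submodule F V) (h : ¬ (T.comap ι ≤ K1 ∧ T.map π ≤ K2)) :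
    fibN ι π K1 K2 T = 0 := by
  unfold fibN
  apply Finset.sum_eq_zero
  intro K _
  rw [if_neg]
  rintro ⟨h1, h2, h3⟩
  apply h
  rw [← h1, ← h2]
  exact ⟨Submodule.comap_mono h3, Submodule.map_mono h3⟩

/-- the join of two functions along an exact sequence -/
noncomputable def join (ι : A →ₗ[F] V) (π : V →ₗ[F] C) (f1 : Submodule F A → ℤ)
    (f2 : Submodule F C → ℤ) (K : Submodule F V) : ℤ :=
  f1 (K.comap ι) * f2 (K.map π)

lemma join_sum (ι : A →ₗ[F] V) (π : V →ₗ[F] C) (hι : Function.Injective ι)
    (hπ : Function.Surjective π) (hex : LinearMap.range ι = LinearMap.ker π)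
    (f1 : Submodule F A → ℤ) (f2 : Submodule F C → ℤ) (k1 k2 : ℕ)
    (h1 : ∀ W, f1 W ≠ 0 → finrank F W = k1) (h2 : ∀ W, f2 W ≠ 0 → finrank F W = k2)
    (T : Submodule F V) :
    (∑ K : Submodule F V, (if T ≤ K then join ι π f1 f2 K else 0)) *
      (Nat.card F : ℤ) ^ (k1 * (k2 - finrank F (T.map π)))
    = (Nat.card A : ℤ) ^ (k2 - finrank F (T.map π)) *
      ((∑ K1 : Submodule F A, if T.comap ι ≤ K1 then f1 K1 else 0) *
       (∑ K2 : Submodule F C, if T.map π ≤ K2 then f2 K2 else 0)) := by
  set m := k2 - finrank F (T.map π) with hm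
  have e1 : (∑ K : Submodule F V, (if T ≤ K then join ι π f1 f2 K else 0))
      = ∑ K1 : Submodule F A, ∑ K2 : Submodule F C, f1 K1 * f2 K2 * fibN ι π K1 K2 T := by
    have : ∀ K : Submodule F V, (if T ≤ K then join ι π f1 f2 K else 0)
        = ∑ K1 : Submodule F A, ∑ K2 : Submodule F C, f1 K1 * f2 K2 *
          (if (K.comap ι = K1 ∧ K.map π = K2 ∧ T ≤ K) then 1 else 0) := by
      intro K
      rw [Finset.sum_eq_single (K.comap ι), Finset.sum_eq_single (K.map π)]
      · by_cases h : T ≤ K
        · simp [h, join]
        · simp [h]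
      · intro K2 _ hK2
        rw [if_neg, mul_zero]
        rintro ⟨_, h, _⟩
        exact hK2 h.symm
      · intro h
        exact absurd (Finset.mem_univ _) h
      · intro K1 _ hK1
        apply Finset.sum_eq_zero
        intro K2 _
        rw [if_neg, mul_zero]
        rintro ⟨h, _, _⟩
        exact hK1 h.symm
      · intro h
        exact absurd (Finset.mem_univ _) h
    rw [Finset.sum_congr rfl (fun K _ => this K)]
    rw [Finset.sum_comm]
    apply Finset.sum_congr rfl
    intro K1 _
    rw [Finset.sum_comm]
    apply Finset.sum_congr rfl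
    intro K2 _
    rw [← Finset.mul_sum]
    rfl
  rw [e1, Finset.sum_mul, Finset.sum_mul_sum, Finset.mul_sum]
  apply Finset.sum_congr rfl
  intro K1 _
  rw [Finset.sum_mul, Finset.mul_sum]
  apply Finset.sum_congr rfl
  intro K2 _
  by_cases hf1 : f1 K1 = 0
  · simp [hf1]
  by_cases hf2 : f2 K2 = 0
  · simp [hf2]
  by_cases hT : T.comap ι ≤ K1 ∧ T.map π ≤ K2
  · rw [if_pos hT.1, if_pos hT.2]
    have hk1 := h1 K1 hf1
    have hk2 := h2 K2 hf2
    have hle : finrank F (T.map π) ≤ finrank F K2 := Submodule.finrank_mono hT.2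
    have := fibN_eq ι π hι hπ hex K1 K2 m T hT.1 hT.2 (by omega)
    have hcard : (Nat.card K1 : ℤ) = (Nat.card F : ℤ) ^ k1 := by
      rw [Module.natCard_eq_pow_finrank (K := F) (V := K1), hk1]
      push_cast
      rfl
    rw [hcard, ← pow_mul] at this
    rw [mul_assoc, this]
    ring
  · rw [fibN_zero ι π K1 K2 T hT]
    rw [not_and_or] at hT
    rcases hT with hT | hT
    · simp [hT]
    · simp [hT]

/-- The join of a null function of strength `s1` and one of strength `s2` has strength `s1+s2`. -/
theorem join_null (ι : A →ₗ[F] V) (π : V →ₗ[F] C) (hι : Function.Injective ι)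
    (hπ : Function.Surjective π) (hex : LinearMap.range ι = LinearMap.ker π)
    (f1 : Submodule F A → ℤ) (f2 : Submodule F C → ℤ) (k1 k2 s1 s2 : ℕ)
    (h1 : ∀ W, f1 W ≠ 0 → finrank F W = k1) (h2 : ∀ W, f2 W ≠ 0 → finrank F W = k2)
    (hn1 : Null s1 f1) (hn2 : Null s2 f2) : Null (s1 + s2) (join ι π f1 f2) := by
  intro T hT
  have hdim : finrank F T = finrank F (T.map π) + finrank F (T.comap ι) := by
    have h := LinearMap.finrank_range_add_finrank_ker (π.domRestrict T)
    have hr : LinearMap.range (π.domRestrict T) = T.map π := by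
      rw [LinearMap.range_domRestrict]
    rw [hr] at h
    have hk : finrank F (LinearMap.ker (π.domRestrict T)) = finrank F (T.comap ι) := by
      have e1 : (T.comap ι).map ι = T ⊓ LinearMap.ker π := by
        rw [Submodule.map_comap_eq, hex, inf_comm]
      have e2 : finrank F ((T.comap ι).map ι : Submodule F V) = finrank F (T.comap ι) :=
        (Submodule.equivMapOfInjective ι hι _).finrank_eq.symm
      rw [← e2, e1, LinearMap.ker_domRestrict]
      have e3 : (T ⊓ LinearMap.ker π) = ((LinearMap.ker π).comap T.subtype).map T.subtype := by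
        rw [Submodule.map_comap_subtype]
      rw [e3]
      exact (Submodule.equivMapOfInjective T.subtype T.subtype_injective _).finrank_eq
    omega
  have hs := join_sum ι π hι hπ hex f1 f2 k1 k2 h1 h2 T
  have hq : (Nat.card F : ℤ) ^ (k1 * (k2 - finrank F (T.map π))) ≠ 0 := by
    apply pow_ne_zero
    exact_mod_cast Nat.card_pos.ne'
  have hzero : (∑ K1 : Submodule F A, if T.comap ι ≤ K1 then f1 K1 else 0) *
       (∑ K2 : Submodule F C, if T.map π ≤ K2 then f2 K2 else 0) = 0 := by
    by_cases hc : finrank F (T.comap ι) < s1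
    · rw [hn1 _ hc, zero_mul]
    · rw [hn2 _ (by omega), mul_zero]
  rw [hzero, mul_zero] at hs
  exact (mul_eq_zero.1 hs).resolve_right hq

end Join

end Pool.Agent.H24.LS
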