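import Mathlib
import Pool.Agent.H24.LSJoin

set_option autoImplicit false
set_option linter.unusedSectionVars false
set_option linter.unusedVariables false
set_option linter.style.haveILetI false

open Module
open scoped Classical

namespace Pool.Agent.H24.LS

/-- the set of `k`-dimensional subspaces -/
def Gr (F : Type) [Field F] (k : ℕ) (V : Type) [AddCommGroup V] [Module F V] :
    Set (Submodule F V) := {W | finrank F W = k}

/-- `S` is halvable with strength `s`: there is a sign function on `S`, extended by zero, that is null of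
strength `s`. -/
def Halv {F V : Type} [Field F] [AddCommGroup V] [Module F V] [Finite V]
    (s : ℕ) (S : Set (Submodule F V)) : Prop :=
  ∃ f : Submodule F V → ℤ, (∀ W ∈ S, f W = 1 ∨ f W = -1) ∧ (∀ W, W ∉ S → f W = 0) ∧ Null s f

section Basic

variable {F V : Type} [Field F] [AddCommGroup V] [Module F V] [Finite V]

lemma Halv.zero (S : Set (Submodule F V)) : Halv 0 S := by
  refine ⟨fun W => if W ∈ S then 1 else 0, ?_, ?_, ?_⟩
  · intro W hW; left; simp [hW]
  · intro W hW; simp [hW]
  · intro T hT; omega

lemma Halv.empty (s : ℕ) : Halv s (∅ : Set (Submodule F V)) := by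
  refine ⟨fun _ => 0, ?_, ?_, ?_⟩
  · intro W hW; simp at hW
  · intro W _; rfl
  · intro T _; simp

lemma Halv.mono {s s' : ℕ} (h : s' ≤ s) {S : Set (Submodule F V)} (hS : Halv s S) : Halv s' S := by
  obtain ⟨f, h1, h2, h3⟩ := hS
  exact ⟨f, h1, h2, fun T hT => h3 T (by omega)⟩

lemma Halv.union {s : ℕ} {S S' : Set (Submodule F V)} (hd : Disjoint S S')
    (hS : Halv s S) (hS' : Halv s S') : Halv s (S ∪ S') := by
  obtain ⟨f, h1, h2, h3⟩ := hS
  obtain ⟨g, g1, g2, g3⟩ := hS'
  refine ⟨fun W => f W + g W, ?_, ?_, ?_⟩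
  · rintro W (hW | hW)
    · have : W ∉ S' := Set.disjoint_left.1 hd hW
      show f W + g W = 1 ∨ f W + g W = -1
      rw [g2 W this, add_zero]
      exact h1 W hW
    · have : W ∉ S := Set.disjoint_right.1 hd hW
      show f W + g W = 1 ∨ f W + g W = -1
      rw [h2 W this, zero_add]
      exact g1 W hW
  · intro W hW
    rw [Set.mem_union, not_or] at hW
    show f W + g W = 0
    rw [h2 W hW.1, g2 W hW.2, add_zero]
  · intro T hT
    have := h3 T hT
    have h4 := g3 T hT
    have e : ∀ W : Submodule F V, (if T ≤ W then f W + g W else 0)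
        = (if T ≤ W then f W else 0) + (if T ≤ W then g W else 0) := by
      intro W; by_cases h : T ≤ W <;> simp [h]
    rw [Finset.sum_congr rfl (fun W _ => e W), Finset.sum_add_distrib, this, h4, add_zero]

lemma Halv.biUnion {s : ℕ} {α : Type} (I : Finset α) (S : α → Set (Submodule F V))
    (hd : ∀ i ∈ I, ∀ j ∈ I, i ≠ j → Disjoint (S i) (S j)) (h : ∀ i ∈ I, Halv s (S i)) :
    Halv s {W | ∃ i ∈ I, W ∈ S i} := by
  induction I using Finset.induction_on with
  | empty =>
    have : {W : Submodule F V | ∃ i ∈ (∅ : Finset α), W ∈ S i} = ∅ := by ext; simp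
    rw [this]; exact Halv.empty s
  | insert a I ha ih =>
    have e : {W : Submodule F V | ∃ i ∈ insert a I, W ∈ S i} = S a ∪ {W | ∃ i ∈ I, W ∈ S i} := by
      ext W
      simp
    rw [e]
    apply Halv.union
    · rw [Set.disjoint_left]
      rintro W hW ⟨i, hi, hWi⟩
      have hne : a ≠ i := fun h => ha (h ▸ hi)
      exact Set.disjoint_left.1 (hd a (Finset.mem_insert_self a I) i (Finset.mem_insert_of_mem hi) hne)
        hW hWi
    · exact h a (Finset.mem_insert_self a I)
    · apply ih
      · intro i hi j hj hij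
        exact hd i (Finset.mem_insert_of_mem hi) j (Finset.mem_insert_of_mem hj) hij
      · intro i hi
        exact h i (Finset.mem_insert_of_mem hi)

lemma Halv.congr {s : ℕ} {S S' : Set (Submodule F V)} (h : S = S') (hS : Halv s S) : Halv s S' :=
  h ▸ hS

end Basic

section Equiv

variable {F V V' : Type} [Field F] [AddCommGroup V] [Module F V] [Finite V]
  [AddCommGroup V'] [Module F V'] [Finite V']

lemma Halv.equiv {s k : ℕ} (e : V ≃ₗ[F] V') (h : Halv s (Gr F k V)) : Halv s (Gr F k V') := by
  obtain ⟨f, h1, h2, h3⟩ := h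
  let o := Submodule.orderIsoMapComap e
  have ho : ∀ W : Submodule F V, finrank F (o W) = finrank F W := fun W =>
    LinearEquiv.finrank_map_eq e W
  refine ⟨fun W => f (o.symm W), ?_, ?_, ?_⟩
  · intro W hW
    apply h1
    have := ho (o.symm W)
    rw [OrderIso.apply_symm_apply] at this
    exact this.symm.trans hW
  · intro W hW
    apply h2
    have := ho (o.symm W)
    rw [OrderIso.apply_symm_apply] at this
    exact fun h => hW (this.trans h)
  · intro T hT
    have h4 := h3 (o.symm T) (by
      have := ho (o.symm T)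
      rw [OrderIso.apply_symm_apply] at this
      omega)
    refine Eq.trans ?_ h4
    apply Fintype.sum_equiv o.symm.toEquiv
    intro W
    have : T ≤ W ↔ o.symm T ≤ o.symm W := (OrderIso.le_iff_le o.symm).symm
    simp only [RelIso.coe_fn_toEquiv]
    by_cases h : T ≤ W
    · rw [if_pos h, if_pos (this.1 h)]
    · rw [if_neg h, if_neg (fun h' => h (this.2 h'))]

end Equiv

/-- `L F s k n`: the set of all `k`-subspaces of `F^n` is halvable with strength `s` (so it is a
halving with `t = s - 1` when `s ≥ 1`). -/
def L (F : Type) [Field F] [Finite F] (s k n : ℕ) : Prop := Halv s (Gr F k (Fin n → F))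

section L

variable {F : Type} [Field F] [Finite F] {V : Type} [AddCommGroup V] [Module F V] [Finite V]

lemma L.toV {s k n : ℕ} (h : L F s k n) (hn : finrank F V = n) : Halv s (Gr F k V) := by
  apply Halv.equiv (V := Fin n → F) _ h
  exact LinearEquiv.ofFinrankEq _ _ (by simp [hn])

lemma L.ofV {s k n : ℕ} (hn : finrank F V = n) (h : Halv s (Gr F k V)) : L F s k n := by
  apply Halv.equiv (V := V) _ h
  exact LinearEquiv.ofFinrankEq _ _ (by simp [hn])

lemma L.zero (k n : ℕ) : L F 0 k n := Halv.zero _

lemma L.mono {s s' k n : ℕ} (hs : s' ≤ s) (h : L F s k n) : L F s' k n := Halv.mono hs h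

lemma L.of_lt {s k n : ℕ} (h : n < k) : L F s k n := by
  have : Gr F k (Fin n → F) = ∅ := by
    ext W
    simp only [Gr, Set.mem_ofPred_eq, Set.mem_empty_iff_false, iff_false]
    intro hW
    have := Submodule.finrank_le W
    rw [hW, finrank_fin_fun] at this
    omega
  unfold L
  rw [this]
  exact Halv.empty s

end L

instance quotFinite {F V : Type} [Field F] [AddCommGroup V] [Module F V] [Finite V]
    (B : Submodule F V) : Finite (V ⧸ B) := Finite.of_surjective _ B.mkQ_surjective

section Cut

variable {F : Type} [Field F] [Finite F] {V : Type} [AddCommGroup V] [Module F V] [Finite V]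

/-- Join along `B ≤ V`: sets described by the trace on `B` and the dimension. -/
lemma halv_cut (B : Submodule F V) (d k s1 s2 : ℕ) (S1 : Set (Submodule F B))
    (hS1 : ∀ W ∈ S1, finrank F W = d) (hdk : d ≤ k) (h1 : Halv s1 S1)
    (h2 : Halv s2 (Gr F (k - d) (V ⧸ B))) :
    Halv (s1 + s2) {K : Submodule F V | finrank F K = k ∧ K.comap B.subtype ∈ S1} := by
  obtain ⟨f1, a1, a2, a3⟩ := h1
  obtain ⟨f2, b1, b2, b3⟩ := h2
  have hdim : ∀ K : Submodule F V, finrank F K
      = finrank F (K.map B.mkQ) + finrank F (K.comap B.subtype) := by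
    intro K
    have h := LinearMap.finrank_range_add_finrank_ker (B.mkQ.domRestrict K)
    rw [LinearMap.range_domRestrict, LinearMap.ker_domRestrict, Submodule.ker_mkQ] at h
    have e1 : finrank F (B.comap K.subtype) = finrank F (K.comap B.subtype) := by
      have e2 := (Submodule.equivMapOfInjective K.subtype K.subtype_injective
        (B.comap K.subtype)).finrank_eq
      have e3 := (Submodule.equivMapOfInjective B.subtype B.subtype_injective
        (K.comap B.subtype)).finrank_eq
      rw [Submodule.map_comap_subtype] at e2 e3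
      rw [e2, e3, inf_comm]
    omega
  refine ⟨join B.subtype B.mkQ f1 f2, ?_, ?_, ?_⟩
  · rintro K ⟨hK, hK1⟩
    have hK2 : K.map B.mkQ ∈ Gr F (k - d) (V ⧸ B) := by
      have := hdim K
      have h3 := hS1 _ hK1
      show finrank F _ = k - d
      omega
    show f1 _ * f2 _ = 1 ∨ f1 _ * f2 _ = -1
    rcases a1 _ hK1 with h | h <;> rcases b1 _ hK2 with h' | h' <;> simp [h, h']
  · intro K hK
    show f1 _ * f2 _ = 0
    by_cases hc : K.comap B.subtype ∈ S1
    · have hK2 : K.map B.mkQ ∉ Gr F (k - d) (V ⧸ B) := by
        intro h4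
        apply hK
        refine ⟨?_, hc⟩
        have := hdim K
        have h3 := hS1 _ hc
        have h4' : finrank F (K.map B.mkQ) = k - d := h4
        omega
      rw [b2 _ hK2, mul_zero]
    · rw [a2 _ hc, zero_mul]
  · apply join_null B.subtype B.mkQ B.subtype_injective B.mkQ_surjective (by simp)
      f1 f2 d (k - d) s1 s2 ?_ ?_ a3 b3
    · intro W hW
      apply hS1
      by_contra h
      exact hW (a2 W h)
    · intro W hW
      by_contra h
      exact hW (b2 W h)

lemma finrank_comap_subtype (B K : Submodule F V) :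
    finrank F (K.comap B.subtype) = finrank F (K ⊓ B : Submodule F V) := by
  have e3 := (Submodule.equivMapOfInjective B.subtype B.subtype_injective
    (K.comap B.subtype)).finrank_eq
  rw [Submodule.map_comap_subtype] at e3
  rw [e3, inf_comm]

/-- The set of `K` with `dim K = k`, `dim (K ⊓ B) = d`. -/
lemma halv_cut_dim (B : Submodule F V) (d k s1 s2 b c : ℕ) (hb : finrank F B = b)
    (hc : finrank F (V ⧸ B) = c) (h1 : d ≤ k → L F s1 d b) (h2 : d ≤ k → L F s2 (k - d) c) :
    Halv (s1 + s2) {K : Submodule F V | finrank F K = k ∧ finrank F (K ⊓ B : Submodule F V) = d} := by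
  by_cases hdk : d ≤ k
  · have := halv_cut B d k s1 s2 (Gr F d B) (fun W hW => hW) hdk ((h1 hdk).toV hb)
      ((h2 hdk).toV hc)
    apply Halv.congr _ this
    ext K
    show (finrank F K = k ∧ finrank F (K.comap B.subtype) = d) ↔ _
    rw [finrank_comap_subtype]
    rfl
  · have : {K : Submodule F V | finrank F K = k ∧ finrank F (K ⊓ B : Submodule F V) = d} = ∅ := by
      ext K
      simp only [Set.mem_ofPred_eq, Set.mem_empty_iff_false, iff_false]
      rintro ⟨h3, h4⟩
      have : finrank F (K ⊓ B : Submodule F V) ≤ finrank F K := Submodule.finrank_mono inf_le_left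
      omega
    rw [this]
    exact Halv.empty _

/-- The set of `K` with `dim K = k`, `dim (K ⊓ A) = d`, `dim (K ⊓ B) = e` where `A ≤ B`. -/
lemma halv_cut_dim2 (A B : Submodule F V) (hAB : A ≤ B) (d e k s1 s2 a c : ℕ)
    (ha : finrank F A = a)
    (hc : finrank F (V ⧸ B) = c) (h1 : e ≤ k → L F s1 d a) (h2 : e ≤ k → L F s2 (k - e) c) :
    Halv (s1 + s2) {K : Submodule F V | finrank F K = k ∧
      finrank F (K ⊓ A : Submodule F V) = d ∧ finrank F (K ⊓ B : Submodule F V) = e} := by
  by_cases hek : e ≤ k
  · have hA' : finrank F (A.comap B.subtype) = a := by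
      rw [finrank_comap_subtype, inf_eq_left.2 hAB, ha]
    have hh := halv_cut_dim (A.comap B.subtype) d e s1 0 a _ hA' rfl (fun _ => h1 hek)
      (fun _ => L.zero _ _)
    have := halv_cut B e k (s1 + 0) s2 _ (fun W hW => hW.1) hek hh ((h2 hek).toV hc)
    rw [add_zero] at this
    apply Halv.congr _ this
    ext K
    have e1 : finrank F (K.comap B.subtype ⊓ A.comap B.subtype : Submodule F B)
        = finrank F (K ⊓ A : Submodule F V) := by
      rw [← Submodule.comap_inf, finrank_comap_subtype, inf_assoc, inf_eq_left.2 hAB]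
    show (finrank F K = k ∧ (finrank F (K.comap B.subtype) = e ∧
      finrank F (K.comap B.subtype ⊓ A.comap B.subtype : Submodule F B) = d)) ↔ _
    rw [e1, finrank_comap_subtype]
    show _ ↔ (finrank F K = k ∧
      finrank F (K ⊓ A : Submodule F V) = d ∧ finrank F (K ⊓ B : Submodule F V) = e)
    tauto
  · have : {K : Submodule F V | finrank F K = k ∧
      finrank F (K ⊓ A : Submodule F V) = d ∧ finrank F (K ⊓ B : Submodule F V) = e} = ∅ := by
      ext K
      simp only [Set.mem_ofPred_eq, Set.mem_empty_iff_false, iff_false]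
      rintro ⟨h3, _, h4⟩
      have : finrank F (K ⊓ B : Submodule F V) ≤ finrank F K := Submodule.finrank_mono inf_le_left
      omega
    rw [this]
    exact Halv.empty _

end Cut

end Pool.Agent.H24.LS
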