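import Mathlib
import Pool.Agent.H24.LSHalv

set_option autoImplicit false
set_option linter.unusedSectionVars false
set_option linter.unusedVariables false
set_option linter.style.haveILetI false

open Module
open scoped Classical

namespace Pool.Agent.H24.LS

variable {F : Type} [Field F] [Finite F] {V : Type} [AddCommGroup V] [Module F V] [Finite V]

lemma exists_flag (n : ℕ) (hn : finrank F V = n) :
    ∃ A : ℕ → Submodule F V, (∀ i j, i ≤ j → A i ≤ A j) ∧ ∀ j ≤ n, finrank F (A j) = j := by
  let b : Basis (Fin n) F V := Module.finBasisOfFinrankEq F V hn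
  refine ⟨fun j => Submodule.span F (b '' {i | i.val < j}), ?_, ?_⟩
  · intro i j hij
    apply Submodule.span_mono
    apply Set.image_mono
    intro x hx
    exact lt_of_lt_of_le hx hij
  · intro j hj
    have hr : b '' {i | i.val < j} = Set.range (fun i : Fin j => b (Fin.castLE hj i)) := by
      ext x
      constructor
      · rintro ⟨i, hi, rfl⟩
        exact ⟨⟨i.val, hi⟩, rfl⟩
      · rintro ⟨i, rfl⟩
        exact ⟨Fin.castLE hj i, i.isLt, rfl⟩
    show finrank F (Submodule.span F (b '' {i | i.val < j})) = j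
    rw [hr, finrank_span_eq_card, Fintype.card_fin]
    exact b.linearIndependent.comp _ (Fin.castLE_injective hj)

lemma finrank_quot {n b : ℕ} (hn : finrank F V = n) (B : Submodule F V) (hb : finrank F B = b) :
    finrank F (V ⧸ B) = n - b := by
  have := Submodule.finrank_quotient_add_finrank B
  omega

lemma step_le (A B K : Submodule F V) (hAB : A ≤ B) (h : finrank F B = finrank F A + 1) :
    finrank F (K ⊓ A : Submodule F V) ≤ finrank F (K ⊓ B : Submodule F V) ∧
    finrank F (K ⊓ B : Submodule F V) ≤ finrank F (K ⊓ A : Submodule F V) + 1 := by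
  constructor
  · exact Submodule.finrank_mono (inf_le_inf_left K hAB)
  · have h1 := Submodule.finrank_sup_add_finrank_inf_eq (K ⊓ B) A
    have h2 : (K ⊓ B) ⊓ A = K ⊓ A := by rw [inf_assoc, inf_eq_right.2 hAB]
    have h3 : finrank F ((K ⊓ B) ⊔ A : Submodule F V) ≤ finrank F B :=
      Submodule.finrank_mono (sup_le inf_le_right hAB)
    rw [h2] at h1
    omega

/-- Hyperplane recursion. -/
theorem L.hyper {s k n : ℕ} (h1 : L F s (k + 1) n) (h2 : L F s k n) : L F s (k + 1) (n + 1) := by
  have hn : finrank F (Fin (n + 1) → F) = n + 1 := by simp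
  obtain ⟨A, hA1, hA2⟩ := exists_flag (F := F) (n + 1) hn
  have hB : finrank F (A n) = n := hA2 n (by omega)
  have hT : finrank F (A (n + 1)) = n + 1 := hA2 (n + 1) le_rfl
  have htop : A (n + 1) = ⊤ := Submodule.eq_top_of_finrank_eq (by rw [hT, hn])
  have c1 := halv_cut_dim (A n) (k + 1) (k + 1) s 0 n _ hB (finrank_quot hn _ hB) (fun _ => h1)
    (fun _ => L.zero _ _)
  have c2 := halv_cut_dim (A n) k (k + 1) s 0 n _ hB (finrank_quot hn _ hB) (fun _ => h2)
    (fun _ => L.zero _ _)
  have := Halv.union ?_ c1 c2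
  · apply Halv.congr _ this
    ext K
    simp only [Set.mem_union, Set.mem_ofPred_eq, Gr]
    have hs := step_le (A n) (A (n + 1)) K (hA1 _ _ (by omega)) (by omega)
    rw [htop, inf_top_eq] at hs
    constructor
    · rintro (h | h) <;> exact h.1
    · intro h
      rw [h] at hs
      have : finrank F (K ⊓ A n : Submodule F (Fin (n + 1) → F)) = k + 1 ∨
        finrank F (K ⊓ A n : Submodule F (Fin (n + 1) → F)) = k := by omega
      rcases this with h' | h'
      · left; exact ⟨h, h'⟩
      · right; exact ⟨h, h'⟩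
  · rw [Set.disjoint_left]
    rintro K ⟨_, h3⟩ ⟨_, h4⟩
    omega

/-- The block recursion. Along a flag, cut `K` at `A a` unless `dim (K ⊓ A a)` is critical, and
handle the critical window `[κ - t, κ]` between the levels `a` and `a + t`. -/
theorem block (t a b k κ : ℕ) (htκ : t < κ) (hκa : κ < a)
    (H0 : ∀ d, d ≤ a → d ≤ k → ¬ (κ - t ≤ d ∧ d ≤ κ) →
      ∃ s1 s2, s1 + s2 = t + 1 ∧ L F s1 d a ∧ L F s2 (k - d) (b + t))
    (HN : ∀ i, i < t → κ - t + i ≤ k →
      L F (i + 1) (κ - t + i) (a + i) ∧ L F (t - i) (k - (κ - t + i)) (b + t - (i + 1)))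
    (HE : ∀ i, i < t → κ + 1 ≤ k →
      L F (i + 1) κ (a + i) ∧ L F (t - i) (k - (κ + 1)) (b + t - (i + 1)))
    (H2 : κ ≤ k → L F (t + 1) κ (a + t)) : L F (t + 1) k (a + b + t) := by
  have hn : finrank F (Fin (a + b + t) → F) = a + b + t := by simp
  obtain ⟨A, hA1, hA2⟩ := exists_flag (F := F) (a + b + t) hn
  -- the critical family at level `i`
  have crit : ∀ j, j ≤ t → Halv (t + 1) {K : Submodule F (Fin (a + b + t) → F) | finrank F K = k ∧
      κ - j ≤ finrank F (K ⊓ A (a + (t - j)) : Submodule F _) ∧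
      finrank F (K ⊓ A (a + (t - j)) : Submodule F _) ≤ κ} := by
    intro j
    induction j with
    | zero =>
      intro _
      have hB : finrank F (A (a + t)) = a + t := hA2 _ (by omega)
      have := halv_cut_dim (A (a + t)) κ k (t + 1) 0 (a + t) _ hB (finrank_quot hn _ hB)
        H2 (fun _ => L.zero _ _)
      apply Halv.congr _ this
      ext K
      simp only [Set.mem_ofPred_eq, Nat.sub_zero]
      constructor
      · rintro ⟨h1, h2⟩; exact ⟨h1, by omega, by omega⟩
      · rintro ⟨h1, h2, h3⟩; exact ⟨h1, by omega⟩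
    | succ j ih =>
      intro hj
      have ih' := ih (by omega)
      -- level `i = t - (j+1)`
      obtain ⟨i, hi⟩ : ∃ i, i = t - (j + 1) := ⟨_, rfl⟩
      have hi1 : t - j = i + 1 := by omega
      have hi2 : κ - (j + 1) = κ - t + i := by omega
      rw [hi1] at ih'
      rw [← hi]
      have hAa : finrank F (A (a + i)) = a + i := hA2 _ (by omega)
      have hBb : finrank F (A (a + (i + 1))) = a + (i + 1) := hA2 _ (by omega)
      have hAB : A (a + i) ≤ A (a + (i + 1)) := hA1 _ _ (by omega)
      have hq : finrank F ((Fin (a + b + t) → F) ⧸ A (a + (i + 1))) = b + t - (i + 1) := by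
        rw [finrank_quot hn _ hBb]; omega
      have cN := halv_cut_dim2 (A (a + i)) (A (a + (i + 1))) hAB (κ - t + i) (κ - t + i) k
        (i + 1) (t - i) (a + i) (b + t - (i + 1)) hAa hq (fun h => (HN i (by omega) h).1)
        (fun h => (HN i (by omega) h).2)
      have cE := halv_cut_dim2 (A (a + i)) (A (a + (i + 1))) hAB κ (κ + 1) k
        (i + 1) (t - i) (a + i) (b + t - (i + 1)) hAa hq (fun h => (HE i (by omega) h).1)
        (fun h => (HE i (by omega) h).2)
      have hs1 : i + 1 + (t - i) = t + 1 := by omega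
      rw [hs1] at cN cE
      have u1 := Halv.union (S := {K : Submodule F (Fin (a + b + t) → F) | finrank F K = k ∧
        κ - j ≤ finrank F (K ⊓ A (a + (i + 1)) : Submodule F _) ∧
        finrank F (K ⊓ A (a + (i + 1)) : Submodule F _) ≤ κ}) ?_ ih' cN
      · have u2 := Halv.union ?_ u1 cE
        · apply Halv.congr _ u2
          ext K
          simp only [Set.mem_union, Set.mem_ofPred_eq]
          have hs := step_le (A (a + i)) (A (a + (i + 1))) K hAB (by omega)
          constructor
          · rintro ((⟨h1, h2, h3⟩ | ⟨h1, h2, h3⟩) | ⟨h1, h2, h3⟩)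
            · exact ⟨h1, by omega, by omega⟩
            · exact ⟨h1, by omega, by omega⟩
            · exact ⟨h1, by omega, by omega⟩
          · rintro ⟨h1, h2, h3⟩
            by_cases hc1 : finrank F (K ⊓ A (a + (i + 1)) : Submodule F _) = κ + 1
            · right; exact ⟨h1, by omega, hc1⟩
            · left
              by_cases hc2 : finrank F (K ⊓ A (a + (i + 1)) : Submodule F _) = κ - t + i
              · right; exact ⟨h1, by omega, hc2⟩
              · left; exact ⟨h1, by omega, by omega⟩
        · rw [Set.disjoint_left]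
          rintro K (⟨h1, h2, h3⟩ | ⟨h1, h2, h3⟩) ⟨g1, g2, g3⟩
          · omega
          · omega
      · rw [Set.disjoint_left]
        rintro K ⟨h1, h2, h3⟩ ⟨g1, g2, g3⟩
        omega
  have c0 := crit t le_rfl
  rw [Nat.sub_self, add_zero] at c0
  have hAa : finrank F (A a) = a := hA2 _ (by omega)
  have hq : finrank F ((Fin (a + b + t) → F) ⧸ A a) = b + t := by
    rw [finrank_quot hn _ hAa]; omega
  have rest := Halv.biUnion (s := t + 1)
    ((Finset.range (a + 1)).filter (fun d => ¬ (κ - t ≤ d ∧ d ≤ κ)))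
    (fun d => {K : Submodule F (Fin (a + b + t) → F) | finrank F K = k ∧
      finrank F (K ⊓ A a : Submodule F _) = d}) ?_ ?_
  · have u := Halv.union ?_ c0 rest
    · apply Halv.congr _ u
      ext K
      simp only [Set.mem_union, Set.mem_ofPred_eq, Gr, Finset.mem_filter, Finset.mem_range]
      constructor
      · rintro (h | ⟨d, _, h⟩) <;> exact h.1
      · intro h
        by_cases hc : κ - t ≤ finrank F (K ⊓ A a : Submodule F _) ∧
          finrank F (K ⊓ A a : Submodule F _) ≤ κ
        · left; exact ⟨h, hc.1, hc.2⟩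
        · right
          refine ⟨_, ⟨?_, hc⟩, h, rfl⟩
          have : finrank F (K ⊓ A a : Submodule F _) ≤ finrank F (A a) :=
            Submodule.finrank_mono inf_le_right
          omega
    · rw [Set.disjoint_left]
      rintro K ⟨h1, h2, h3⟩ ⟨d, hd, hK⟩
      obtain ⟨g1, g2⟩ := hK
      rw [Finset.mem_filter] at hd
      apply hd.2
      rw [← g2]
      exact ⟨h2, h3⟩
  · intro i _ j _ hij
    rw [Set.disjoint_left]
    rintro K ⟨h1, h2⟩ ⟨g1, g2⟩
    exact hij (h2.symm.trans g2)
  · intro d hd
    rw [Finset.mem_filter, Finset.mem_range] at hd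
    by_cases hdk : d ≤ k
    · obtain ⟨s1, s2, hs, l1, l2⟩ := H0 d (by omega) hdk hd.2
      rw [← hs]
      exact halv_cut_dim (A a) d k s1 s2 a (b + t) hAa hq (fun _ => l1) (fun _ => l2)
    · exact halv_cut_dim (A a) d k (t + 1) 0 a (b + t) hAa hq (fun h => absurd h hdk)
        (fun h => absurd h hdk)

end Pool.Agent.H24.LS
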