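import Mathlib
import Pool.Agent.H24.LSBlock

set_option autoImplicit false
set_option linter.unusedSectionVars false
set_option linter.unusedVariables false
set_option linter.style.haveILetI false

open Module
open scoped Classical

namespace Pool.Agent.H24.LS

/-- number of `k`-subspaces -/
noncomputable def cnt (F : Type) [Field F] (V : Type) [AddCommGroup V] [Module F V] [Finite V]
    (k : ℕ) : ℤ :=
  ∑ W : Submodule F V, if finrank F W = k then 1 else 0

variable {F : Type} [Field F] [Finite F] {V V' : Type} [AddCommGroup V] [Module F V] [Finite V]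
  [AddCommGroup V'] [Module F V'] [Finite V']

lemma cnt_equiv (e : V ≃ₗ[F] V') (k : ℕ) : cnt F V k = cnt F V' k := by
  unfold cnt
  apply Fintype.sum_equiv (Submodule.orderIsoMapComap e).toEquiv
  intro W
  have : finrank F ((Submodule.orderIsoMapComap e).toEquiv W) = finrank F W :=
    LinearEquiv.finrank_map_eq e W
  rw [this]

/-- number of `k`-subspaces of `F^n` -/
noncomputable def g (F : Type) [Field F] [Finite F] (n k : ℕ) : ℤ := cnt F (Fin n → F) k

lemma cnt_eq_g {n : ℕ} (hn : finrank F V = n) (k : ℕ) : cnt F V k = g F n k :=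
  cnt_equiv (LinearEquiv.ofFinrankEq _ _ (by simp [hn])) k

lemma cnt_zero : cnt F V 0 = 1 := by
  unfold cnt
  rw [Finset.sum_eq_single ⊥]
  · simp
  · intro W _ hW
    rw [if_neg]
    intro h
    exact hW (Submodule.finrank_eq_zero.1 h)
  · intro h
    exact absurd (Finset.mem_univ _) h

lemma cnt_top {n : ℕ} (hn : finrank F V = n) : cnt F V n = 1 := by
  unfold cnt
  rw [Finset.sum_eq_single ⊤]
  · simp [hn]
  · intro W _ hW
    rw [if_neg]
    intro h
    exact hW (Submodule.eq_top_of_finrank_eq (by rw [h, hn]))
  · intro h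
    exact absurd (Finset.mem_univ _) h

lemma cnt_gt {n k : ℕ} (hn : finrank F V = n) (h : n < k) : cnt F V k = 0 := by
  unfold cnt
  apply Finset.sum_eq_zero
  intro W _
  rw [if_neg]
  intro h'
  have := Submodule.finrank_le W
  omega

lemma cut_count (B : Submodule F V) (d k : ℕ) (hdk : d ≤ k) :
    (∑ K : Submodule F V, if (finrank F K = k ∧ finrank F (K ⊓ B : Submodule F V) = d) then (1 : ℤ)
      else 0) * (Nat.card F : ℤ) ^ (d * (k - d))
    = (Nat.card B : ℤ) ^ (k - d) * (cnt F B d * cnt F (V ⧸ B) (k - d)) := by
  have hdim : ∀ K : Submodule F V, finrank F K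
      = finrank F (K.map B.mkQ) + finrank F (K ⊓ B : Submodule F V) := by
    intro K
    have h := LinearMap.finrank_range_add_finrank_ker (B.mkQ.domRestrict K)
    rw [LinearMap.range_domRestrict, LinearMap.ker_domRestrict, Submodule.ker_mkQ] at h
    have e2 := (Submodule.equivMapOfInjective K.subtype K.subtype_injective
      (B.comap K.subtype)).finrank_eq
    rw [Submodule.map_comap_subtype] at e2
    omega
  have := join_sum B.subtype B.mkQ B.subtype_injective B.mkQ_surjective (by simp)
    (fun W => if finrank F W = d then (1 : ℤ) else 0)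
    (fun W => if finrank F W = k - d then (1 : ℤ) else 0) d (k - d)
    (by intro W hW; by_contra h; simp [h] at hW) (by intro W hW; by_contra h; simp [h] at hW) ⊥
  rw [Submodule.map_bot, finrank_bot, Nat.sub_zero] at this
  have e0 : ∀ K : Submodule F V, (if (⊥ : Submodule F V) ≤ K then
      join B.subtype B.mkQ (fun W => if finrank F W = d then (1 : ℤ) else 0)
        (fun W => if finrank F W = k - d then (1 : ℤ) else 0) K else 0)
      = if (finrank F K = k ∧ finrank F (K ⊓ B : Submodule F V) = d) then (1 : ℤ) else 0 := by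
    intro K
    rw [if_pos bot_le]
    have h1 := hdim K
    show (if finrank F (K.comap B.subtype) = d then (1 : ℤ) else 0) *
      (if finrank F (K.map B.mkQ) = k - d then (1 : ℤ) else 0) = _
    rw [finrank_comap_subtype]
    by_cases h2 : finrank F (K ⊓ B : Submodule F V) = d
    · by_cases h3 : finrank F K = k
      · have h4 : finrank F (K.map B.mkQ) = k - d := by omega
        simp [h2, h3, h4]
      · have h4 : finrank F (K.map B.mkQ) ≠ k - d := by omega
        simp [h3, h4]
    · simp [h2]
  rw [Finset.sum_congr rfl (fun K _ => e0 K)] at this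
  rw [this]
  congr 1
  congr 1
  · unfold cnt
    apply Finset.sum_congr rfl
    intro W _
    have : Submodule.comap B.subtype ⊥ ≤ W := by simp
    rw [if_pos this]
  · unfold cnt
    apply Finset.sum_congr rfl
    intro W _
    rw [if_pos bot_le]

lemma g_zero (n : ℕ) : g F n 0 = 1 := cnt_zero

lemma g_top (n : ℕ) : g F n n = 1 := cnt_top (by simp)

lemma g_gt {n k : ℕ} (h : n < k) : g F n k = 0 := cnt_gt (n := n) (by simp) h

/-- The `q`-Pascal recursion. -/
lemma g_succ (n k : ℕ) : ∃ X : ℤ, g F (n + 1) (k + 1) = g F n (k + 1) + X ∧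
    X * (Nat.card F : ℤ) ^ k = (Nat.card F : ℤ) ^ n * g F n k := by
  have hn : finrank F (Fin (n + 1) → F) = n + 1 := by simp
  obtain ⟨A, hA1, hA2⟩ := exists_flag (F := F) (n + 1) hn
  have hB : finrank F (A n) = n := hA2 n (by omega)
  have hT : finrank F (A (n + 1)) = n + 1 := hA2 (n + 1) le_rfl
  have htop : A (n + 1) = ⊤ := Submodule.eq_top_of_finrank_eq (by rw [hT, hn])
  have hq : finrank F ((Fin (n + 1) → F) ⧸ A n) = 1 := by
    rw [finrank_quot hn _ hB]; omega
  have c1 := cut_count (A n) (k + 1) (k + 1) le_rfl
  have c2 := cut_count (A n) k (k + 1) (by omega)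
  refine ⟨∑ K : Submodule F (Fin (n + 1) → F), if (finrank F K = k + 1 ∧
    finrank F (K ⊓ A n : Submodule F (Fin (n + 1) → F)) = k) then (1 : ℤ) else 0, ?_, ?_⟩
  · rw [Nat.sub_self, mul_zero, pow_zero, pow_zero, mul_one, one_mul, cnt_zero, mul_one,
      cnt_eq_g hB] at c1
    rw [← c1, ← Finset.sum_add_distrib]
    unfold g cnt
    apply Finset.sum_congr rfl
    intro K _
    have hs := step_le (A n) (A (n + 1)) K (hA1 _ _ (by omega)) (by omega)
    rw [htop, inf_top_eq] at hs
    by_cases h : finrank F K = k + 1
    · have h' : finrank F (K ⊓ A n : Submodule F (Fin (n + 1) → F)) = k + 1 ∨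
        finrank F (K ⊓ A n : Submodule F (Fin (n + 1) → F)) = k := by omega
      rcases h' with h' | h' <;> simp [h, h']
    · simp [h]
  · have e1 : k + 1 - k = 1 := by omega
    rw [e1, mul_one, pow_one, cnt_top hq, mul_one, cnt_eq_g hB] at c2
    rw [c2]
    congr 1
    have := Module.natCard_eq_pow_finrank (K := F) (V := A n)
    rw [this, hB]
    push_cast
    rfl

lemma g_even_iff (hq : Odd (Nat.card F)) (n : ℕ) : ∀ k, Even (g F n k) ↔ Even (n.choose k) := by
  induction n with
  | zero =>
    intro k
    rcases k with _ | k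
    · rw [g_zero]; simp
    · rw [g_gt (by omega)]; simp
  | succ n ih =>
    intro k
    rcases k with _ | k
    · rw [g_zero]; simp
    · obtain ⟨X, h1, h2⟩ := g_succ (F := F) n k
      have hX : Even X ↔ Even (g F n k) := by
        have hq' : Odd (Nat.card F : ℤ) := by exact_mod_cast hq
        have ha : Even (X * (Nat.card F : ℤ) ^ k) ↔ Even X := by
          rw [Int.even_mul]
          have : ¬ Even ((Nat.card F : ℤ) ^ k) := by
            rw [Int.not_even_iff_odd]; exact hq'.pow
          tauto
        have hb : Even ((Nat.card F : ℤ) ^ n * g F n k) ↔ Even (g F n k) := by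
          rw [Int.even_mul]
          have : ¬ Even ((Nat.card F : ℤ) ^ n) := by
            rw [Int.not_even_iff_odd]; exact hq'.pow
          tauto
        rw [← ha, h2, hb]
      rw [h1, Int.even_add, hX, ih, ih, Nat.choose_succ_succ, Nat.even_add]
      tauto

lemma g_odd_of_even (hq : Even (Nat.card F)) (n : ℕ) : ∀ k, k ≤ n → Odd (g F n k) := by
  induction n with
  | zero =>
    intro k hk
    have : k = 0 := by omega
    subst this
    rw [g_zero]; exact odd_one
  | succ n ih =>
    intro k hk
    rcases k with _ | k
    · rw [g_zero]; exact odd_one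
    · obtain ⟨X, h1, h2⟩ := g_succ (F := F) n k
      have hq' : Even (Nat.card F : ℤ) := by exact_mod_cast hq
      have hq0 : (Nat.card F : ℤ) ≠ 0 := by exact_mod_cast Nat.card_pos.ne'
      rcases Nat.lt_or_ge k n with hlt | hge
      · have hX : Even X := by
          obtain ⟨j, hj⟩ : ∃ j, n = k + (j + 1) := ⟨n - k - 1, by omega⟩
          have h3 : (Nat.card F : ℤ) ^ n = (Nat.card F : ℤ) ^ k * (Nat.card F : ℤ) ^ (j + 1) := by
            rw [hj, pow_add]
          have : X = (Nat.card F : ℤ) ^ (j + 1) * g F n k := by
            apply mul_right_cancel₀ (pow_ne_zero k hq0)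
            rw [h2, h3]; ring
          rw [this, pow_succ]
          exact (hq'.mul_left _).mul_right _
        rw [h1]
        exact (ih (k + 1) (by omega)).add_even hX
      · have hkn : k = n := by omega
        subst hkn
        have : X = g F k k := by
          apply mul_right_cancel₀ (pow_ne_zero k hq0)
          rw [h2]; ring
        rw [h1, g_gt (by omega), this, zero_add]
        exact ih k le_rfl

/-- A finite type with an even number of elements carries a balanced sign function. -/
lemma exists_balanced (α : Type) [Fintype α] (h : Even (Fintype.card α)) :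
    ∃ σ : α → ℤ, (∀ a, σ a = 1 ∨ σ a = -1) ∧ ∑ a, σ a = 0 := by
  obtain ⟨m, hm⟩ := h
  obtain ⟨S, hS1, hS2⟩ := Finset.exists_subset_card_eq (s := (Finset.univ : Finset α)) (n := m)
    (by rw [Finset.card_univ]; omega)
  refine ⟨fun a => if a ∈ S then 1 else -1, ?_, ?_⟩
  · intro a
    by_cases ha : a ∈ S
    · left; simp [ha]
    · right; simp [ha]
  · have e : ∀ a : α, (if a ∈ S then (1 : ℤ) else -1) = 2 * (if a ∈ S then 1 else 0) - 1 := by
      intro a; by_cases ha : a ∈ S <;> simp [ha]
    rw [Finset.sum_congr rfl (fun a _ => e a), Finset.sum_sub_distrib, ← Finset.mul_sum]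
    simp only [Finset.sum_ite_mem, Finset.univ_inter, Finset.sum_const, Finset.card_univ,
      nsmul_eq_mul, mul_one]
    rw [hS2, hm]
    push_cast
    ring

/-- strength 1: only the parity of the number matters -/
lemma L.one {n k : ℕ} (h : Even (g F n k)) : L F 1 k n := by
  let X := {W : Submodule F (Fin n → F) // finrank F W = k}
  have hX : Even (Fintype.card X) := by
    have : g F n k = (Fintype.card X : ℤ) := by
      unfold g cnt
      rw [Finset.sum_boole, Fintype.card_subtype]
    rw [this] at h
    exact_mod_cast h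
  obtain ⟨σ, h1, h2⟩ := exists_balanced X hX
  refine ⟨fun W => if hW : finrank F W = k then σ ⟨W, hW⟩ else 0, ?_, ?_, ?_⟩
  · intro W hW
    have hW' : finrank F W = k := hW
    show (if hW : finrank F W = k then σ ⟨W, hW⟩ else 0) = 1 ∨
      (if hW : finrank F W = k then σ ⟨W, hW⟩ else 0) = -1
    rw [dif_pos hW']
    exact h1 _
  · intro W hW
    have hW' : ¬ finrank F W = k := hW
    show (if hW : finrank F W = k then σ ⟨W, hW⟩ else 0) = 0
    rw [dif_neg hW']
  · intro T hT
    have hT' : T = ⊥ := Submodule.finrank_eq_zero.1 (by omega)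
    subst hT'
    simp only [bot_le, if_true]
    refine Eq.trans ?_ h2
    rw [← Finset.sum_subset (Finset.subset_univ (Finset.univ.filter (fun W : Submodule F (Fin n → F)
      => finrank F W = k)))]
    · symm
      apply Finset.sum_bij (fun (a : X) _ => a.1)
      · intro a _; simp [a.2]
      · intro a _ b _ hab; exact Subtype.ext hab
      · intro W hW
        rw [Finset.mem_filter] at hW
        exact ⟨⟨W, hW.2⟩, Finset.mem_univ _, rfl⟩
      · intro a _
        rw [dif_pos a.2]
    · intro W _ hW
      rw [Finset.mem_filter, not_and] at hW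
      rw [dif_neg (hW (Finset.mem_univ _))]

end Pool.Agent.H24.LS
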