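import Mathlib
import Pool.Agent.H24.LSBlock

set_option autoImplicit false
set_option linter.unusedSectionVars false
set_option linter.unusedVariables false
set_option linter.style.haveILetI false

open Module
open scoped Classical

namespace Pool.Agent.H24.LS

variable {F : Type} [Field F] [Finite F] {V : Type} [AddCommGroup V] [Module F V] [Finite V]

lemma card_diff (R W : Submodule F V) (k : ℕ) (hW : finrank F W = k)
    (h : finrank F (W ⊓ R : Submodule F V) + 1 = k) :
    (∑ᶠ x : V, if (x ∈ W ∧ x ∉ R) then (1 : ℤ) else 0)
      = (Nat.card F : ℤ) ^ k - (Nat.card F : ℤ) ^ (k - 1) := by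
  haveI : Fintype V := Fintype.ofFinite V
  rw [finsum_eq_sum_of_fintype]
  have e1 : ∀ x : V, (if (x ∈ W ∧ x ∉ R) then (1 : ℤ) else 0)
      = (if x ∈ W then 1 else 0) - (if x ∈ (W ⊓ R : Submodule F V) then 1 else 0) := by
    intro x
    by_cases h1 : x ∈ W <;> by_cases h2 : x ∈ R <;> simp [h1, h2]
  rw [Finset.sum_congr rfl (fun x _ => e1 x), Finset.sum_sub_distrib]
  have e2 : ∀ U : Submodule F V, (∑ x : V, if x ∈ U then (1 : ℤ) else 0)
      = (Nat.card F : ℤ) ^ (finrank F U) := by
    intro U
    have h3 := Module.natCard_eq_pow_finrank (K := F) (V := U)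
    rw [Finset.sum_boole]
    have h4 : (Finset.univ.filter (fun x => x ∈ U)).card = Nat.card U := by
      rw [Nat.card_eq_fintype_card, Fintype.card_subtype]
    rw [h4, h3]
    push_cast
    rfl
  rw [e2, e2, hW]
  congr 2
  omega

/-- Sums of a null function over an interval of subspaces. -/
lemma null_interval (s k : ℕ) (f : Submodule F V → ℤ) (hk : ∀ W, f W ≠ 0 → finrank F W = k)
    (hf : Null s f) (c : ℕ) : ∀ R T : Submodule F V, finrank F R + c = finrank F V →
      finrank F T + c < s →
      ∑ W : Submodule F V, (if (T ≤ W ∧ W ≤ R) then f W else 0) = 0 := by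
  induction c with
  | zero =>
    intro R T hR hT
    have : R = ⊤ := Submodule.eq_top_of_finrank_eq (by omega)
    subst this
    refine Eq.trans ?_ (hf T (by omega))
    apply Finset.sum_congr rfl
    intro W _
    simp
  | succ c ih =>
    intro R T hR hT
    -- choose `R' > R` with one more dimension
    obtain ⟨y, hy⟩ : ∃ y, y ∉ R := by
      by_contra h
      push Not at h
      have : R = ⊤ := Submodule.eq_top_iff'.2 h
      rw [this, finrank_top] at hR
      omega
    set R' := R ⊔ Submodule.span F {y} with hR'
    have hle : R ≤ R' := le_sup_left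
    have hy0 : y ≠ 0 := fun h => hy (h ▸ R.zero_mem)
    have hfr : finrank F R' = finrank F R + 1 := by
      have hinf : R ⊓ Submodule.span F {y} = ⊥ := by
        rw [eq_bot_iff]
        rintro z ⟨hz1, hz2⟩
        obtain ⟨r, rfl⟩ := Submodule.mem_span_singleton.1 hz2
        by_cases hr : r = 0
        · simp [hr]
        · exfalso
          apply hy
          have := R.smul_mem r⁻¹ hz1
          rwa [smul_smul, inv_mul_cancel₀ hr, one_smul] at this
      have := Submodule.finrank_sup_add_finrank_inf_eq R (Submodule.span F {y})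
      rw [hinf, finrank_bot, finrank_span_singleton hy0] at this
      omega
    have i1 := ih R' T (by omega) (by omega)
    haveI : Fintype V := Fintype.ofFinite V
    -- double count
    have i2 : ∑ x : V, (if (x ∈ R' ∧ x ∉ R) then
        (∑ W : Submodule F V, (if (T ⊔ Submodule.span F {x} ≤ W ∧ W ≤ R') then f W else 0))
        else 0) = 0 := by
      apply Finset.sum_eq_zero
      intro x _
      by_cases hx : x ∈ R' ∧ x ∉ R
      · rw [if_pos hx]
        apply ih R' _ (by omega)
        have h1 : finrank F (T ⊔ Submodule.span F {x} : Submodule F V) ≤ finrank F T + 1 := by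
          have := Submodule.finrank_add_le_finrank_add_finrank T (Submodule.span F {x})
          have h2 : finrank F (Submodule.span F {x}) ≤ 1 := by
            have := finrank_span_le_card (R := F) ({x} : Set V)
            simpa using this
          omega
        omega
      · rw [if_neg hx]
    have i3 : (∑ x : V, (if (x ∈ R' ∧ x ∉ R) then
        (∑ W : Submodule F V, (if (T ⊔ Submodule.span F {x} ≤ W ∧ W ≤ R') then f W else 0))
        else 0)) = ((Nat.card F : ℤ) ^ k - (Nat.card F : ℤ) ^ (k - 1)) *
          ∑ W : Submodule F V, (if (T ≤ W ∧ W ≤ R' ∧ ¬ W ≤ R) then f W else 0) := by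
      have e1 : ∀ x : V, (if (x ∈ R' ∧ x ∉ R) then
        (∑ W : Submodule F V, (if (T ⊔ Submodule.span F {x} ≤ W ∧ W ≤ R') then f W else 0))
        else 0) = ∑ W : Submodule F V, (if (T ≤ W ∧ W ≤ R') then f W else 0) *
          (if (x ∈ W ∧ x ∉ R) then 1 else 0) := by
        intro x
        by_cases hx : x ∈ R' ∧ x ∉ R
        · rw [if_pos hx]
          apply Finset.sum_congr rfl
          intro W _
          have : (T ⊔ Submodule.span F {x} ≤ W ∧ W ≤ R') ↔ ((T ≤ W ∧ W ≤ R') ∧ (x ∈ W ∧ x ∉ R)) := by
            rw [sup_le_iff, Submodule.span_singleton_le_iff_mem]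
            tauto
          by_cases h1 : T ≤ W ∧ W ≤ R' <;> by_cases h2 : x ∈ W ∧ x ∉ R
          · rw [if_pos (this.2 ⟨h1, h2⟩), if_pos h1, if_pos h2, mul_one]
          · rw [if_neg (fun h => h2 (this.1 h).2), if_neg h2, mul_zero]
          · rw [if_neg (fun h => h1 (this.1 h).1), if_neg h1, zero_mul]
          · rw [if_neg (fun h => h1 (this.1 h).1), if_neg h1, zero_mul]
        · rw [if_neg hx]
          symm
          apply Finset.sum_eq_zero
          intro W _
          by_cases h1 : T ≤ W ∧ W ≤ R'
          · have : ¬ (x ∈ W ∧ x ∉ R) := fun h => hx ⟨h1.2 h.1, h.2⟩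
            rw [if_neg this, mul_zero]
          · rw [if_neg h1, zero_mul]
      rw [Finset.sum_congr rfl (fun x _ => e1 x), Finset.sum_comm, Finset.mul_sum]
      apply Finset.sum_congr rfl
      intro W _
      rw [← Finset.mul_sum]
      by_cases h1 : T ≤ W ∧ W ≤ R'
      · by_cases h2 : W ≤ R
        · have h3 : ¬ (T ≤ W ∧ W ≤ R' ∧ ¬ W ≤ R) := fun h => h.2.2 h2
          rw [if_neg h3, mul_zero]
          have : ∀ x : V, (if (x ∈ W ∧ x ∉ R) then (1 : ℤ) else 0) = 0 := by
            intro x
            rw [if_neg]
            rintro ⟨a, b⟩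
            exact b (h2 a)
          rw [Finset.sum_congr rfl (fun x _ => this x)]
          simp
        · have h3 : (T ≤ W ∧ W ≤ R' ∧ ¬ W ≤ R) := ⟨h1.1, h1.2, h2⟩
          rw [if_pos h1, if_pos h3]
          by_cases hfW : f W = 0
          · simp [hfW]
          have hWk := hk W hfW
          have hst := step_le R R' W hle hfr
          have hWR' : W ⊓ R' = W := inf_eq_left.2 h1.2
          rw [hWR'] at hst
          have hlt : finrank F (W ⊓ R : Submodule F V) < finrank F W := by
            apply Submodule.finrank_lt_finrank_of_lt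
            refine lt_of_le_of_ne inf_le_left ?_
            intro h
            exact h2 (inf_eq_left.1 h)
          have hcd := card_diff R W k hWk (by omega)
          rw [finsum_eq_sum_of_fintype] at hcd
          rw [hcd]
          ring
      · have h3 : ¬ (T ≤ W ∧ W ≤ R' ∧ ¬ W ≤ R) := fun h => h1 ⟨h.1, h.2.1⟩
        rw [if_neg h1, if_neg h3, zero_mul, mul_zero]
    have i4 : ∑ W : Submodule F V, (if (T ≤ W ∧ W ≤ R' ∧ ¬ W ≤ R) then f W else 0) = 0 := by
      by_cases hk0 : k = 0
      · apply Finset.sum_eq_zero
        intro W _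
        by_cases hfW : f W = 0
        · simp [hfW]
        · have := hk W hfW
          rw [hk0, Submodule.finrank_eq_zero] at this
          rw [if_neg]
          rintro ⟨_, _, h⟩
          exact h (this ▸ bot_le)
      · rw [i3] at i2
        rcases mul_eq_zero.1 i2 with h | h
        · exfalso
          obtain ⟨k', rfl⟩ : ∃ k', k = k' + 1 := ⟨k - 1, by omega⟩
          rw [Nat.add_sub_cancel, sub_eq_zero] at h
          have h5 : (Nat.card F) ^ (k' + 1) = (Nat.card F) ^ k' := by exact_mod_cast h
          have h6 : 1 < Nat.card F := Finite.one_lt_card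
          have := Nat.pow_lt_pow_right h6 (Nat.lt_succ_self k')
          rw [Nat.succ_eq_add_one] at this
          omega
        · exact h
    have e5 : ∀ W : Submodule F V, (if (T ≤ W ∧ W ≤ R) then f W else 0)
        = (if (T ≤ W ∧ W ≤ R') then f W else 0)
          - (if (T ≤ W ∧ W ≤ R' ∧ ¬ W ≤ R) then f W else 0) := by
      intro W
      by_cases h1 : T ≤ W
      · by_cases h2 : W ≤ R
        · have h3 : W ≤ R' := le_trans h2 hle
          simp [h1, h2, h3]
        · by_cases h3 : W ≤ R' <;> simp [h1, h2, h3]
      · simp [h1]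
    rw [Finset.sum_congr rfl (fun W _ => e5 W), Finset.sum_sub_distrib, i1, i4, sub_zero]

/-- Duality. -/
theorem L.dual {s k n : ℕ} (hkn : k ≤ n) (h : L F s k n) : L F s (n - k) n := by
  obtain ⟨f, h1, h2, h3⟩ := h
  have hn : finrank F (Fin n → F) = n := by simp
  have hnd : finrank F (Dual F (Fin n → F)) = n := by rw [Subspace.dual_finrank_eq, hn]
  haveI : Finite (Dual F (Fin n → F)) := Module.finite_of_finite F
  apply L.ofV (V := Dual F (Fin n → F)) hnd
  let o := Subspace.orderIsoFiniteDimensional (K := F) (V := Fin n → F)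
  have hco : ∀ U : Submodule F (Dual F (Fin n → F)),
      finrank F U + finrank F U.dualCoannihilator = n := by
    intro U
    have := Subspace.finrank_add_finrank_dualCoannihilator_eq U
    rw [hn] at this
    exact this
  refine ⟨fun U => f U.dualCoannihilator, ?_, ?_, ?_⟩
  · intro U hU
    apply h1
    have := hco U
    have hU' : finrank F U = n - k := hU
    show finrank F _ = k
    omega
  · intro U hU
    apply h2
    intro h
    apply hU
    have := hco U
    have h' : finrank F U.dualCoannihilator = k := h
    show finrank F U = n - k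
    omega
  · intro T hT
    have hc := hco T
    have hi := null_interval s k f (fun W hW => by
      by_contra h; exact hW (h2 W h)) h3 (finrank F T) T.dualCoannihilator ⊥ (by omega)
        (by rw [finrank_bot]; omega)
    refine Eq.trans ?_ hi
    symm
    apply Fintype.sum_equiv (o.toEquiv.trans OrderDual.ofDual)
    intro W
    have hW : (o.toEquiv.trans OrderDual.ofDual) W = W.dualAnnihilator := rfl
    rw [hW]
    have hW2 : W.dualAnnihilator.dualCoannihilator = W := Subspace.dualAnnihilator_dualCoannihilator_eq
    show _ = (if T ≤ Submodule.dualAnnihilator W then f W.dualAnnihilator.dualCoannihilator else 0)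
    rw [hW2]
    have : (⊥ ≤ W ∧ W ≤ T.dualCoannihilator) ↔ T ≤ W.dualAnnihilator := by
      rw [Submodule.le_dualAnnihilator_iff_le_dualCoannihilator]
      simp
    by_cases hh : T ≤ W.dualAnnihilator
    · rw [if_pos hh, if_pos (this.2 hh)]
    · rw [if_neg hh, if_neg (fun h' => hh (this.1 h'))]

end Pool.Agent.H24.LS
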