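import Mathlib
import Pool.Agent.H24.LSDual
import Pool.Agent.H24.LSCount

set_option autoImplicit false
set_option linter.unusedSectionVars false
set_option linter.unusedVariables false
set_option linter.style.haveILetI false

open Module
open scoped Classical

namespace Pool.Agent.H24.LS

variable {F : Type} [Field F] [Finite F]

/-- derived halving -/
theorem L.derived {s k n : ℕ} (h : L F (s + 1) (k + 1) (n + 1)) : L F s k n := by
  obtain ⟨f, h1, h2, h3⟩ := h
  have hn : finrank F (Fin (n + 1) → F) = n + 1 := by simp
  obtain ⟨A, hA1, hA2⟩ := exists_flag (F := F) (n + 1) hn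
  have hP : finrank F (A 1) = 1 := hA2 1 (by omega)
  set P := A 1
  have hq : finrank F ((Fin (n + 1) → F) ⧸ P) = n := by
    rw [finrank_quot hn _ hP]; omega
  apply L.ofV (V := (Fin (n + 1) → F) ⧸ P) hq
  have hdim : ∀ U : Submodule F ((Fin (n + 1) → F) ⧸ P), finrank F (U.comap P.mkQ) = finrank F U + 1 := by
    intro U
    have h := LinearMap.finrank_range_add_finrank_ker (P.mkQ.domRestrict (U.comap P.mkQ))
    rw [LinearMap.range_domRestrict, LinearMap.ker_domRestrict, Submodule.ker_mkQ,
      Submodule.map_comap_eq_of_surjective P.mkQ_surjective] at h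
    have e2 := (Submodule.equivMapOfInjective (U.comap P.mkQ).subtype
      (U.comap P.mkQ).subtype_injective (P.comap (U.comap P.mkQ).subtype)).finrank_eq
    rw [Submodule.map_comap_subtype] at e2
    have hPle : P ≤ U.comap P.mkQ := by
      intro x hx
      rw [Submodule.mem_comap]
      have : P.mkQ x = 0 := by simpa using hx
      rw [this]
      exact U.zero_mem
    rw [inf_eq_right.2 hPle] at e2
    omega
  refine ⟨fun U => f (U.comap P.mkQ), ?_, ?_, ?_⟩
  · intro U hU
    apply h1
    have hU' : finrank F U = k := hU
    show finrank F _ = k + 1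
    rw [hdim, hU']
  · intro U hU
    apply h2
    intro h
    have h' : finrank F (U.comap P.mkQ) = k + 1 := h
    rw [hdim] at h'
    apply hU
    show finrank F U = k
    omega
  · intro T hT
    refine Eq.trans ?_ (h3 (T.comap P.mkQ) (by rw [hdim]; omega))
    -- sum over subspaces of the quotient = sum over subspaces containing `P`
    let e := Submodule.comapMkQRelIso P
    have hle : ∀ U : Submodule F ((Fin (n + 1) → F) ⧸ P), P ≤ U.comap P.mkQ := by
      intro U x hx
      rw [Submodule.mem_comap]
      have : P.mkQ x = 0 := by simpa using hx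
      rw [this]
      exact U.zero_mem
    rw [← Finset.sum_filter, ← Finset.sum_filter]
    apply Finset.sum_bij (fun (U : Submodule F ((Fin (n + 1) → F) ⧸ P)) _ => U.comap P.mkQ)
    · intro U hU
      rw [Finset.mem_filter] at hU ⊢
      exact ⟨Finset.mem_univ _, Submodule.comap_mono hU.2⟩
    · intro U1 _ U2 _ hUU
      exact Submodule.comap_injective_of_surjective P.mkQ_surjective hUU
    · intro W hW
      rw [Finset.mem_filter] at hW
      have hPW : P ≤ W := le_trans (hle T) hW.2
      have hback : (W.map P.mkQ).comap P.mkQ = W := by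
        rw [Submodule.comap_map_eq, Submodule.ker_mkQ, sup_eq_left.2 hPW]
      refine ⟨W.map P.mkQ, ?_, hback⟩
      rw [Finset.mem_filter]
      refine ⟨Finset.mem_univ _, ?_⟩
      rw [← Submodule.map_comap_eq_of_surjective P.mkQ_surjective T]
      exact Submodule.map_mono hW.2
    · intro U _
      rfl

/-- residual halving -/
theorem L.residual {s k n : ℕ} (h : L F (s + 1) k (n + 1)) : L F s k n := by
  obtain ⟨f, h1, h2, h3⟩ := h
  have hn : finrank F (Fin (n + 1) → F) = n + 1 := by simp
  obtain ⟨A, hA1, hA2⟩ := exists_flag (F := F) (n + 1) hn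
  have hH : finrank F (A n) = n := hA2 n (by omega)
  set H := A n
  apply L.ofV (V := H) hH
  have hdim : ∀ U : Submodule F H, finrank F (U.map H.subtype) = finrank F U := by
    intro U
    exact (Submodule.equivMapOfInjective H.subtype H.subtype_injective U).finrank_eq.symm
  refine ⟨fun U => f (U.map H.subtype), ?_, ?_, ?_⟩
  · intro U hU
    apply h1
    have hU' : finrank F U = k := hU
    show finrank F _ = k
    rw [hdim, hU']
  · intro U hU
    apply h2
    intro h
    have h' : finrank F (U.map H.subtype) = k := h
    rw [hdim] at h'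
    exact hU h'
  · intro T hT
    have hi := null_interval (s + 1) k f (fun W hW => by
      by_contra h; exact hW (h2 W h)) h3 1 H (T.map H.subtype) (by omega)
        (by rw [hdim]; omega)
    refine Eq.trans ?_ hi
    rw [← Finset.sum_filter, ← Finset.sum_filter]
    apply Finset.sum_bij (fun (U : Submodule F H) _ => U.map H.subtype)
    · intro U hU
      rw [Finset.mem_filter] at hU ⊢
      exact ⟨Finset.mem_univ _, Submodule.map_mono hU.2, Submodule.map_subtype_le H U⟩
    · intro U1 _ U2 _ hUU
      exact Submodule.map_injective_of_injective H.subtype_injective hUU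
    · intro W hW
      rw [Finset.mem_filter] at hW
      have hback : (W.comap H.subtype).map H.subtype = W := by
        rw [Submodule.map_comap_subtype, inf_eq_right.2 hW.2.2]
      refine ⟨W.comap H.subtype, ?_, hback⟩
      rw [Finset.mem_filter]
      refine ⟨Finset.mem_univ _, ?_⟩
      rw [← Submodule.comap_map_eq_of_injective H.subtype_injective T]
      exact Submodule.comap_mono hW.2.1
    · intro U _
      rfl

lemma L.derived_iter {s k n : ℕ} (m : ℕ) : L F (s + m) (k + m) (n + m) → L F s k n := by
  induction m with
  | zero => intro h; exact h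
  | succ m ih => intro h; exact ih (L.derived h)

lemma L.residual_iter {s k n : ℕ} (m : ℕ) : L F (s + m) k (n + m) → L F s k n := by
  induction m with
  | zero => intro h; exact h
  | succ m ih => intro h; exact ih (L.residual h)

lemma choose_even_of_mod (l : ℕ) : ∀ n k : ℕ, n % 2 ^ l < k % 2 ^ l → Even (n.choose k) := by
  induction l with
  | zero => intro n k h; simp [Nat.mod_one] at h
  | succ l ih =>
    intro n k h
    haveI : Fact (Nat.Prime 2) := ⟨Nat.prime_two⟩
    have hl := Choose.choose_modEq_choose_mod_mul_choose_div_nat (p := 2) (n := n) (k := k)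
    rw [Nat.even_iff]
    have hl' : n.choose k % 2 = ((n % 2).choose (k % 2) * (n / 2).choose (k / 2)) % 2 := hl
    rw [hl', ← Nat.even_iff, Nat.even_mul]
    have hn : n % 2 ^ (l + 1) = n % 2 + 2 * (n / 2 % 2 ^ l) := by
      rw [pow_succ', Nat.mod_mul]
    have hk : k % 2 ^ (l + 1) = k % 2 + 2 * (k / 2 % 2 ^ l) := by
      rw [pow_succ', Nat.mod_mul]
    rw [hn, hk] at h
    by_cases h2 : n / 2 % 2 ^ l < k / 2 % 2 ^ l
    · right; exact ih _ _ h2
    · left
      have h3 : n % 2 < k % 2 := by omega
      rw [Nat.choose_eq_zero_of_lt h3]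
      exact Even.zero

/-- The case `v = m 2^l + t`, `m ≥ 2`, from smaller ones. -/
theorem block_case (hq : Odd (Nat.card F)) (t l m k : ℕ) (hm : 2 ≤ m) (hk : t < k % 2 ^ l)
    (ih : ∀ v', v' < m * 2 ^ l + t → ∀ k' l', t ≤ v' % 2 ^ l' → v' % 2 ^ l' < k' % 2 ^ l' →
      L F (t + 1) k' v') : L F (t + 1) k (m * 2 ^ l + t) := by
  obtain ⟨κ, hκ⟩ : ∃ κ, κ = k % 2 ^ l := ⟨_, rfl⟩
  obtain ⟨a, ha⟩ : ∃ a, a = 2 ^ l := ⟨_, rfl⟩
  have hapos : 0 < a := ha ▸ pow_pos (by norm_num) l
  have hκa : κ < a := by rw [hκ, ha]; exact Nat.mod_lt _ (pow_pos (by norm_num) l)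
  have htκ : t < κ := hκ ▸ hk
  obtain ⟨r, hr⟩ : ∃ r, m = r + 2 := ⟨m - 2, by omega⟩
  have hma : m * 2 ^ l + t = a + (r + 1) * a + t := by rw [hr, ← ha]; ring
  have hkmod : k % a = κ := by rw [hκ, ha]
  obtain ⟨c, hc⟩ : ∃ c, k = c * a + κ := ⟨k / a, by
    have := Nat.div_add_mod k a
    rw [hkmod] at this
    rw [mul_comm]
    omega⟩
  rw [hma] at ih ⊢
  have hb : ∀ j, (j * a) % a = 0 := fun j => Nat.mul_mod_left j a
  -- main instance used: `(k', (r+1) a + t)` with `t < k' % a`
  have hB : ∀ k', t < k' % a → L F (t + 1) k' ((r + 1) * a + t) := by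
    intro k' hk'
    apply ih _ (by omega) k' l
    · rw [← ha, Nat.mul_add_mod' , Nat.mod_eq_of_lt (by omega)]
    · rw [← ha, Nat.mul_add_mod', Nat.mod_eq_of_lt (by omega)]
      exact hk'
  have hA : L F (t + 1) κ (a + t) := by
    have h1 : (a + t) % a = t := by rw [Nat.add_mod_left, Nat.mod_eq_of_lt (by omega)]
    apply ih _ (by
      have : 0 < (r + 1) * a := Nat.mul_pos (by omega) hapos
      omega) κ l
    · rw [← ha, h1]
    · rw [← ha, h1, Nat.mod_eq_of_lt hκa]
      exact htκ
  apply block t a ((r + 1) * a) k κ htκ hκa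
  · intro d hda hdk hd
    by_cases hd0 : d = 0
    · refine ⟨0, t + 1, by omega, L.zero _ _, ?_⟩
      subst hd0
      apply hB
      rw [Nat.sub_zero, hkmod]
      exact htκ
    by_cases hda' : d = a
    · refine ⟨0, t + 1, by omega, L.zero _ _, ?_⟩
      subst hda'
      apply hB
      have : (k - d) % d = κ := by
        rw [← hkmod]
        have h5 : k % d = (k - d) % d := Nat.mod_eq_sub_mod hdk
        exact h5.symm
      rw [this]
      exact htκ
    · refine ⟨1, t, by omega, ?_, ?_⟩
      · apply L.one
        rw [g_even_iff hq]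
        apply choose_even_of_mod l
        rw [← ha, Nat.mod_self, Nat.mod_eq_of_lt (by omega)]
        omega
      · apply L.mono (by omega : t ≤ t + 1)
        apply hB
        rcases Nat.lt_or_ge κ d with h | h
        · -- d > κ
          have hc1 : 1 ≤ c := by
            by_contra h0
            have : c = 0 := by omega
            rw [this, zero_mul] at hc
            omega
          obtain ⟨c', rfl⟩ : ∃ c', c = c' + 1 := ⟨c - 1, by omega⟩
          have e1 : k - d = c' * a + (a + κ - d) := by
            have : (c' + 1) * a = c' * a + a := by ring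
            omega
          rw [e1, Nat.mul_add_mod', Nat.mod_eq_of_lt (by omega)]
          omega
        · have e1 : k - d = c * a + (κ - d) := by omega
          rw [e1, Nat.mul_add_mod', Nat.mod_eq_of_lt (by omega)]
          omega
  · intro i hi hik
    constructor
    · apply L.derived_iter (t - i)
      have e1 : i + 1 + (t - i) = t + 1 := by omega
      have e2 : κ - t + i + (t - i) = κ := by omega
      have e3 : a + i + (t - i) = a + t := by omega
      rw [e1, e2, e3]
      exact hA
    · have hbpos : 0 < (r + 1) * a := Nat.mul_pos (by omega) hapos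
      apply L.derived_iter (i + 1)
      have e1 : t - i + (i + 1) = t + 1 := by omega
      have e2 : k - (κ - t + i) + (i + 1) = c * a + (t + 1) := by omega
      have e3 : (r + 1) * a + t - (i + 1) + (i + 1) = (r + 1) * a + t := by omega
      rw [e1, e2, e3]
      apply hB
      rw [Nat.mul_add_mod', Nat.mod_eq_of_lt (by omega)]
      omega
  · intro i hi hik
    constructor
    · apply L.residual_iter (t - i)
      have e1 : i + 1 + (t - i) = t + 1 := by omega
      have e3 : a + i + (t - i) = a + t := by omega
      rw [e1, e3]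
      exact hA
    · have hbpos : 0 < (r + 1) * a := Nat.mul_pos (by omega) hapos
      apply L.residual_iter (i + 1)
      have e1 : t - i + (i + 1) = t + 1 := by omega
      have e3 : (r + 1) * a + t - (i + 1) + (i + 1) = (r + 1) * a + t := by omega
      rw [e1, e3]
      apply hB
      have hc1 : 1 ≤ c := by
        by_contra h0
        have : c = 0 := by omega
        rw [this, zero_mul] at hc
        omega
      obtain ⟨c', rfl⟩ : ∃ c', c = c' + 1 := ⟨c - 1, by omega⟩
      have e2 : k - (κ + 1) = c' * a + (a - 1) := by
        have : (c' + 1) * a = c' * a + a := by ring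
        omega
      rw [e2, Nat.mul_add_mod', Nat.mod_eq_of_lt (by omega)]
      omega
  · intro _
    exact hA

lemma succ_mod (x a : ℕ) (ha : 0 < a) (h : (x + 1) % a ≠ 0) : (x + 1) % a = x % a + 1 := by
  have h1 := Nat.div_add_mod x a
  have h2 := Nat.mod_lt x ha
  rcases Nat.lt_or_ge (x % a + 1) a with h3 | h3
  · conv_lhs => rw [← h1]
    rw [add_assoc, Nat.mul_add_mod, Nat.mod_eq_of_lt h3]
  · exfalso
    apply h
    have h8 : x + 1 = a * (x / a + 1) := by
      rw [mul_add, mul_one]; omega
    rw [h8, Nat.mul_mod_right]

/-- Reduction to root cases, for each strength `t`. -/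
theorem reduce (hq : Odd (Nat.card F)) (t : ℕ)
    (hroot : ∀ n j, 2 * j ≤ t → t < 2 ^ n + j → L F (t + 1) (2 ^ n + j) (2 ^ (n + 1) + t)) :
    ∀ v k l, t ≤ v % 2 ^ l → v % 2 ^ l < k % 2 ^ l → L F (t + 1) k v := by
  intro v
  induction v using Nat.strong_induction_on with
  | _ v ih =>
    intro k l h1 h2
    by_cases hkv : v < k
    · exact L.of_lt hkv
    by_cases hr : v % 2 ^ l = t
    · -- `v = m 2^l + t`
      obtain ⟨m, hm⟩ : ∃ m, v = m * 2 ^ l + t := ⟨v / 2 ^ l, by
        have := Nat.div_add_mod v (2 ^ l)
        rw [hr] at this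
        rw [mul_comm]
        omega⟩
      rcases Nat.lt_or_ge m 2 with hm2 | hm2
      · have hm01 : m = 0 ∨ m = 1 := by omega
        rcases hm01 with rfl | rfl
        · have : k % 2 ^ l ≤ k := Nat.mod_le _ _
          omega
        · rw [one_mul] at hm
          -- `k < 2^l`
          rcases l with _ | n
          · simp [Nat.mod_one] at h2
          have hpow : 2 ^ (n + 1) = 2 * 2 ^ n := pow_succ' 2 n
          have hkl : k < 2 ^ (n + 1) := by
            by_contra hge
            push Not at hge
            have : k % 2 ^ (n + 1) = (k - 2 ^ (n + 1)) % 2 ^ (n + 1) := Nat.mod_eq_sub_mod hge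
            have h3 : (k - 2 ^ (n + 1)) % 2 ^ (n + 1) ≤ k - 2 ^ (n + 1) := Nat.mod_le _ _
            omega
          have hkt : t < k := by
            have : k % 2 ^ (n + 1) ≤ k := Nat.mod_le _ _
            omega
          by_cases hc : t < k % 2 ^ n
          · have hv2 : v = 2 * 2 ^ n + t := by rw [hm, hpow]
            rw [hv2]
            apply block_case hq t n 2 k le_rfl hc
            intro v' hv' k' l' g1 g2
            exact ih v' (by omega) k' l' g1 g2
          · push Not at hc
            have hge : 2 ^ n ≤ k := by
              by_contra hlt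
              push Not at hlt
              rw [Nat.mod_eq_of_lt hlt] at hc
              omega
            obtain ⟨j, hj⟩ : ∃ j, k = 2 ^ n + j := ⟨k - 2 ^ n, by omega⟩
            have hjn : j < 2 ^ n := by omega
            have hkj : k % 2 ^ n = j := by
              rw [hj, Nat.add_mod_left, Nat.mod_eq_of_lt hjn]
            rw [hkj] at hc
            by_cases hj2 : 2 * j ≤ t
            · rw [hj, hm]
              exact hroot n j hj2 (by omega)
            · have hd := hroot n (t - j) (by omega) (by omega)
              have := L.dual (by omega) hd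
              have e1 : 2 ^ (n + 1) + t - (2 ^ n + (t - j)) = 2 ^ n + j := by omega
              rw [e1] at this
              rw [hj, hm]
              exact this
      · rw [hm]
        apply block_case hq t l m k hm2 (by omega)
        intro v' hv' k' l' g1 g2
        exact ih v' (by omega) k' l' g1 g2
    · -- residue larger than `t`
      have hlt : t < v % 2 ^ l := by omega
      have hv0 : 0 < v := by
        rcases Nat.eq_zero_or_pos v with h | h
        · subst h; simp at hlt
        · exact h
      have hk0 : 0 < k := by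
        rcases Nat.eq_zero_or_pos k with h | h
        · subst h; simp at h2
        · exact h
      obtain ⟨v', rfl⟩ : ∃ v', v = v' + 1 := ⟨v - 1, by omega⟩
      obtain ⟨k', rfl⟩ : ∃ k', k = k' + 1 := ⟨k - 1, by omega⟩
      have hpos : 0 < 2 ^ l := pow_pos (by norm_num) l
      have ev : (v' + 1) % 2 ^ l = v' % 2 ^ l + 1 := succ_mod v' (2 ^ l) hpos (by omega)
      have ek : (k' + 1) % 2 ^ l = k' % 2 ^ l + 1 := succ_mod k' (2 ^ l) hpos (by omega)
      apply L.hyper
      · exact ih v' (by omega) (k' + 1) l (by omega) (by omega)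
      · exact ih v' (by omega) k' l (by omega) (by omega)

end Pool.Agent.H24.LS
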