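import Mathlib
import Pool.Agent.H24.LSCount

set_option autoImplicit false
set_option linter.unusedSectionVars false
set_option linter.unusedVariables false
set_option linter.style.haveILetI false

open Module
open scoped Classical

namespace Pool.Agent.H24.LS

section Singer

variable {F : Type} [Field F] [Finite F] {E : Type} [Field E] [Algebra F E] [Finite E]

/-- multiply a subspace by a unit -/
def tw (u : Eˣ) (W : Submodule F E) : Submodule F E :=
  W.comap (LinearMap.mulLeft F ((u⁻¹ : Eˣ) : E))

lemma mem_tw (u : Eˣ) (W : Submodule F E) (x : E) : x ∈ tw u W ↔ ((u⁻¹ : Eˣ) : E) * x ∈ W :=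
  Iff.rfl

lemma tw_one (W : Submodule F E) : tw 1 W = W := by
  ext x; rw [mem_tw]; simp

lemma tw_mul (u v : Eˣ) (W : Submodule F E) : tw (u * v) W = tw u (tw v W) := by
  ext x
  rw [mem_tw, mem_tw, mem_tw, mul_inv_rev, Units.val_mul, mul_assoc]

lemma finrank_tw (u : Eˣ) (W : Submodule F E) : finrank F (tw u W) = finrank F W := by
  have e : tw u W ≃ₗ[F] W :=
    { toFun := fun x => ⟨((u⁻¹ : Eˣ) : E) * x.1, x.2⟩
      invFun := fun x => ⟨(u : E) * x.1, by
        rw [mem_tw, ← mul_assoc, Units.inv_mul, one_mul]; exact x.2⟩
      map_add' := fun x y => Subtype.ext (mul_add _ _ _)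
      map_smul' := fun c x => Subtype.ext (by
        show ((u⁻¹ : Eˣ) : E) * (c • x.1) = c • (((u⁻¹ : Eˣ) : E) * x.1)
        rw [mul_smul_comm])
      left_inv := fun x => Subtype.ext (by
        show (u : E) * (((u⁻¹ : Eˣ) : E) * x.1) = x.1
        rw [← mul_assoc, Units.mul_inv, one_mul])
      right_inv := fun x => Subtype.ext (by
        show ((u⁻¹ : Eˣ) : E) * ((u : E) * x.1) = x.1
        rw [← mul_assoc, Units.inv_mul, one_mul]) }
  exact e.finrank_eq

/-- multipliers of `W` form an intermediate field -/
noncomputable def multField (W : Submodule F E) : IntermediateField F E where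
  carrier := {x | ∀ w ∈ W, x * w ∈ W}
  mul_mem' := by
    intro a b ha hb w hw
    rw [mul_assoc]
    exact ha _ (hb _ hw)
  one_mem' := by
    intro w hw
    simpa using hw
  add_mem' := by
    intro a b ha hb w hw
    rw [add_mul]
    exact W.add_mem (ha _ hw) (hb _ hw)
  zero_mem' := by
    intro w hw
    simp
  algebraMap_mem' := by
    intro r w hw
    rw [← Algebra.smul_def]
    exact W.smul_mem r hw
  inv_mem' := by
    intro x hx w hw
    by_cases hx0 : x = 0
    · simp [hx0]
    · have hx' : ∀ m : ℕ, ∀ w ∈ W, x ^ m * w ∈ W := by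
        intro m
        induction m with
        | zero => intro w hw; simpa using hw
        | succ m ih =>
          intro w hw
          rw [pow_succ, mul_assoc]
          exact ih _ (hx _ hw)
      have hfin : IsOfFinOrder (Units.mk0 x hx0) := isOfFinOrder_of_finite _
      have hpos := hfin.orderOf_pos
      have hpow := pow_orderOf_eq_one (Units.mk0 x hx0)
      have hpow' : x ^ (orderOf (Units.mk0 x hx0)) = 1 := by
        have := congrArg Units.val hpow
        rwa [Units.val_pow_eq_pow_val, Units.val_mk0, Units.val_one] at this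
      have hinv : x⁻¹ = x ^ (orderOf (Units.mk0 x hx0) - 1) := by
        apply inv_eq_of_mul_eq_one_left
        rw [← pow_succ, Nat.sub_add_cancel hpos, hpow']
      rw [hinv]
      exact hx' _ w hw

lemma stab_eq (W : Submodule F E) (k v : ℕ) (hv : finrank F E = v) (hk : finrank F W = k)
    (hk0 : 0 < k) (hco : Nat.Coprime k v) (u : Eˣ) :
    tw u W = W ↔ ∃ c : F, algebraMap F E c = u := by
  constructor
  · intro hu
    let K := multField W
    have huK : (u : E) ∈ K := by
      intro w hw
      have : (u : E) * w ∈ tw u W := by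
        rw [mem_tw, ← mul_assoc, Units.inv_mul, one_mul]; exact hw
      rw [hu] at this
      exact this
    -- `W` as a `K`-space
    let W' : Submodule K E :=
      { carrier := W
        add_mem' := fun ha hb => W.add_mem ha hb
        zero_mem' := W.zero_mem
        smul_mem' := fun c x hx => c.2 x hx }
    have h1 : finrank F K * finrank K E = finrank F E := Module.finrank_mul_finrank F K E
    have h2 : finrank F K * finrank K W' = finrank F W := by
      have := Module.finrank_mul_finrank F K W'
      rw [this]
      have e : W' ≃ₗ[F] W :=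
        { toFun := fun x => ⟨x.1, x.2⟩
          invFun := fun x => ⟨x.1, x.2⟩
          map_add' := fun _ _ => rfl
          map_smul' := fun _ _ => rfl
          left_inv := fun _ => rfl
          right_inv := fun _ => rfl }
      exact e.finrank_eq
    have hd : finrank F K ∣ Nat.gcd k v := by
      apply Nat.dvd_gcd
      · rw [← hk, ← h2]; exact dvd_mul_right _ _
      · rw [← hv, ← h1]; exact dvd_mul_right _ _
    rw [hco] at hd
    have hd1 : finrank F K = 1 := Nat.dvd_one.1 hd
    have hbot : K = ⊥ := IntermediateField.finrank_eq_one_iff.1 hd1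
    rw [hbot] at huK
    obtain ⟨c, hc⟩ := IntermediateField.mem_bot.1 huK
    exact ⟨c, hc⟩
  · rintro ⟨c, hc⟩
    ext x
    rw [mem_tw]
    have hc0 : c ≠ 0 := by
      rintro rfl
      rw [map_zero] at hc
      exact u.ne_zero hc.symm
    have : ((u⁻¹ : Eˣ) : E) * x = c⁻¹ • x := by
      rw [Units.val_inv_eq_inv_val, ← hc, Algebra.smul_def, map_inv₀]
    rw [this]
    constructor
    · intro h
      have := W.smul_mem c h
      rwa [smul_smul, mul_inv_cancel₀ hc0, one_smul] at this
    · intro h
      exact W.smul_mem _ h

/-- The set of `k`-subspaces as a type with the action of the unit group. -/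
def GrT (F : Type) [Field F] (E : Type) [Field E] [Algebra F E] (k : ℕ) : Type :=
  {W : Submodule F E // finrank F W = k}

noncomputable instance grFintype (k : ℕ) : Fintype (GrT F E k) :=
  inferInstanceAs (Fintype {W : Submodule F E // finrank F W = k})

noncomputable instance unitsFintype : Fintype Eˣ := Fintype.ofFinite _

noncomputable instance grAction (k : ℕ) : MulAction Eˣ (GrT F E k) where
  smul u W := ⟨tw u W.1, by rw [finrank_tw]; exact W.2⟩
  one_smul W := Subtype.ext (tw_one _)
  mul_smul u v W := Subtype.ext (tw_mul _ _ _)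

lemma coe_smul (k : ℕ) (u : Eˣ) (W : GrT F E k) : (u • W).1 = tw u W.1 := rfl

lemma card_orbit (k v : ℕ) (hv : finrank F E = v) (hk0 : 0 < k) (hco : Nat.Coprime k v)
    (W : GrT F E k) :
    Fintype.card (MulAction.orbit Eˣ W) = ∑ i ∈ Finset.range v, Nat.card F ^ i := by
  have hq : 1 < Nat.card F := Finite.one_lt_card
  have h1 := MulAction.card_orbit_mul_card_stabilizer_eq_card_group Eˣ W
  have h2 : Fintype.card (MulAction.stabilizer Eˣ W) = Nat.card F - 1 := by
    have e : (MulAction.stabilizer Eˣ W : Subgroup Eˣ)
        = (Units.map (algebraMap F E : F →* E)).range := by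
      ext u
      rw [MulAction.mem_stabilizer_iff, MonoidHom.mem_range]
      have : u • W = W ↔ tw u W.1 = W.1 := by
        constructor
        · intro h
          exact congrArg Subtype.val h
        · intro h
          exact Subtype.ext h
      rw [this, stab_eq W.1 k v hv W.2 hk0 hco]
      constructor
      · rintro ⟨c, hc⟩
        have hc0 : c ≠ 0 := by
          rintro rfl
          rw [map_zero] at hc
          exact u.ne_zero hc.symm
        exact ⟨Units.mk0 c hc0, Units.ext (by simpa using hc)⟩
      · rintro ⟨c, hc⟩
        exact ⟨c, by rw [← hc]; rfl⟩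
    rw [← Nat.card_eq_fintype_card, e]
    have hinj : Function.Injective (Units.map (algebraMap F E : F →* E)) :=
      Units.map_injective (algebraMap F E).injective
    rw [← Nat.card_congr (MonoidHom.ofInjective hinj).toEquiv, Nat.card_units]
  have h3 : Fintype.card Eˣ = Nat.card F ^ v - 1 := by
    rw [← Nat.card_eq_fintype_card, Nat.card_units,
      Module.natCard_eq_pow_finrank (K := F) (V := E), hv]
  rw [h2, h3] at h1
  have h4 := Nat.geomSum_eq (m := Nat.card F) (by omega) v
  rw [h4, ← h1]
  rw [Nat.mul_div_cancel _ (by omega)]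

lemma odd_geom (q v : ℕ) (hv : Odd v) : Odd (∑ i ∈ Finset.range v, q ^ i) := by
  obtain ⟨m, rfl⟩ := hv
  induction m with
  | zero => simp
  | succ m ih =>
    have : 2 * (m + 1) + 1 = (2 * m + 1) + 1 + 1 := by ring
    rw [this, Finset.sum_range_succ, Finset.sum_range_succ, add_assoc]
    apply ih.add_even
    rw [pow_succ q (2 * m + 1)]
    rcases Nat.even_or_odd q with h | h
    · have h1 : Even (q ^ (2 * m + 1)) := by
        rw [Nat.even_pow]; exact ⟨h, by omega⟩
      exact h1.add (h1.mul_right _)
    · exact (h.pow).add_odd ((h.pow).mul h)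

/-- Singer cycle: if `gcd(k, v) = 1`, `v` odd and the number of `k`-subspaces is even, there is a
halving of strength 2 (`t = 1`). -/
theorem singer (k v : ℕ) (hv : finrank F E = v) (hk0 : 0 < k) (hco : Nat.Coprime k v)
    (hodd : Odd v) (heven : Even (g F v k)) : Halv 2 (Gr F k E) := by
  have hcard : g F v k = (Fintype.card (GrT F E k) : ℤ) := by
    rw [← cnt_eq_g hv]
    unfold cnt
    rw [Finset.sum_boole]
    congr 1
    rw [← Fintype.card_subtype]
    rfl
  rw [hcard] at heven
  have heven' : Even (Fintype.card (GrT F E k)) := by exact_mod_cast heven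
  -- orbits
  let Ω := MulAction.orbitRel.Quotient Eˣ (GrT F E k)
  haveI : Fintype Ω := Fintype.ofFinite Ω
  set B := ∑ i ∈ Finset.range v, Nat.card F ^ i with hB
  have horb : ∀ ω : Ω, Fintype.card {W : GrT F E k // Quotient.mk'' W = ω} = B := by
    intro ω
    induction ω using Quotient.inductionOn' with
    | h W0 =>
      rw [hB, ← card_orbit k v hv hk0 hco W0]
      apply Fintype.card_congr
      apply Equiv.subtypeEquivRight
      intro W
      rw [Quotient.eq'']
      exact MulAction.orbitRel_apply
  have hsum : Fintype.card (GrT F E k) = Fintype.card Ω * B := by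
    have : Fintype.card (GrT F E k)
        = ∑ ω : Ω, Fintype.card {W : GrT F E k // Quotient.mk'' W = ω} := by
      rw [← Fintype.card_sigma]
      exact Fintype.card_congr (Equiv.sigmaFiberEquiv _).symm
    rw [this, Finset.sum_congr rfl (fun ω _ => horb ω), Finset.sum_const, Finset.card_univ]
    rfl
  have hΩ : Even (Fintype.card Ω) := by
    rw [hsum, Nat.even_mul] at heven'
    rcases heven' with h | h
    · exact h
    · exact absurd h (Nat.not_even_iff_odd.2 (odd_geom _ _ hodd))
  obtain ⟨σ, hσ1, hσ2⟩ := exists_balanced Ω hΩ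
  let f : Submodule F E → ℤ := fun W => if hW : finrank F W = k then
    σ (Quotient.mk'' (⟨W, hW⟩ : GrT F E k)) else 0
  have finv : ∀ (u : Eˣ) (W : Submodule F E), f (tw u W) = f W := by
    intro u W
    by_cases hW : finrank F W = k
    · have hW' : finrank F (tw u W) = k := by rw [finrank_tw]; exact hW
      show (if h : finrank F (tw u W) = k then σ (Quotient.mk'' (⟨tw u W, h⟩ : GrT F E k)) else 0)
        = (if h : finrank F W = k then σ (Quotient.mk'' (⟨W, h⟩ : GrT F E k)) else 0)
      rw [dif_pos hW, dif_pos hW']
      congr 1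
      exact Quotient.sound' ⟨u, rfl⟩
    · have hW' : ¬ finrank F (tw u W) = k := by rw [finrank_tw]; exact hW
      show (if h : finrank F (tw u W) = k then σ (Quotient.mk'' (⟨tw u W, h⟩ : GrT F E k)) else 0)
        = (if h : finrank F W = k then σ (Quotient.mk'' (⟨W, h⟩ : GrT F E k)) else 0)
      rw [dif_neg hW, dif_neg hW']
  have ftot : ∑ W : Submodule F E, f W = 0 := by
    have e1 : ∑ W : Submodule F E, f W = ∑ W : GrT F E k, σ (Quotient.mk'' W) := by
      rw [← Finset.sum_subset (Finset.subset_univ (Finset.univ.filter (fun W : Submodule F E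
        => finrank F W = k)))]
      · symm
        apply Finset.sum_bij (fun (a : GrT F E k) _ => a.1)
        · intro a _; simp [a.2]
        · intro a _ b _ hab; exact Subtype.ext hab
        · intro W hW
          rw [Finset.mem_filter] at hW
          exact ⟨⟨W, hW.2⟩, Finset.mem_univ _, rfl⟩
        · intro a _
          show _ = (if h : finrank F a.1 = k then σ (Quotient.mk'' (⟨a.1, h⟩ : GrT F E k)) else 0)
          rw [dif_pos a.2]
          rfl
      · intro W _ hW
        rw [Finset.mem_filter, not_and] at hW
        show (if h : finrank F W = k then σ (Quotient.mk'' (⟨W, h⟩ : GrT F E k)) else 0) = 0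
        rw [dif_neg (hW (Finset.mem_univ _))]
    rw [e1]
    have e2 : ∑ W : GrT F E k, σ (Quotient.mk'' W)
        = ∑ ω : Ω, ∑ W : {W : GrT F E k // Quotient.mk'' W = ω}, σ (Quotient.mk'' W.1) := by
      rw [← Fintype.sum_sigma']
      apply (Fintype.sum_equiv (Equiv.sigmaFiberEquiv
        (fun W : GrT F E k => (Quotient.mk'' W : Ω))) _ _ _).symm
      rintro ⟨ω, W⟩
      rfl
    rw [e2]
    have e3 : ∀ ω : Ω, ∑ W : {W : GrT F E k // Quotient.mk'' W = ω}, σ (Quotient.mk'' W.1)
        = (B : ℤ) * σ ω := by
      intro ω
      rw [Finset.sum_congr rfl (fun W _ => by rw [W.2]), Finset.sum_const, Finset.card_univ,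
        horb ω, nsmul_eq_mul]
    rw [Finset.sum_congr rfl (fun ω _ => e3 ω), ← Finset.mul_sum, hσ2, mul_zero]
  refine ⟨f, ?_, ?_, ?_⟩
  · intro W hW
    have hW' : finrank F W = k := hW
    show (if h : finrank F W = k then σ (Quotient.mk'' (⟨W, h⟩ : GrT F E k)) else 0) = 1 ∨
      (if h : finrank F W = k then σ (Quotient.mk'' (⟨W, h⟩ : GrT F E k)) else 0) = -1
    rw [dif_pos hW']
    exact hσ1 _
  · intro W hW
    have hW' : ¬ finrank F W = k := hW
    show (if h : finrank F W = k then σ (Quotient.mk'' (⟨W, h⟩ : GrT F E k)) else 0) = 0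
    rw [dif_neg hW']
  · -- nullity
    haveI : Fintype E := Fintype.ofFinite E
    let S : E → ℤ := fun x => ∑ W : Submodule F E, if x ∈ W then f W else 0
    have hS : ∀ x y : E, x ≠ 0 → y ≠ 0 → S x = S y := by
      intro x y hx hy
      -- multiply by `y / x`
      let u : Eˣ := Units.mk0 (y / x) (div_ne_zero hy hx)
      let e : Submodule F E ≃ Submodule F E :=
        { toFun := tw u
          invFun := tw u⁻¹
          left_inv := fun W => by rw [← tw_mul, inv_mul_cancel, tw_one]
          right_inv := fun W => by rw [← tw_mul, mul_inv_cancel, tw_one] }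
      apply Fintype.sum_equiv e
      intro W
      have h1 : y ∈ e W ↔ x ∈ W := by
        show y ∈ tw u W ↔ x ∈ W
        rw [mem_tw]
        have : ((u⁻¹ : Eˣ) : E) * y = x := by
          rw [Units.val_inv_eq_inv_val]
          show (y / x)⁻¹ * y = x
          field_simp
        rw [this]
      have h2 : f (e W) = f W := finv u W
      rw [h2]
      by_cases h : x ∈ W
      · rw [if_pos h, if_pos (h1.2 h)]
      · rw [if_neg h, if_neg (fun h' => h (h1.1 h'))]
    have hS0 : S 0 = 0 := by
      show (∑ W : Submodule F E, if (0 : E) ∈ W then f W else 0) = 0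
      refine Eq.trans ?_ ftot
      apply Finset.sum_congr rfl
      intro W _
      rw [if_pos W.zero_mem]
    have hSsum : ∑ x : E, S x = 0 := by
      show ∑ x : E, ∑ W : Submodule F E, (if x ∈ W then f W else 0) = 0
      rw [Finset.sum_comm]
      have e1 : ∀ W : Submodule F E, ∑ x : E, (if x ∈ W then f W else 0)
          = (Nat.card F : ℤ) ^ k * f W := by
        intro W
        by_cases hfW : finrank F W = k
        · rw [← Finset.sum_filter, Finset.sum_const]
          have h3 := Module.natCard_eq_pow_finrank (K := F) (V := W)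
          have h4 : (Finset.univ.filter (fun x => x ∈ W)).card = Nat.card W := by
            rw [Nat.card_eq_fintype_card, Fintype.card_subtype]
          rw [h4, h3, hfW, nsmul_eq_mul]
          push_cast
          rfl
        · have : f W = 0 := by
            show (if h : finrank F W = k then σ (Quotient.mk'' (⟨W, h⟩ : GrT F E k)) else 0) = 0
            rw [dif_neg hfW]
          simp [this]
      rw [Finset.sum_congr rfl (fun W _ => e1 W), ← Finset.mul_sum, ftot, mul_zero]
    have hSall : ∀ x : E, S x = 0 := by
      intro x
      by_cases hx : x = 0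
      · rw [hx]; exact hS0
      · have e1 : ∑ y : E, S y = ((Fintype.card E : ℤ) - 1) * S x := by
          rw [← Finset.add_sum_erase Finset.univ S (Finset.mem_univ (0 : E)), hS0, zero_add]
          rw [Finset.sum_congr rfl (fun y hy => hS y x (Finset.ne_of_mem_erase hy) hx)]
          rw [Finset.sum_const, Finset.card_erase_of_mem (Finset.mem_univ _), Finset.card_univ,
            nsmul_eq_mul]
          have : 0 < Fintype.card E := Fintype.card_pos
          push_cast [this]
          rfl
        rw [hSsum] at e1
        have h5 : 1 < Fintype.card E := Fintype.one_lt_card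
        rcases mul_eq_zero.1 e1.symm with h | h
        · omega
        · exact h
    intro T hT
    rcases Nat.lt_or_ge (finrank F T) 1 with h | h
    · have hT' : T = ⊥ := Submodule.finrank_eq_zero.1 (by omega)
      subst hT'
      simp only [bot_le, if_true]
      exact ftot
    · have h1 : finrank F T = 1 := by omega
      obtain ⟨x, hx⟩ : ∃ x : E, T = Submodule.span F {x} := by
        obtain ⟨⟨x, hxT⟩, hx0, hx⟩ := finrank_eq_one_iff'.1 h1
        refine ⟨x, ?_⟩
        apply le_antisymm
        · intro y hy
          obtain ⟨c, hc⟩ := hx ⟨y, hy⟩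
          rw [Submodule.mem_span_singleton]
          exact ⟨c, congrArg Subtype.val hc⟩
        · rw [Submodule.span_singleton_le_iff_mem]
          exact hxT
      refine Eq.trans ?_ (hSall x)
      apply Finset.sum_congr rfl
      intro W _
      rw [hx, Submodule.span_singleton_le_iff_mem]

end Singer

/-- Singer cycle, in coordinates. -/
theorem L.singer {F : Type} [Field F] [Finite F] {k v : ℕ} (hk0 : 0 < k) (hco : Nat.Coprime k v)
    (hodd : Odd v) (heven : Even (g F v k)) : L F 2 k v := by
  obtain ⟨p, hp⟩ := CharP.exists F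
  haveI : Fact p.Prime := ⟨(CharP.char_is_prime F p)⟩
  have hv0 : v ≠ 0 := by rintro rfl; simp at hodd
  haveI : NeZero v := ⟨hv0⟩
  have hfr : finrank F (FiniteField.Extension F p v) = v := FiniteField.finrank_extension F p v
  exact L.ofV hfr (Pool.Agent.H24.LS.singer k v hfr hk0 hco hodd heven)

end Pool.Agent.H24.LS
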