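import Mathlib
import Pool.Agent.H24.LSReduce
import Pool.Agent.H24.LSSinger

set_option autoImplicit false
set_option linter.unusedSectionVars false
set_option linter.unusedVariables false
set_option linter.style.haveILetI false

open Module
open scoped Classical

namespace Pool.Agent.H24.LS

variable {F : Type} [Field F] [Finite F]

section NullDown

variable {V : Type} [AddCommGroup V] [Module F V] [Finite V]

lemma null_down (t k : ℕ) (htk : t ≤ k) (f : Submodule F V → ℤ)
    (hk : ∀ W, f W ≠ 0 → finrank F W = k) (hkV : k ≤ finrank F V)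
    (hf : ∀ T : Submodule F V, finrank F T = t → ∑ W : Submodule F V, (if T ≤ W then f W else 0) = 0) :
    Null (t + 1) f := by
  have main : ∀ c, ∀ T : Submodule F V, finrank F T + c = t →
      ∑ W : Submodule F V, (if T ≤ W then f W else 0) = 0 := by
    intro c
    induction c with
    | zero => intro T hT; exact hf T (by omega)
    | succ c ih =>
      intro T hT
      haveI : Fintype V := Fintype.ofFinite V
      have i2 : ∑ x : V, (if x ∉ T then
          (∑ W : Submodule F V, (if T ⊔ Submodule.span F {x} ≤ W then f W else 0))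
          else 0) = 0 := by
        apply Finset.sum_eq_zero
        intro x _
        by_cases hx : x ∉ T
        · rw [if_pos hx]
          apply ih
          have hx0 : x ≠ 0 := fun h => hx (h ▸ T.zero_mem)
          have hinf : T ⊓ Submodule.span F {x} = ⊥ := by
            rw [eq_bot_iff]
            rintro z ⟨hz1, hz2⟩
            obtain ⟨r, rfl⟩ := Submodule.mem_span_singleton.1 hz2
            by_cases hr : r = 0
            · simp [hr]
            · exfalso
              apply hx
              have := T.smul_mem r⁻¹ hz1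
              rwa [smul_smul, inv_mul_cancel₀ hr, one_smul] at this
          have := Submodule.finrank_sup_add_finrank_inf_eq T (Submodule.span F {x})
          rw [hinf, finrank_bot, finrank_span_singleton hx0] at this
          omega
        · rw [if_neg hx]
      have i3 : (∑ x : V, (if x ∉ T then
          (∑ W : Submodule F V, (if T ⊔ Submodule.span F {x} ≤ W then f W else 0))
          else 0)) = ((Nat.card F : ℤ) ^ k - (Nat.card F : ℤ) ^ (finrank F T)) *
            ∑ W : Submodule F V, (if T ≤ W then f W else 0) := by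
        have e1 : ∀ x : V, (if x ∉ T then
          (∑ W : Submodule F V, (if T ⊔ Submodule.span F {x} ≤ W then f W else 0))
          else 0) = ∑ W : Submodule F V, (if T ≤ W then f W else 0) *
            ((if x ∈ W then 1 else 0) - (if x ∈ T then 1 else 0)) := by
          intro x
          by_cases hx : x ∈ T
          · rw [if_neg (not_not.2 hx)]
            symm
            apply Finset.sum_eq_zero
            intro W _
            by_cases h1 : T ≤ W
            · simp [hx, h1 hx]
            · rw [if_neg h1, zero_mul]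
          · rw [if_pos hx]
            apply Finset.sum_congr rfl
            intro W _
            have : (T ⊔ Submodule.span F {x} ≤ W) ↔ (T ≤ W ∧ x ∈ W) := by
              rw [sup_le_iff, Submodule.span_singleton_le_iff_mem]
            rw [if_neg hx]
            by_cases h1 : T ≤ W <;> by_cases h2 : x ∈ W
            · rw [if_pos (this.2 ⟨h1, h2⟩), if_pos h1, if_pos h2]; ring
            · rw [if_neg (fun h => h2 (this.1 h).2), if_neg h2]; ring
            · rw [if_neg (fun h => h1 (this.1 h).1), if_neg h1]; ring
            · rw [if_neg (fun h => h1 (this.1 h).1), if_neg h1]; ring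
        rw [Finset.sum_congr rfl (fun x _ => e1 x), Finset.sum_comm, Finset.mul_sum]
        apply Finset.sum_congr rfl
        intro W _
        rw [← Finset.mul_sum, Finset.sum_sub_distrib]
        by_cases hfW : f W = 0
        · simp [hfW]
        have hWk := hk W hfW
        have e2 : ∀ U : Submodule F V, (∑ x : V, if x ∈ U then (1 : ℤ) else 0)
            = (Nat.card F : ℤ) ^ (finrank F U) := by
          intro U
          have h3 := Module.natCard_eq_pow_finrank (K := F) (V := U)
          rw [Finset.sum_boole]
          have h4 : (Finset.univ.filter (fun x => x ∈ U)).card = Nat.card U := by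
            rw [Nat.card_eq_fintype_card, Fintype.card_subtype]
          rw [h4, h3]
          push_cast
          rfl
        rw [e2, e2, hWk]
        ring
      rw [i3] at i2
      rcases mul_eq_zero.1 i2 with h | h
      · exfalso
        have h6 : 1 < Nat.card F := Finite.one_lt_card
        have h7 := Nat.pow_lt_pow_right h6 (show finrank F T < k by omega)
        have h8 : (Nat.card F : ℤ) ^ k = (Nat.card F : ℤ) ^ (finrank F T) := by linarith
        have h9 : (Nat.card F) ^ k = (Nat.card F) ^ (finrank F T) := by exact_mod_cast h8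
        omega
      · exact h
  intro T hT
  exact main (t - finrank F T) T (by omega)

end NullDown

lemma ncard_eq_sum {V : Type} [AddCommGroup V] [Module F V] [Finite V]
    (S : Set (Submodule F V)) :
    (Set.ncard S : ℤ) = ∑ W : Submodule F V, if W ∈ S then 1 else 0 := by
  rw [Finset.sum_boole, Set.ncard_eq_toFinset_card']
  congr 1
  apply congrArg
  ext W
  simp

/-- A halving of the `k`-subspaces of `F^v` for `t`-subspaces. -/
def HalvProp (F : Type) [Field F] (t k v : ℕ) : Prop :=
  ∃ D : Set (Submodule F (Fin v → F)), (∀ W ∈ D, finrank F W = k) ∧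
    ∀ T : Submodule F (Fin v → F), finrank F T = t →
      2 * Set.ncard {W : Submodule F (Fin v → F) | W ∈ D ∧ T ≤ W} =
        Set.ncard {W : Submodule F (Fin v → F) | finrank F W = k ∧ T ≤ W}

theorem L_iff {t k v : ℕ} (htk : t ≤ k) (hkv : k ≤ v) : L F (t + 1) k v ↔ HalvProp F t k v := by
  constructor
  · rintro ⟨f, h1, h2, h3⟩
    refine ⟨{W | f W = 1}, ?_, ?_⟩
    · intro W hW
      by_contra h
      have h4 := h2 W h
      have h5 : f W = 1 := hW
      omega
    · intro T hT
      have h4 := h3 T (by omega)
      have e1 := ncard_eq_sum {W : Submodule F (Fin v → F) | W ∈ {W | f W = 1} ∧ T ≤ W}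
      have e2 := ncard_eq_sum {W : Submodule F (Fin v → F) | finrank F W = k ∧ T ≤ W}
      have : (2 : ℤ) * Set.ncard {W : Submodule F (Fin v → F) | W ∈ {W | f W = 1} ∧ T ≤ W}
          = Set.ncard {W : Submodule F (Fin v → F) | finrank F W = k ∧ T ≤ W} := by
        rw [e1, e2, Finset.mul_sum, ← sub_eq_zero, ← Finset.sum_sub_distrib]
        refine Eq.trans ?_ h4
        apply Finset.sum_congr rfl
        intro W _
        simp only [Set.mem_ofPred_eq]
        by_cases hT' : T ≤ W
        · by_cases hW : finrank F W = k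
          · rcases h1 W hW with h | h <;> simp [hT', hW, h]
          · have h5 : f W = 0 := h2 W hW
            simp [hT', hW, h5]
        · simp [hT']
      exact_mod_cast this
  · rintro ⟨D, hD1, hD2⟩
    refine ⟨fun W => if finrank F W = k then (if W ∈ D then 1 else -1) else 0, ?_, ?_, ?_⟩
    · intro W hW
      have hW' : finrank F W = k := hW
      by_cases h : W ∈ D <;> simp [hW', h]
    · intro W hW
      have hW' : ¬ finrank F W = k := hW
      simp [hW']
    · apply null_down t k htk
      · intro W hW
        by_contra h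
        simp [h] at hW
      · rw [finrank_fin_fun]; exact hkv
      · intro T hT
        have h4 := hD2 T hT
        have e1 := ncard_eq_sum {W : Submodule F (Fin v → F) | W ∈ D ∧ T ≤ W}
        have e2 := ncard_eq_sum {W : Submodule F (Fin v → F) | finrank F W = k ∧ T ≤ W}
        have h5 : (2 : ℤ) * Set.ncard {W : Submodule F (Fin v → F) | W ∈ D ∧ T ≤ W}
          = Set.ncard {W : Submodule F (Fin v → F) | finrank F W = k ∧ T ≤ W} := by
          exact_mod_cast h4
        rw [e1, e2, Finset.mul_sum, ← sub_eq_zero, ← Finset.sum_sub_distrib] at h5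
        refine Eq.trans ?_ h5
        apply Finset.sum_congr rfl
        intro W _
        simp only [Set.mem_ofPred_eq]
        by_cases hT' : T ≤ W
        · by_cases hWD : W ∈ D
          · have := hD1 W hWD
            simp [hT', hWD, this]
          · by_cases hW : finrank F W = k
            · simp [hT', hWD, hW]
            · simp [hT', hWD, hW]
        · simp [hT']

/-- The number of `k`-subspaces through an `i`-subspace. -/
lemma ncard_through {v k i : ℕ} (hik : i ≤ k) (S : Submodule F (Fin v → F)) (hS : finrank F S = i) :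
    (Set.ncard {W : Submodule F (Fin v → F) | finrank F W = k ∧ S ≤ W} : ℤ) = g F (v - i) (k - i) := by
  have hq : finrank F ((Fin v → F) ⧸ S) = v - i := finrank_quot (by simp) S hS
  rw [← cnt_eq_g hq]
  unfold cnt
  rw [ncard_eq_sum]
  have hdim : ∀ U : Submodule F ((Fin v → F) ⧸ S), finrank F (U.comap S.mkQ) = finrank F U + i := by
    intro U
    have h := LinearMap.finrank_range_add_finrank_ker (S.mkQ.domRestrict (U.comap S.mkQ))
    rw [LinearMap.range_domRestrict, LinearMap.ker_domRestrict, Submodule.ker_mkQ,
      Submodule.map_comap_eq_of_surjective S.mkQ_surjective] at h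
    have e2 := (Submodule.equivMapOfInjective (U.comap S.mkQ).subtype
      (U.comap S.mkQ).subtype_injective (S.comap (U.comap S.mkQ).subtype)).finrank_eq
    rw [Submodule.map_comap_subtype] at e2
    have hPle : S ≤ U.comap S.mkQ := by
      intro x hx
      rw [Submodule.mem_comap]
      have : S.mkQ x = 0 := by simpa using hx
      rw [this]
      exact U.zero_mem
    rw [inf_eq_right.2 hPle] at e2
    omega
  refine Eq.trans (b := ∑ W : Submodule F (Fin v → F),
    if (finrank F W = k ∧ S ≤ W) then (1 : ℤ) else 0) (Finset.sum_congr rfl (fun W _ => ?_)) ?_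
  · by_cases h : finrank F W = k ∧ S ≤ W
    · rw [if_pos h]; exact if_pos h
    · rw [if_neg h]; exact if_neg h
  symm
  rw [← Finset.sum_filter, ← Finset.sum_filter]
  apply Finset.sum_bij (fun (U : Submodule F ((Fin v → F) ⧸ S)) _ => U.comap S.mkQ)
  · intro U hU
    rw [Finset.mem_filter] at hU ⊢
    refine ⟨Finset.mem_univ _, ?_, ?_⟩
    · rw [hdim]; omega
    · intro x hx
      rw [Submodule.mem_comap]
      have : S.mkQ x = 0 := by simpa using hx
      rw [this]
      exact U.zero_mem
  · intro U1 _ U2 _ hUU
    exact Submodule.comap_injective_of_surjective S.mkQ_surjective hUU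
  · intro W hW
    rw [Finset.mem_filter] at hW
    obtain ⟨_, hW1, hW2⟩ := hW
    have hback : (W.map S.mkQ).comap S.mkQ = W := by
      rw [Submodule.comap_map_eq, Submodule.ker_mkQ, sup_eq_left.2 hW2]
    refine ⟨W.map S.mkQ, ?_, hback⟩
    rw [Finset.mem_filter]
    refine ⟨Finset.mem_univ _, ?_⟩
    have := hdim (W.map S.mkQ)
    rw [hback] at this
    omega
  · intro U _
    rfl

lemma exists_mod_of_choose_even : ∀ k v : ℕ, Even (v.choose k) → ∃ l, v % 2 ^ l < k % 2 ^ l := by
  intro k
  induction k using Nat.strong_induction_on with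
  | _ k ih =>
    intro v hv
    haveI : Fact (Nat.Prime 2) := ⟨Nat.prime_two⟩
    have hl : v.choose k % 2 = ((v % 2).choose (k % 2) * (v / 2).choose (k / 2)) % 2 :=
      Choose.choose_modEq_choose_mod_mul_choose_div_nat (p := 2) (n := v) (k := k)
    rw [Nat.even_iff, hl, ← Nat.even_iff, Nat.even_mul] at hv
    rcases hv with h | h
    · refine ⟨1, ?_⟩
      rw [pow_one]
      by_contra hcon
      push Not at hcon
      have h1 : v % 2 = 0 ∨ v % 2 = 1 := by omega
      have h2 : k % 2 = 0 ∨ k % 2 = 1 := by omega
      rcases h1 with h1 | h1 <;> rcases h2 with h2 | h2 <;> rw [h1, h2] at h hcon <;>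
        first | omega | (simp at h)
    · have hk0 : k ≠ 0 := by
        rintro rfl
        simp at h
      obtain ⟨l, hl⟩ := ih (k / 2) (by omega) (v / 2) h
      refine ⟨l + 1, ?_⟩
      have hn : v % 2 ^ (l + 1) = v % 2 + 2 * (v / 2 % 2 ^ l) := by
        rw [pow_succ', Nat.mod_mul]
      have hk : k % 2 ^ (l + 1) = k % 2 + 2 * (k / 2 % 2 ^ l) := by
        rw [pow_succ', Nat.mod_mul]
      rw [hn, hk]
      omega

/-- Kummer-type criterion for admissibility. -/
lemma exists_level (t : ℕ) : ∀ v k : ℕ, t < k → k ≤ v →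
    (∀ i, i ≤ t → Even ((v - i).choose (k - i))) → ∃ l, t ≤ v % 2 ^ l ∧ v % 2 ^ l < k % 2 ^ l := by
  induction t with
  | zero =>
    intro v k _ _ h
    obtain ⟨l, hl⟩ := exists_mod_of_choose_even k v (by simpa using h 0 le_rfl)
    exact ⟨l, Nat.zero_le _, hl⟩
  | succ t ih =>
    intro v k htk hkv h
    obtain ⟨l1, a1, a2⟩ := ih v k (by omega) hkv (fun i hi => h i (by omega))
    by_cases ha : t + 1 ≤ v % 2 ^ l1
    · exact ⟨l1, ha, a2⟩
    have hv1 : v % 2 ^ l1 = t := by omega
    obtain ⟨l2, b1, b2⟩ := ih (v - 1) (k - 1) (by omega) (by omega) (fun i hi => by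
      have := h (i + 1) (by omega)
      have e1 : v - 1 - i = v - (i + 1) := by omega
      have e2 : k - 1 - i = k - (i + 1) := by omega
      rw [e1, e2]
      exact this)
    have hp2 : 0 < 2 ^ l2 := pow_pos (by norm_num) l2
    have hlt2 := Nat.mod_lt (k - 1) hp2
    have hv2 : v % 2 ^ l2 = (v - 1) % 2 ^ l2 + 1 := by
      have h1 := Nat.div_add_mod (v - 1) (2 ^ l2)
      have e : v = 2 ^ l2 * ((v - 1) / 2 ^ l2) + ((v - 1) % 2 ^ l2 + 1) := by omega
      conv_lhs => rw [e]
      rw [Nat.mul_add_mod, Nat.mod_eq_of_lt (by omega)]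
    by_cases hk0 : k % 2 ^ l2 = 0
    · exfalso
      -- then `l1 > l2`
      have hll : l2 < l1 := by
        by_contra hcon
        push Not at hcon
        have hdvd : 2 ^ l1 ∣ 2 ^ l2 := pow_dvd_pow 2 hcon
        have : k % 2 ^ l1 = 0 := Nat.mod_eq_zero_of_dvd (hdvd.trans (Nat.dvd_of_mod_eq_zero hk0))
        omega
      have hdvd : 2 ^ l2 ∣ 2 ^ l1 := pow_dvd_pow 2 hll.le
      have h3 : v % 2 ^ l1 % 2 ^ l2 = v % 2 ^ l2 := Nat.mod_mod_of_dvd v hdvd
      rw [hv1] at h3
      have h4 : t % 2 ^ l2 ≤ t := Nat.mod_le _ _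
      omega
    · have hk2 : k % 2 ^ l2 = (k - 1) % 2 ^ l2 + 1 := by
        have := succ_mod (k - 1) (2 ^ l2) hp2 (by
          have : k - 1 + 1 = k := by omega
          rw [this]; exact hk0)
        have e : k - 1 + 1 = k := by omega
        rw [e] at this
        exact this
      exact ⟨l2, by omega, by omega⟩

/-- Admissibility of a halving: every `i`-subspace, `i ≤ t`, lies in an even number of
`k`-subspaces. -/
def Adm (F : Type) [Field F] (t k v : ℕ) : Prop :=
  ∀ i : ℕ, i ≤ t → ∀ S : Submodule F (Fin v → F), finrank F S = i →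
    Even (Set.ncard {W : Submodule F (Fin v → F) | finrank F W = k ∧ S ≤ W})

lemma adm_level {t k v : ℕ} (htk : t < k) (hkv : k ≤ v) (h : Adm F t k v) :
    Odd (Nat.card F) ∧ ∃ l, t ≤ v % 2 ^ l ∧ v % 2 ^ l < k % 2 ^ l := by
  have hn : finrank F (Fin v → F) = v := by simp
  have hg : ∀ i, i ≤ t → Even (g F (v - i) (k - i)) := by
    intro i hi
    obtain ⟨A, hA1, hA2⟩ := exists_flag (F := F) v hn
    have := h i hi (A i) (hA2 i (by omega))
    rw [← ncard_through (by omega) (A i) (hA2 i (by omega))]
    exact_mod_cast this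
  have hq : Odd (Nat.card F) := by
    rcases Nat.even_or_odd (Nat.card F) with he | ho
    · exfalso
      have h1 := g_odd_of_even he v k hkv
      have h2 := hg 0 (Nat.zero_le _)
      rw [Nat.sub_zero, Nat.sub_zero] at h2
      exact (Int.not_even_iff_odd.2 h1) h2
    · exact ho
  refine ⟨hq, exists_level t v k htk hkv ?_⟩
  intro i hi
  rw [← g_even_iff hq]
  exact hg i hi

/-- The case `t = 1`, all finite fields. -/
theorem one_complete (F : Type) [Field F] [Finite F] (k v : ℕ) (hk : 1 < k) (hkv : k ≤ v)
    (h : Adm F 1 k v) : HalvProp F 1 k v := by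
  obtain ⟨hq, l, h1, h2⟩ := adm_level hk hkv h
  rw [← L_iff hk.le hkv]
  refine reduce hq 1 ?_ v k l h1 h2
  intro n j hj hn
  have hj0 : j = 0 := by omega
  subst hj0
  rw [add_zero] at hn ⊢
  have hn0 : n ≠ 0 := by
    rintro rfl
    simp at hn
  apply L.singer (pow_pos (by norm_num) n)
  · rw [Nat.coprime_iff_gcd_eq_one]
    have : 2 ^ (n + 1) + 1 = 1 + 2 ^ n * 2 := by ring
    rw [this, Nat.gcd_add_mul_left_right, Nat.gcd_one_right]
  · have : 2 ^ (n + 1) + 1 = 2 * 2 ^ n + 1 := by ring
    rw [this]
    exact odd_two_mul_add_one _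
  · rw [g_even_iff hq]
    apply choose_even_of_mod (n + 1)
    have hp : 2 ^ n < 2 ^ (n + 1) := Nat.pow_lt_pow_right (by norm_num) (by omega)
    have hp1 : 1 < 2 ^ (n + 1) := lt_trans hn hp
    rw [Nat.add_mod_left, Nat.mod_eq_of_lt hp1, Nat.mod_eq_of_lt hp]
    exact hn

/-- The reduction to root cases. -/
theorem roots_suffice (F : Type) [Field F] [Finite F] (t : ℕ)
    (hroot : ∀ n j : ℕ, 2 * j ≤ t → t < 2 ^ n + j →
      Adm F t (2 ^ n + j) (2 ^ (n + 1) + t) → HalvProp F t (2 ^ n + j) (2 ^ (n + 1) + t)) :
    ∀ k v : ℕ, t < k → k ≤ v → Adm F t k v → HalvProp F t k v := by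
  intro k v htk hkv h
  obtain ⟨hq, l, h1, h2⟩ := adm_level htk hkv h
  rw [← L_iff htk.le hkv]
  refine reduce hq t ?_ v k l h1 h2
  intro n j hj hn
  rw [L_iff hn.le (by omega)]
  apply hroot n j hj hn
  -- the root case is admissible
  intro i hi S hS
  have h3 := ncard_through (F := F) (v := 2 ^ (n + 1) + t) (k := 2 ^ n + j) (by omega) S hS
  have hpow : 2 ^ (n + 1) = 2 * 2 ^ n := pow_succ' 2 n
  have h4 : Even (g F (2 ^ (n + 1) + t - i) (2 ^ n + j - i)) := by
    rw [g_even_iff hq]
    apply choose_even_of_mod (n + 1)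
    have e1 : 2 ^ (n + 1) + t - i = 2 ^ (n + 1) + (t - i) := by omega
    rw [e1, Nat.add_mod_left, Nat.mod_eq_of_lt (by omega), Nat.mod_eq_of_lt (by omega)]
    omega
  rw [← h3] at h4
  exact_mod_cast h4

end Pool.Agent.H24.LS
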