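import Mathlib

open Finset Polynomial

namespace Pool.Agent.H24.BellRec

variable {α : Type*} [DecidableEq α]

/-- Splitting off the block that contains `a`. -/
lemma sum_finpartition_insert {M : Type*} [AddCommMonoid M] {a : α} {s : Finset α} (ha : a ∉ s)
    (F : Finset (Finset α) → M) :
    ∑ π : Finpartition (insert a s), F π.parts =
      ∑ t ∈ s.powerset, ∑ ρ : Finpartition (s \ t), F (insert (insert a t) ρ.parts) := by
  classical
  rw [Finset.sum_sigma']
  symm
  have key : ∀ x : (Σ t : Finset α, Finpartition (s \ t)), x.1 ⊆ s →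
      (Disjoint (s \ x.1) (insert a x.1)) ∧ (s \ x.1) ⊔ (insert a x.1) = insert a s := by
    rintro ⟨t, ρ⟩ ht
    refine ⟨?_, ?_⟩
    · rw [Finset.disjoint_left]
      intro y hy hy'
      simp only [Finset.mem_sdiff, Finset.mem_insert] at hy hy'
      rcases hy' with rfl | h
      · exact ha hy.1
      · exact hy.2 h
    · ext y
      simp only [Finset.sup_eq_union, Finset.mem_union, Finset.mem_sdiff, Finset.mem_insert]
      constructor
      · rintro (h | rfl | h)
        · exact Or.inr h.1
        · exact Or.inl rfl
        · exact Or.inr (ht h)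
      · rintro (rfl | h)
        · exact Or.inr (Or.inl rfl)
        · by_cases hy : y ∈ t
          · exact Or.inr (Or.inr hy)
          · exact Or.inl ⟨h, hy⟩
  refine Finset.sum_bij
    (fun x hx => x.2.extend (b := insert a x.1) (by simp)
      (key x (by simpa using (Finset.mem_sigma.mp hx).1)).1
      (key x (by simpa using (Finset.mem_sigma.mp hx).1)).2) ?_ ?_ ?_ ?_
  · intro x hx
    exact Finset.mem_univ _
  · rintro ⟨t, ρ⟩ hx ⟨t', ρ'⟩ hx' h
    have hp := congrArg Finpartition.parts h
    simp only [Finpartition.extend_parts] at hp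
    have hs : t ⊆ s := by simpa using (Finset.mem_sigma.mp hx).1
    have hs' : t' ⊆ s := by simpa using (Finset.mem_sigma.mp hx').1
    have hat : ∀ u ∈ ρ.parts, a ∉ u := by
      intro u hu hau
      have := ρ.le hu hau
      simp only [Finset.mem_sdiff] at this
      exact ha this.1
    have hat' : ∀ u ∈ ρ'.parts, a ∉ u := by
      intro u hu hau
      have := ρ'.le hu hau
      simp only [Finset.mem_sdiff] at this
      exact ha this.1
    have htt : insert a t = insert a t' := by
      have h1 : insert a t ∈ insert (insert a t') ρ'.parts := by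
        rw [← hp]; exact Finset.mem_insert_self _ _
      rcases Finset.mem_insert.mp h1 with h2 | h2
      · exact h2
      · exact absurd (Finset.mem_insert_self a t) (hat' _ h2)
    have ht : t = t' := by
      have h1 : a ∉ t := fun h => ha (hs h)
      have h2 : a ∉ t' := fun h => ha (hs' h)
      rw [← Finset.erase_insert h1, htt, Finset.erase_insert h2]
    subst ht
    have hρ : ρ = ρ' := by
      ext1
      have h1 : insert a t ∉ ρ.parts := fun h => hat _ h (Finset.mem_insert_self a t)
      have h2 : insert a t ∉ ρ'.parts := fun h => hat' _ h (Finset.mem_insert_self a t)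
      rw [← Finset.erase_insert h1, hp, Finset.erase_insert h2]
    subst hρ
    rfl
  · intro π _
    set B := π.part a with hB
    have haS : a ∈ insert a s := Finset.mem_insert_self a s
    have hBm : B ∈ π.parts := by rw [hB]; exact π.part_mem.mpr haS
    have haB : a ∈ B := by
      rw [hB]; exact π.mem_part haS
    have hBs : B ⊆ insert a s := π.le hBm
    have hts : B.erase a ⊆ s := by
      intro y hy
      rw [Finset.mem_erase] at hy
      rcases Finset.mem_insert.mp (hBs hy.2) with h | h
      · exact absurd h hy.1
      · exact h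
    have hsup : (π.parts.erase B).sup id = s \ B.erase a := by
      ext y
      simp only [Finset.mem_sup, Finset.mem_erase, id, Finset.mem_sdiff]
      constructor
      · rintro ⟨u, ⟨huB, hu⟩, hy⟩
        have hyB : y ∉ B := fun h => huB (π.eq_of_mem_parts hu hBm hy h)
        have hyS := π.le hu hy
        rcases Finset.mem_insert.mp hyS with rfl | h
        · exact absurd haB hyB
        · exact ⟨h, fun h' => hyB h'.2⟩
      · rintro ⟨hys, hyB⟩
        have hya : y ≠ a := fun h => ha (h ▸ hys)
        obtain ⟨u, hu, hyu⟩ := π.exists_mem (Finset.mem_insert_of_mem hys : y ∈ insert a s)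
        refine ⟨u, ⟨?_, hu⟩, hyu⟩
        rintro rfl
        exact hyB ⟨hya, hyu⟩
    refine ⟨⟨B.erase a, π.ofSubset (Finset.erase_subset _ _) hsup⟩, ?_, ?_⟩
    · rw [Finset.mem_sigma]
      exact ⟨Finset.mem_powerset.mpr hts, Finset.mem_univ _⟩
    · ext1
      simp only [Finpartition.extend_parts, Finpartition.ofSubset_parts]
      rw [Finset.insert_erase haB, Finset.insert_erase hBm]
  · rintro ⟨t, ρ⟩ hx
    rfl

/-- Generating polynomial of the partitions of `s` with all blocks of size at most `m`. -/
noncomputable def P (m : ℕ) (s : Finset α) : ℝ[X] :=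
  ∑ π : Finpartition s, if ∀ b ∈ π.parts, b.card ≤ m then (X : ℝ[X]) ^ π.parts.card else 0

/-- The polynomials defined by the recursion. -/
noncomputable def Q (m : ℕ) : ℕ → ℝ[X]
  | 0 => 1
  | n + 1 => X * ∑ j : Fin (n + 1), if (j : ℕ) < m then (n.choose j : ℝ[X]) * Q m (n - j) else 0
termination_by n => n
decreasing_by omega

lemma P_empty (m : ℕ) : P m (∅ : Finset α) = 1 := by
  classical
  unfold P
  have : Unique (Finpartition (∅ : Finset α)) := inferInstanceAs (Unique (Finpartition (⊥ : Finset α)))
  rw [Fintype.sum_unique]
  have h : (default : Finpartition (∅ : Finset α)).parts = ∅ := by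
    rw [Finpartition.parts_eq_empty_iff]; rfl
  rw [h]; simp

lemma P_insert (m : ℕ) {a : α} {s : Finset α} (ha : a ∉ s) :
    P m (insert a s) = X * ∑ t ∈ s.powerset, if t.card < m then P m (s \ t) else 0 := by
  classical
  unfold P
  rw [sum_finpartition_insert ha
    (fun parts => if ∀ b ∈ parts, b.card ≤ m then (X : ℝ[X]) ^ parts.card else 0), Finset.mul_sum]
  refine Finset.sum_congr rfl fun t ht => ?_
  have hts : t ⊆ s := Finset.mem_powerset.mp ht
  have hat : a ∉ t := fun h => ha (hts h)
  by_cases hc : t.card < m
  · rw [if_pos hc, Finset.mul_sum]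
    refine Finset.sum_congr rfl fun ρ _ => ?_
    have hno : insert a t ∉ ρ.parts := by
      intro h
      have := ρ.le h (Finset.mem_insert_self a t)
      simp only [Finset.mem_sdiff] at this
      exact ha this.1
    have hiff : (∀ b ∈ insert (insert a t) ρ.parts, b.card ≤ m) ↔ ∀ b ∈ ρ.parts, b.card ≤ m := by
      simp only [Finset.mem_insert, forall_eq_or_imp, Finset.card_insert_of_notMem hat]
      exact ⟨fun h => h.2, fun h => ⟨hc, h⟩⟩
    rw [Finset.card_insert_of_notMem hno]
    by_cases hb : ∀ b ∈ ρ.parts, b.card ≤ m
    · rw [if_pos (hiff.mpr hb), if_pos hb, pow_succ, mul_comm]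
    · rw [if_neg (fun h => hb (hiff.mp h)), if_neg hb, mul_zero]
  · rw [if_neg hc, mul_zero]
    refine Finset.sum_eq_zero fun ρ _ => ?_
    rw [if_neg]
    intro h
    have := h (insert a t) (Finset.mem_insert_self _ _)
    rw [Finset.card_insert_of_notMem hat] at this
    omega

lemma P_eq_Q (m : ℕ) : ∀ (n : ℕ) (s : Finset α), s.card = n → P m s = Q m n := by
  classical
  intro n
  induction n using Nat.strong_induction_on with
  | _ n ih =>
    intro s hs
    rcases n with _ | n
    · rw [Finset.card_eq_zero.mp hs, P_empty, Q]
    · obtain ⟨a, s', ha, rfl, hs'⟩ := Finset.card_eq_succ.mp hs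
      rw [P_insert m ha, Q]
      congr 1
      have h1 : ∑ t ∈ s'.powerset, (if t.card < m then P m (s' \ t) else 0) =
          ∑ t ∈ s'.powerset, (if t.card < m then Q m (n - t.card) else 0) := by
        refine Finset.sum_congr rfl fun t ht => ?_
        split_ifs with hc
        · have hts : t ⊆ s' := Finset.mem_powerset.mp ht
          apply ih (n - t.card) (by omega)
          rw [Finset.card_sdiff_of_subset hts, hs']
        · rfl
      rw [h1, Finset.sum_powerset_apply_card (fun j => if j < m then Q m (n - j) else 0), hs',
        Finset.sum_range]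
      refine Finset.sum_congr rfl fun j _ => ?_
      split_ifs with hc
      · rw [nsmul_eq_mul]
      · rw [smul_zero]

end Pool.Agent.H24.BellRec
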