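import Mathlib
import Pool.Agent.H24.BellRec

set_option linter.unusedSimpArgs false

open Finset Polynomial

namespace Pool.Agent.H24.BellEval

open Pool.Agent.H24.BellRec

/-- Laguerre's inequality for real-rooted real polynomials. -/
lemma laguerre (p : ℝ[X]) (h : ∀ z : ℂ, aeval z p = 0 → z.im = 0) (x : ℝ) :
    0 ≤ (p.derivative.eval x) ^ 2 - p.eval x * p.derivative.derivative.eval x := by
  induction hd : p.natDegree using Nat.strong_induction_on generalizing p with
  | _ d ih =>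
    subst hd
    by_cases h0 : p.natDegree = 0
    · rw [Polynomial.natDegree_eq_zero] at h0
      obtain ⟨c, rfl⟩ := h0
      simp
    · have hdeg : 0 < p.degree := by
        rw [← Polynomial.natDegree_pos_iff_degree_pos]; omega
      have hdeg' : (p.map (algebraMap ℝ ℂ)).degree ≠ 0 := by
        rw [Polynomial.degree_map]; exact hdeg.ne'
      obtain ⟨z, hz⟩ := IsAlgClosed.exists_root (p.map (algebraMap ℝ ℂ)) hdeg'
      have hz' : aeval z p = 0 := by
        rw [Polynomial.IsRoot.def, Polynomial.eval_map_algebraMap] at hz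
        exact hz
      have him := h z hz'
      obtain ⟨r, rfl⟩ : ∃ r : ℝ, z = (r : ℂ) := ⟨z.re, by
        apply Complex.ext <;> simp [him]⟩
      have hr : p.eval r = 0 := by
        have h1 : aeval ((r : ℝ) : ℂ) p = ((p.eval r : ℝ) : ℂ) := by
          have := Polynomial.aeval_algebraMap_apply ℂ r p
          simpa using this
        rw [h1] at hz'
        exact_mod_cast hz'
      obtain ⟨q, hq⟩ := Polynomial.dvd_iff_isRoot.mpr hr
      have hq0 : q ≠ 0 := by
        rintro rfl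
        rw [mul_zero] at hq
        rw [hq] at h0
        exact h0 Polynomial.natDegree_zero
      have hnd : q.natDegree < p.natDegree := by
        rw [hq, Polynomial.natDegree_mul (Polynomial.X_sub_C_ne_zero r) hq0,
          Polynomial.natDegree_X_sub_C]
        omega
      have hq' : ∀ z : ℂ, aeval z q = 0 → z.im = 0 := by
        intro z hz
        apply h z
        rw [hq, map_mul, hz, mul_zero]
      have hL := ih q.natDegree hnd q hq' rfl
      rw [hq]
      simp only [derivative_mul, derivative_sub, derivative_X, derivative_C, sub_zero, one_mul,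
        derivative_add, eval_add, eval_mul, eval_sub, eval_X, eval_C]
      have hsq : 0 ≤ (x - r) ^ 2 *
          ((derivative q).eval x ^ 2 - q.eval x * (derivative (derivative q)).eval x) :=
        mul_nonneg (sq_nonneg _) hL
      nlinarith [sq_nonneg (q.eval x)]

/-- Value, first and second derivative. -/
structure T where
  a : ℤ
  b : ℤ
  c : ℤ

/-- The last five triples. -/
structure St where
  t0 : T
  t1 : T
  t2 : T
  t3 : T
  t4 : T

/-- Linear combination with coefficients `1, c1, c2, c3, c4`. -/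
def lin (c1 c2 c3 c4 x0 x1 x2 x3 x4 : ℤ) : ℤ :=
  x0 + c1 * x1 + c2 * x2 + c3 * x3 + c4 * x4

/-- One step of the recursion at the integer point `x`. -/
def nextT (x c1 c2 c3 c4 : ℤ) (s : St) : T :=
  let s0 := lin c1 c2 c3 c4 s.t0.a s.t1.a s.t2.a s.t3.a s.t4.a
  let s1 := lin c1 c2 c3 c4 s.t0.b s.t1.b s.t2.b s.t3.b s.t4.b
  let s2 := lin c1 c2 c3 c4 s.t0.c s.t1.c s.t2.c s.t3.c s.t4.c
  ⟨x * s0, s0 + x * s1, 2 * s1 + x * s2⟩

/-- Forces evaluation of `z` before continuing. -/
def force {β : Type} (z : ℤ) (k : ℤ → β) : β :=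
  match z with
  | Int.ofNat n => if Nat.beq n 0 then k 0 else k (Int.ofNat n)
  | Int.negSucc n => if Nat.beq n 0 then k (Int.negSucc 0) else k (Int.negSucc n)

lemma force_eq {β : Type} (z : ℤ) (k : ℤ → β) : force z k = k z := by
  unfold force
  split
  · split
    · next n h => rw [Nat.eq_of_beq_eq_true h]; rfl
    · rfl
  · split
    · next n h => rw [Nat.eq_of_beq_eq_true h]
    · rfl

def stepF (x : ℤ) (n : ℕ) (s : St) (k : St → Bool) : Bool :=
  force (Int.ofNat n) fun c1 =>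
  force (Int.ofNat (n * (n - 1) / 2)) fun c2 =>
  force (Int.ofNat (n * (n - 1) * (n - 2) / 6)) fun c3 =>
  force (Int.ofNat (n * (n - 1) * (n - 2) * (n - 3) / 24)) fun c4 =>
  force (lin c1 c2 c3 c4 s.t0.a s.t1.a s.t2.a s.t3.a s.t4.a) fun s0 =>
  force (lin c1 c2 c3 c4 s.t0.b s.t1.b s.t2.b s.t3.b s.t4.b) fun s1 =>
  force (lin c1 c2 c3 c4 s.t0.c s.t1.c s.t2.c s.t3.c s.t4.c) fun s2 =>
  force (x * s0) fun u0 =>
  force (s0 + x * s1) fun u1 =>
  force (2 * s1 + x * s2) fun u2 =>
  k ⟨⟨u0, u1, u2⟩, s.t0, s.t1, s.t2, s.t3⟩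

/-- Runs `fuel` steps and then tests. -/
def loop (x : ℤ) : ℕ → ℕ → St → Bool
  | 0, _, s => decide (s.t0.b * s.t0.b - s.t0.a * s.t0.c < 0)
  | fuel + 1, n, s => stepF x n s (loop x fuel (n + 1))

def init : St := ⟨⟨1, 0, 0⟩, ⟨1, 0, 0⟩, ⟨1, 0, 0⟩, ⟨1, 0, 0⟩, ⟨1, 0, 0⟩⟩

theorem check : loop (-1855) 718 0 init = true := by
  decide +kernel

/-- The triple of the `n`-th polynomial at `x`. -/
def IsTriple (x : ℤ) (n : ℕ) (t : T) : Prop :=
  (Q 5 n).eval (x : ℝ) = t.a ∧ (derivative (Q 5 n)).eval (x : ℝ) = t.b ∧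
    (derivative (derivative (Q 5 n))).eval (x : ℝ) = t.c

/-- The state holds the triples of `n, n-1, ..., n-4`. -/
def Good (x : ℤ) (n : ℕ) (s : St) : Prop :=
  IsTriple x n s.t0 ∧ IsTriple x (n - 1) s.t1 ∧ IsTriple x (n - 2) s.t2 ∧
    IsTriple x (n - 3) s.t3 ∧ IsTriple x (n - 4) s.t4

lemma Q_succ (n : ℕ) : Q 5 (n + 1) = X * (Q 5 n + (n : ℝ[X]) * Q 5 (n - 1) +
    (n.choose 2 : ℝ[X]) * Q 5 (n - 2) + (n.choose 3 : ℝ[X]) * Q 5 (n - 3) +
    (n.choose 4 : ℝ[X]) * Q 5 (n - 4)) := by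
  rw [Q]
  congr 1
  have h1 : ∑ j : Fin (n + 1), (if (j : ℕ) < 5 then (n.choose j : ℝ[X]) * Q 5 (n - j) else 0) =
      ∑ j ∈ Finset.range (n + 1), (if j < 5 then (n.choose j : ℝ[X]) * Q 5 (n - j) else 0) :=
    (Finset.sum_range (fun j => if j < 5 then (n.choose j : ℝ[X]) * Q 5 (n - j) else 0)).symm
  have h2 : ∑ j ∈ Finset.range (n + 1), (if j < 5 then (n.choose j : ℝ[X]) * Q 5 (n - j) else 0) =
      ∑ j ∈ Finset.range (n + 1 + 5), (if j < 5 then (n.choose j : ℝ[X]) * Q 5 (n - j) else 0) := by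
    apply Finset.sum_subset
    · intro j hj
      rw [Finset.mem_range] at hj ⊢
      omega
    · intro j _ hj
      rw [Finset.mem_range] at hj
      split_ifs with h5
      · rw [Nat.choose_eq_zero_of_lt (by omega)]; simp
      · rfl
  have h3 : ∑ j ∈ Finset.range (n + 1 + 5),
      (if j < 5 then (n.choose j : ℝ[X]) * Q 5 (n - j) else 0) =
      ∑ j ∈ Finset.range 5, (n.choose j : ℝ[X]) * Q 5 (n - j) := by
    rw [← Finset.sum_filter]
    apply Finset.sum_congr
    · ext j
      simp only [Finset.mem_filter, Finset.mem_range]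
      omega
    · intros; rfl
  rw [h1, h2, h3]
  simp [Finset.sum_range_succ]

lemma choose2 (n : ℕ) : n * (n - 1) / 2 = n.choose 2 := (Nat.choose_two_right n).symm

lemma choose3 (n : ℕ) : n * (n - 1) * (n - 2) / 6 = n.choose 3 := by
  rw [Nat.choose_eq_descFactorial_div_factorial]
  have h : n.descFactorial 3 = n * (n - 1) * (n - 2) := by
    simp [Nat.descFactorial]; ring
  rw [h]; rfl

lemma choose4 (n : ℕ) : n * (n - 1) * (n - 2) * (n - 3) / 24 = n.choose 4 := by
  rw [Nat.choose_eq_descFactorial_div_factorial]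
  have h : n.descFactorial 4 = n * (n - 1) * (n - 2) * (n - 3) := by
    simp [Nat.descFactorial]; ring
  rw [h]; rfl

lemma good_next (x : ℤ) (n : ℕ) (s : St) (h : Good x n s) :
    Good x (n + 1) ⟨nextT x (Int.ofNat n) (Int.ofNat (n.choose 2)) (Int.ofNat (n.choose 3))
      (Int.ofNat (n.choose 4)) s, s.t0, s.t1, s.t2, s.t3⟩ := by
  obtain ⟨⟨a0, b0, c0⟩, ⟨a1, b1, c1⟩, ⟨a2, b2, c2⟩, ⟨a3, b3, c3⟩, ⟨a4, b4, c4⟩⟩ := h
  refine ⟨?_, ?_, ?_, ?_, ?_⟩
  · refine ⟨?_, ?_, ?_⟩
    · rw [Q_succ]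
      simp only [eval_mul, eval_X, eval_add, eval_natCast, a0, a1, a2, a3, a4, nextT, lin]
      push_cast
      simp
    · rw [Q_succ]
      simp only [derivative_mul, derivative_X, derivative_add, derivative_natCast, eval_mul, eval_X,
        eval_add, eval_natCast, a0, a1, a2, a3, a4, b0, b1, b2, b3, b4, nextT, lin, eval_one,
        eval_zero, zero_mul, zero_add, one_mul]
      push_cast
      simp
    · rw [Q_succ]
      simp only [derivative_mul, derivative_X, derivative_add, derivative_natCast, eval_mul, eval_X,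
        eval_add, eval_natCast, a0, a1, a2, a3, a4, b0, b1, b2, b3, b4, c0, c1, c2, c3, c4,
        nextT, lin, eval_one, derivative_one, derivative_zero,
        eval_zero, zero_mul, zero_add, one_mul]
      push_cast
      simp only [Int.ofNat_eq_natCast, Int.cast_natCast]
      ring
  · exact ⟨a0, b0, c0⟩
  · have : n + 1 - 2 = n - 1 := by omega
    rw [this]; exact ⟨a1, b1, c1⟩
  · have : n + 1 - 3 = n - 2 := by omega
    rw [this]; exact ⟨a2, b2, c2⟩
  · have : n + 1 - 4 = n - 3 := by omega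
    rw [this]; exact ⟨a3, b3, c3⟩

lemma stepF_eq (x : ℤ) (n : ℕ) (s : St) (k : St → Bool) :
    stepF x n s k = k ⟨nextT x (Int.ofNat n) (Int.ofNat (n.choose 2)) (Int.ofNat (n.choose 3))
      (Int.ofNat (n.choose 4)) s, s.t0, s.t1, s.t2, s.t3⟩ := by
  simp only [stepF, force_eq, choose2, choose3, choose4, nextT]

lemma loop_spec (x : ℤ) : ∀ (fuel n : ℕ) (s : St), Good x n s → loop x fuel n s = true →
    (derivative (Q 5 (n + fuel))).eval (x : ℝ) ^ 2 -
      (Q 5 (n + fuel)).eval (x : ℝ) * (derivative (derivative (Q 5 (n + fuel)))).eval (x : ℝ) < 0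
  | 0, n, s, hg, hl => by
    simp only [loop, decide_eq_true_eq] at hl
    obtain ⟨⟨a0, b0, c0⟩, -⟩ := hg
    rw [add_zero, a0, b0, c0]
    have : ((s.t0.b * s.t0.b - s.t0.a * s.t0.c : ℤ) : ℝ) < 0 := by exact_mod_cast hl
    push_cast at this
    nlinarith [this]
  | fuel + 1, n, s, hg, hl => by
    rw [loop, stepF_eq] at hl
    have := loop_spec x fuel (n + 1) _ (good_next x n s hg) hl
    rwa [show n + (fuel + 1) = n + 1 + fuel by ring]

lemma good_init (x : ℤ) : Good x 0 init := by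
  have : IsTriple x 0 ⟨1, 0, 0⟩ := by
    refine ⟨?_, ?_, ?_⟩ <;> simp [Q]
  exact ⟨this, this, this, this, this⟩

theorem Q_neg : (derivative (Q 5 718)).eval ((-1855 : ℤ) : ℝ) ^ 2 -
    (Q 5 718).eval ((-1855 : ℤ) : ℝ) *
      (derivative (derivative (Q 5 718))).eval ((-1855 : ℤ) : ℝ) < 0 := by
  have := loop_spec (-1855) 718 0 init (good_init _) check
  simpa using this

theorem exists_nonreal : ∃ z : ℂ, aeval z (Q 5 718) = 0 ∧ z.im ≠ 0 := by
  by_contra hcon
  push Not at hcon
  exact absurd (laguerre (Q 5 718) hcon _) (not_le.mpr Q_neg)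

end Pool.Agent.H24.BellEval
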