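import Mathlib

open SimpleGraph

namespace Pool.Agent.H24.CircuitDefs

/-- A circuit of `G` is a connected 2-regular subgraph. -/
def IsCircuit {V : Type} {G : SimpleGraph V} (H : G.Subgraph) : Prop :=
  H.Connected ∧ ∀ v ∈ H.verts, (H.neighborSet v).ncard = 2

/-- `(G, w)` has a faithful circuit cover: a finite family of circuits of `G`, repetitions
allowed, such that every edge `e` of `G` lies in exactly `w e` members of the family. -/
def HasFaithfulCircuitCover {V : Type} (G : SimpleGraph V) (w : Sym2 V → ℕ) : Prop :=
  ∃ (n : ℕ) (F : Fin n → G.Subgraph), (∀ i, IsCircuit (F i)) ∧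
    ∀ e ∈ G.edgeSet, {i | e ∈ (F i).edgeSet}.ncard = w e

/-- `G` is cubic: every vertex has degree 3. -/
def IsCubic {V : Type} (G : SimpleGraph V) : Prop := ∀ v, (G.neighborSet v).ncard = 3

/-- The weight `w` is eulerian: at every vertex the total weight of the incident edges is even. -/
def IsEulerian {V : Type} (G : SimpleGraph V) (w : Sym2 V → ℕ) : Prop :=
  ∀ v, Even (∑ᶠ e ∈ G.incidenceSet v, w e)

end Pool.Agent.H24.CircuitDefs
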