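import Mathlib
import Pool.Agent.H24.CircuitDefs

open SimpleGraph Pool.Agent.H24.CircuitDefs

namespace Pool.Agent.H24.CircuitProof

/-- First neighbour along an edge of weight 1. -/
def p0 : Fin 18 → Fin 18 := ![4, 2, 1, 14, 3, 7, 9, 5, 6, 7, 2, 10, 0, 15, 16, 17, 11, 12]
/-- Second neighbour along an edge of weight 1. -/
def p1 : Fin 18 → Fin 18 := ![12, 13, 10, 4, 0, 8, 8, 9, 5, 6, 11, 16, 17, 1, 3, 13, 14, 15]
/-- Neighbour along the edge of weight 2. -/
def p2 : Fin 18 → Fin 18 := ![5, 6, 7, 8, 9, 0, 1, 2, 3, 4, 15, 12, 11, 16, 17, 10, 13, 14]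

/-- The graph. -/
def Gr : SimpleGraph (Fin 18) where
  Adj a b := b = p0 a ∨ b = p1 a ∨ b = p2 a
  symm := ⟨by decide⟩
  loopless := ⟨by decide⟩

instance : DecidableRel Gr.Adj := fun a b =>
  inferInstanceAs (Decidable (b = p0 a ∨ b = p1 a ∨ b = p2 a))

/-- The weight. -/
def wt (e : Sym2 (Fin 18)) : ℕ :=
  if e ∈ [s(0, 5), s(1, 6), s(2, 7), s(3, 8), s(4, 9), s(11, 12), s(10, 15), s(16, 13), s(17, 14)]
  then 2 else 1

lemma neighborSet_Gr (v : Fin 18) : Gr.neighborSet v = {p0 v, p1 v, p2 v} := by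
  ext u
  simp [Gr, SimpleGraph.mem_neighborSet]

/-- The local structure of a faithful cover at a vertex of type (1,1,2). -/
lemma local_structure {V : Type} {G : SimpleGraph V} {w : Sym2 V → ℕ} {n : ℕ}
    {F : Fin n → G.Subgraph} (hF : ∀ i, IsCircuit (F i))
    (hc : ∀ e ∈ G.edgeSet, {i | e ∈ (F i).edgeSet}.ncard = w e) {v p q r : V}
    (hN : G.neighborSet v = {p, q, r})
    (hr : w s(v, r) = 2) {i j : Fin n}
    (hi : {k | s(v, p) ∈ (F k).edgeSet} = {i}) (hj : {k | s(v, q) ∈ (F k).edgeSet} = {j}) :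
    i ≠ j ∧ {k | s(v, r) ∈ (F k).edgeSet} = {i, j} := by
  have hvr : s(v, r) ∈ G.edgeSet := by
    rw [SimpleGraph.mem_edgeSet, ← SimpleGraph.mem_neighborSet, hN]; simp
  -- neighbours inside a member
  have hsub : ∀ k, (F k).neighborSet v ⊆ {p, q, r} := by
    intro k u hu
    rw [← hN]
    exact (F k).adj_sub hu
  have htwo : ∀ k, ∀ u, (F k).Adj v u → ((F k).neighborSet v).ncard = 2 := by
    intro k u hu
    exact (hF k).2 v ((F k).edge_vert hu)
  have hpi : ∀ k, (F k).Adj v p ↔ k = i := by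
    intro k
    have : k ∈ ({k | s(v, p) ∈ (F k).edgeSet} : Set (Fin n)) ↔ k ∈ ({i} : Set (Fin n)) := by rw [hi]
    simpa using this
  have hqj : ∀ k, (F k).Adj v q ↔ k = j := by
    intro k
    have : k ∈ ({k | s(v, q) ∈ (F k).edgeSet} : Set (Fin n)) ↔ k ∈ ({j} : Set (Fin n)) := by rw [hj]
    simpa using this
  -- a member through `v r` passes through `p` or `q`
  have hthird : ∀ k, (F k).Adj v r → k = i ∨ k = j := by
    intro k hk
    by_contra hcon
    push Not at hcon
    have h1 : (F k).neighborSet v ⊆ {r} := by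
      intro u hu
      rcases hsub k hu with h | h | h
      · exact absurd ((hpi k).mp (h ▸ hu)) hcon.1
      · exact absurd ((hqj k).mp (h ▸ hu)) hcon.2
      · exact h
    have h2 := Set.ncard_le_ncard h1 (Set.finite_singleton r)
    rw [htwo k r hk, Set.ncard_singleton] at h2
    omega
  have hsetr : {k | s(v, r) ∈ (F k).edgeSet} ⊆ ({i, j} : Set (Fin n)) := by
    intro k hk
    have hk' : (F k).Adj v r := by simpa using hk
    simpa using hthird k hk'
  have hcard := hc _ hvr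
  rw [hr] at hcard
  have hij : i ≠ j := by
    rintro rfl
    have h1 := Set.ncard_le_ncard hsetr (Set.toFinite _)
    rw [hcard, Set.pair_eq_singleton, Set.ncard_singleton] at h1
    omega
  refine ⟨hij, ?_⟩
  apply Set.eq_of_subset_of_ncard_le hsetr _ (Set.toFinite _)
  rw [hcard, Set.ncard_pair hij]

lemma exists_index {V : Type} {G : SimpleGraph V} {w : Sym2 V → ℕ} {n : ℕ}
    {F : Fin n → G.Subgraph}
    (hc : ∀ e ∈ G.edgeSet, {i | e ∈ (F i).edgeSet}.ncard = w e) {a b : V} (h : G.Adj a b)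
    (h1 : w s(a, b) = 1) : ∃ i, {k | s(a, b) ∈ (F k).edgeSet} = {i} := by
  have := hc s(a, b) h
  rw [h1, Set.ncard_eq_one] at this
  exact this

theorem not_hasCover : ¬ HasFaithfulCircuitCover Gr wt := by
  rintro ⟨n, F, hF, hc⟩
  -- the edges of weight 1
  obtain ⟨a1, h1⟩ := exists_index hc (a := 1) (b := 2) (by decide) (by decide)
  obtain ⟨a2, h2⟩ := exists_index hc (a := 2) (b := 10) (by decide) (by decide)
  obtain ⟨a3, h3⟩ := exists_index hc (a := 10) (b := 11) (by decide) (by decide)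
  obtain ⟨a4, h4⟩ := exists_index hc (a := 11) (b := 16) (by decide) (by decide)
  obtain ⟨a5, h5⟩ := exists_index hc (a := 16) (b := 14) (by decide) (by decide)
  obtain ⟨a6, h6⟩ := exists_index hc (a := 14) (b := 3) (by decide) (by decide)
  obtain ⟨a7, h7⟩ := exists_index hc (a := 3) (b := 4) (by decide) (by decide)
  obtain ⟨a8, h8⟩ := exists_index hc (a := 4) (b := 0) (by decide) (by decide)
  obtain ⟨a9, h9⟩ := exists_index hc (a := 0) (b := 12) (by decide) (by decide)
  obtain ⟨a10, h10⟩ := exists_index hc (a := 12) (b := 17) (by decide) (by decide)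
  obtain ⟨a11, h11⟩ := exists_index hc (a := 17) (b := 15) (by decide) (by decide)
  obtain ⟨a12, h12⟩ := exists_index hc (a := 15) (b := 13) (by decide) (by decide)
  obtain ⟨a13, h13⟩ := exists_index hc (a := 13) (b := 1) (by decide) (by decide)
  obtain ⟨b1, g1⟩ := exists_index hc (a := 5) (b := 7) (by decide) (by decide)
  obtain ⟨b2, g2⟩ := exists_index hc (a := 7) (b := 9) (by decide) (by decide)
  obtain ⟨b3, g3⟩ := exists_index hc (a := 9) (b := 6) (by decide) (by decide)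
  obtain ⟨b4, g4⟩ := exists_index hc (a := 6) (b := 8) (by decide) (by decide)
  obtain ⟨b5, g5⟩ := exists_index hc (a := 8) (b := 5) (by decide) (by decide)
  have key : ∀ (v p q r : Fin 18) (i j : Fin n), Gr.neighborSet v = {p, q, r} →
      wt s(v, r) = 2 → {k | s(v, p) ∈ (F k).edgeSet} = {i} →
      {k | s(v, q) ∈ (F k).edgeSet} = {j} →
      i ≠ j ∧ {k | s(v, r) ∈ (F k).edgeSet} = {i, j} := by
    intro v p q r i j e1 e5 e6 e7
    exact local_structure hF hc e1 e5 e6 e7
  have sw : ∀ (a b : Fin 18) (i : Fin n), {k | s(a, b) ∈ (F k).edgeSet} = {i} →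
      {k | s(b, a) ∈ (F k).edgeSet} = {i} := by
    intro a b i h
    rwa [Sym2.eq_swap]
  -- vertices
  have v0 := key 0 4 12 5 a8 a9 (neighborSet_Gr 0) (by decide) (sw _ _ _ h8) h9
  have v1 := key 1 2 13 6 a1 a13 (neighborSet_Gr 1) (by decide) h1 (sw _ _ _ h13)
  have v2 := key 2 1 10 7 a1 a2 (neighborSet_Gr 2) (by decide) (sw _ _ _ h1) h2
  have v3 := key 3 14 4 8 a6 a7 (neighborSet_Gr 3) (by decide) (sw _ _ _ h6) h7
  have v4 := key 4 3 0 9 a7 a8 (neighborSet_Gr 4) (by decide) (sw _ _ _ h7) h8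
  have v5 := key 5 7 8 0 b1 b5 (neighborSet_Gr 5) (by decide) g1 (sw _ _ _ g5)
  have v6 := key 6 9 8 1 b3 b4 (neighborSet_Gr 6) (by decide) (sw _ _ _ g3) g4
  have v7 := key 7 5 9 2 b1 b2 (neighborSet_Gr 7) (by decide) (sw _ _ _ g1) g2
  have v8 := key 8 6 5 3 b4 b5 (neighborSet_Gr 8) (by decide) (sw _ _ _ g4) g5
  have v9 := key 9 7 6 4 b2 b3 (neighborSet_Gr 9) (by decide) (sw _ _ _ g2) g3
  have v10 := key 10 2 11 15 a2 a3 (neighborSet_Gr 10) (by decide) (sw _ _ _ h2) h3
  have v11 := key 11 10 16 12 a3 a4 (neighborSet_Gr 11) (by decide) (sw _ _ _ h3) h4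
  have v12 := key 12 0 17 11 a9 a10 (neighborSet_Gr 12) (by decide) (sw _ _ _ h9) h10
  have v13 := key 13 15 1 16 a12 a13 (neighborSet_Gr 13) (by decide) (sw _ _ _ h12) h13
  have v14 := key 14 16 3 17 a5 a6 (neighborSet_Gr 14) (by decide) (sw _ _ _ h5) h6
  have v15 := key 15 17 13 10 a11 a12 (neighborSet_Gr 15) (by decide) (sw _ _ _ h11) h12
  have v16 := key 16 11 14 13 a4 a5 (neighborSet_Gr 16) (by decide) (sw _ _ _ h4) h5
  have v17 := key 17 12 15 14 a10 a11 (neighborSet_Gr 17) (by decide) (sw _ _ _ h10) h11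
  -- edges of weight 2
  have m1 : ({a8, a9} : Set (Fin n)) = {b1, b5} := by rw [← v0.2, ← v5.2, Sym2.eq_swap]
  have m2 : ({a1, a13} : Set (Fin n)) = {b3, b4} := by rw [← v1.2, ← v6.2, Sym2.eq_swap]
  have m3 : ({a1, a2} : Set (Fin n)) = {b1, b2} := by rw [← v2.2, ← v7.2, Sym2.eq_swap]
  have m4 : ({a6, a7} : Set (Fin n)) = {b4, b5} := by rw [← v3.2, ← v8.2, Sym2.eq_swap]
  have m5 : ({a7, a8} : Set (Fin n)) = {b2, b3} := by rw [← v4.2, ← v9.2, Sym2.eq_swap]
  have m6 : ({a2, a3} : Set (Fin n)) = {a11, a12} := by rw [← v10.2, ← v15.2, Sym2.eq_swap]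
  have m7 : ({a3, a4} : Set (Fin n)) = {a9, a10} := by rw [← v11.2, ← v12.2, Sym2.eq_swap]
  have m8 : ({a12, a13} : Set (Fin n)) = {a4, a5} := by rw [← v13.2, ← v16.2, Sym2.eq_swap]
  have m9 : ({a5, a6} : Set (Fin n)) = {a10, a11} := by rw [← v14.2, ← v17.2, Sym2.eq_swap]
  rw [Set.pair_eq_pair_iff] at m1 m2 m3 m4 m5 m6 m7 m8 m9
  have d0 := v0.1
  have d1 := v1.1
  have d2 := v2.1
  have d3 := v3.1
  have d4 := v4.1
  have d5 := v5.1
  have d6 := v6.1
  have d7 := v7.1
  have d8 := v8.1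
  have d9 := v9.1
  have d10 := v10.1
  have d11 := v11.1
  have d12 := v12.1
  have d13 := v13.1
  have d14 := v14.1
  have d15 := v15.1
  have d16 := v16.1
  have d17 := v17.1
  clear v0 v1 v2 v3 v4 v5 v6 v7 v8 v9 v10 v11 v12 v13 v14 v15 v16 v17 key sw
  clear h1 h2 h3 h4 h5 h6 h7 h8 h9 h10 h11 h12 h13 g1 g2 g3 g4 g5 hc hF F
  grind

/-- The graph with the edge `e₀ = {10, 15}` deleted. -/
abbrev Gd : SimpleGraph (Fin 18) := Gr.deleteEdges {s(10, 15)}

lemma adjd {a b : Fin 18} (h : Gr.Adj a b ∧ s(a, b) ≠ s(10, 15)) : Gd.Adj a b := by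
  rw [SimpleGraph.deleteEdges_adj]
  exact ⟨h.1, h.2⟩

/-- First circuit. -/
def W1 : Gd.Walk 1 1 :=
  .cons (v := 2) (adjd (by decide)) <| .cons (v := 7) (adjd (by decide)) <|
  .cons (v := 5) (adjd (by decide)) <| .cons (v := 0) (adjd (by decide)) <|
  .cons (v := 4) (adjd (by decide)) <| .cons (v := 9) (adjd (by decide)) <|
  .cons (v := 6) (adjd (by decide)) <| .cons (v := 1) (adjd (by decide)) .nil

/-- Second circuit. -/
def W2 : Gd.Walk 1 1 :=
  .cons (v := 6) (adjd (by decide)) <| .cons (v := 8) (adjd (by decide)) <|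
  .cons (v := 3) (adjd (by decide)) <| .cons (v := 4) (adjd (by decide)) <|
  .cons (v := 9) (adjd (by decide)) <| .cons (v := 7) (adjd (by decide)) <|
  .cons (v := 2) (adjd (by decide)) <| .cons (v := 10) (adjd (by decide)) <|
  .cons (v := 11) (adjd (by decide)) <| .cons (v := 12) (adjd (by decide)) <|
  .cons (v := 17) (adjd (by decide)) <| .cons (v := 14) (adjd (by decide)) <|
  .cons (v := 16) (adjd (by decide)) <| .cons (v := 13) (adjd (by decide)) <|
  .cons (v := 1) (adjd (by decide)) .nil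

/-- Third circuit. -/
def W3 : Gd.Walk 0 0 :=
  .cons (v := 5) (adjd (by decide)) <| .cons (v := 8) (adjd (by decide)) <|
  .cons (v := 3) (adjd (by decide)) <| .cons (v := 14) (adjd (by decide)) <|
  .cons (v := 17) (adjd (by decide)) <| .cons (v := 15) (adjd (by decide)) <|
  .cons (v := 13) (adjd (by decide)) <| .cons (v := 16) (adjd (by decide)) <|
  .cons (v := 11) (adjd (by decide)) <| .cons (v := 12) (adjd (by decide)) <|
  .cons (v := 0) (adjd (by decide)) .nil

/-- The 5-circuit through `e₀`. -/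
def W0 : Gr.Walk 10 10 :=
  .cons (v := 2) (by decide) <| .cons (v := 1) (by decide) <|
  .cons (v := 13) (by decide) <| .cons (v := 15) (by decide) <|
  .cons (v := 10) (by decide) .nil

lemma isCircuit_of_isCycle {V : Type} {G : SimpleGraph V} {u : V} {p : G.Walk u u}
    (h : p.IsCycle) : IsCircuit p.toSubgraph := by
  refine ⟨p.toSubgraph_connected, fun v hv => ?_⟩
  rw [SimpleGraph.Walk.mem_verts_toSubgraph] at hv
  exact h.ncard_neighborSet_toSubgraph_eq_two hv

lemma W1_cycle : W1.IsCycle := by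
  rw [SimpleGraph.Walk.isCycle_def, SimpleGraph.Walk.isTrail_def]
  refine ⟨?_, ?_, ?_⟩
  · simp only [W1, SimpleGraph.Walk.edges_cons, SimpleGraph.Walk.edges_nil]; decide
  · simp [W1]
  · simp only [W1, SimpleGraph.Walk.support_cons, SimpleGraph.Walk.support_nil, List.tail_cons]
    decide

lemma W2_cycle : W2.IsCycle := by
  rw [SimpleGraph.Walk.isCycle_def, SimpleGraph.Walk.isTrail_def]
  refine ⟨?_, ?_, ?_⟩
  · simp only [W2, SimpleGraph.Walk.edges_cons, SimpleGraph.Walk.edges_nil]; decide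
  · simp [W2]
  · simp only [W2, SimpleGraph.Walk.support_cons, SimpleGraph.Walk.support_nil, List.tail_cons]
    decide

lemma W3_cycle : W3.IsCycle := by
  rw [SimpleGraph.Walk.isCycle_def, SimpleGraph.Walk.isTrail_def]
  refine ⟨?_, ?_, ?_⟩
  · simp only [W3, SimpleGraph.Walk.edges_cons, SimpleGraph.Walk.edges_nil]; decide
  · simp [W3]
  · simp only [W3, SimpleGraph.Walk.support_cons, SimpleGraph.Walk.support_nil, List.tail_cons]
    decide

lemma W0_cycle : W0.IsCycle := by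
  rw [SimpleGraph.Walk.isCycle_def, SimpleGraph.Walk.isTrail_def]
  refine ⟨?_, ?_, ?_⟩
  · simp only [W0, SimpleGraph.Walk.edges_cons, SimpleGraph.Walk.edges_nil]; decide
  · simp [W0]
  · simp only [W0, SimpleGraph.Walk.support_cons, SimpleGraph.Walk.support_nil, List.tail_cons]
    decide

/-- The edge lists of the three circuits. -/
def L : Fin 3 → List (Sym2 (Fin 18)) := ![
  [s(1, 2), s(2, 7), s(7, 5), s(5, 0), s(0, 4), s(4, 9), s(9, 6), s(6, 1)],
  [s(1, 6), s(6, 8), s(8, 3), s(3, 4), s(4, 9), s(9, 7), s(7, 2), s(2, 10), s(10, 11), s(11, 12),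
    s(12, 17), s(17, 14), s(14, 16), s(16, 13), s(13, 1)],
  [s(0, 5), s(5, 8), s(8, 3), s(3, 14), s(14, 17), s(17, 15), s(15, 13), s(13, 16), s(16, 11),
    s(11, 12), s(12, 0)]]

/-- The family of the three circuits. -/
def Fam : Fin 3 → Gd.Subgraph := ![W1.toSubgraph, W2.toSubgraph, W3.toSubgraph]

lemma mem_Fam (i : Fin 3) (e : Sym2 (Fin 18)) : e ∈ (Fam i).edgeSet ↔ e ∈ L i := by
  fin_cases i
  · change e ∈ W1.toSubgraph.edgeSet ↔ _
    rw [SimpleGraph.Walk.mem_edges_toSubgraph]; rfl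
  · change e ∈ W2.toSubgraph.edgeSet ↔ _
    rw [SimpleGraph.Walk.mem_edges_toSubgraph]; rfl
  · change e ∈ W3.toSubgraph.edgeSet ↔ _
    rw [SimpleGraph.Walk.mem_edges_toSubgraph]; rfl

theorem hasCover_deleted : HasFaithfulCircuitCover Gd wt := by
  refine ⟨3, Fam, ?_, ?_⟩
  · intro i
    fin_cases i
    · exact isCircuit_of_isCycle W1_cycle
    · exact isCircuit_of_isCycle W2_cycle
    · exact isCircuit_of_isCycle W3_cycle
  · intro e he
    have h1 : {i | e ∈ (Fam i).edgeSet} = ((Finset.univ.filter fun i => e ∈ L i : Finset (Fin 3)) :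
        Set (Fin 3)) := by
      ext i; simp [mem_Fam]
    rw [h1, Set.ncard_coe_finset]
    revert he
    induction e using Sym2.ind with
    | _ a b =>
      intro he
      rw [SimpleGraph.mem_edgeSet, SimpleGraph.deleteEdges_adj] at he
      have h2 : ∀ a b : Fin 18, Gr.Adj a b → s(a, b) ≠ s(10, 15) →
          (Finset.univ.filter fun i => s(a, b) ∈ L i : Finset (Fin 3)).card = wt s(a, b) := by
        decide +kernel
      exact h2 a b he.1 he.2

lemma cubic : IsCubic Gr := by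
  intro v
  have h1 : Gr.neighborSet v = (({p0 v, p1 v, p2 v} : Finset (Fin 18)) : Set (Fin 18)) := by
    rw [neighborSet_Gr]; simp
  rw [h1, Set.ncard_coe_finset]
  clear h1
  revert v
  decide

lemma eulerian : IsEulerian Gr wt := by
  intro v
  have h1 : Gr.incidenceSet v =
      (({s(v, p0 v), s(v, p1 v), s(v, p2 v)} : Finset (Sym2 (Fin 18))) : Set (Sym2 (Fin 18))) := by
    ext e
    induction e using Sym2.ind with
    | _ a b =>
      rw [SimpleGraph.mk'_mem_incidenceSet_iff]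
      have h2 : ∀ a b v : Fin 18, (Gr.Adj a b ∧ (v = a ∨ v = b)) ↔
          s(a, b) ∈ ({s(v, p0 v), s(v, p1 v), s(v, p2 v)} : Finset (Sym2 (Fin 18))) := by
        decide +kernel
      exact_mod_cast h2 a b v
  rw [h1, finsum_mem_coe_finset]
  clear h1
  revert v
  decide +kernel

lemma wt_values (e : Sym2 (Fin 18)) : wt e = 1 ∨ wt e = 2 := by
  unfold wt
  split_ifs
  · exact Or.inr rfl
  · exact Or.inl rfl

/-- There is a cubic graph `G` (on 18 vertices) with an eulerian weight `w` with values in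
`{1, 2}`, an edge `e₀` of weight 2 and a circuit `C₀` with exactly 5 edges in which `e₀` is the
only edge of weight 2, such that `(G - e₀, w)` has a faithful circuit cover but `(G, w)` has
none. -/
theorem main :
    ∃ (G : SimpleGraph (Fin 18)) (w : Sym2 (Fin 18) → ℕ) (e₀ : Sym2 (Fin 18)) (C₀ : G.Subgraph),
      IsCubic G ∧ (∀ e ∈ G.edgeSet, w e = 1 ∨ w e = 2) ∧ IsEulerian G w ∧
      e₀ ∈ G.edgeSet ∧ w e₀ = 2 ∧
      IsCircuit C₀ ∧ C₀.edgeSet.ncard = 5 ∧ e₀ ∈ C₀.edgeSet ∧
      (∀ e ∈ C₀.edgeSet, w e = 2 → e = e₀) ∧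
      HasFaithfulCircuitCover (G.deleteEdges {e₀}) w ∧
      ¬ HasFaithfulCircuitCover G w := by
  have hC : W0.toSubgraph.edgeSet =
      (({s(10, 2), s(2, 1), s(1, 13), s(13, 15), s(15, 10)} : Finset (Sym2 (Fin 18))) :
        Set (Sym2 (Fin 18))) := by
    ext e
    rw [SimpleGraph.Walk.mem_edges_toSubgraph]
    simp [W0]
  refine ⟨Gr, wt, s(10, 15), W0.toSubgraph, cubic, fun e _ => wt_values e, eulerian, ?_, ?_,
    isCircuit_of_isCycle W0_cycle, ?_, ?_, ?_, hasCover_deleted, not_hasCover⟩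
  · rw [SimpleGraph.mem_edgeSet]; decide
  · decide
  · rw [hC, Set.ncard_coe_finset]; decide
  · rw [hC, Finset.mem_coe]; decide
  · rw [hC]
    intro e he h2
    rw [Finset.mem_coe] at he
    simp only [Finset.mem_insert, Finset.mem_singleton] at he
    rcases he with rfl | rfl | rfl | rfl | rfl
    · exact absurd h2 (by decide)
    · exact absurd h2 (by decide)
    · exact absurd h2 (by decide)
    · exact absurd h2 (by decide)
    · exact Sym2.eq_swap

end Pool.Agent.H24.CircuitProof
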