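import Mathlib

open scoped Nat

namespace Pool.Agent.H24.MultinomialDefs

/-- The set of values `n! / (p₁! ⋯ p_t!)`, over the partitions `p₁ + ⋯ + p_t = n` of `n`. -/
def values (n : ℕ) : Finset ℕ :=
  Finset.univ.image fun p : n.Partition => n ! / (p.parts.map Nat.factorial).prod

/-- The number of distinct values. -/
def M (n : ℕ) : ℕ := (values n).card

/-- `r n t` is the number of pairs `(x, y)` of values with `x ≤ y` and `x + y = t`. -/
def r (n t : ℕ) : ℕ :=
  ((values n ×ˢ values n).filter fun q => q.1 ≤ q.2 ∧ q.1 + q.2 = t).card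

/-- The set of all sums of two values. -/
def sums (n : ℕ) : Finset ℕ := Finset.image₂ (· + ·) (values n) (values n)

/-- `C n` is the sum over `t` of `max (r n t - 1) 0` (natural number subtraction). -/
def C (n : ℕ) : ℕ := ∑ t ∈ sums n, (r n t - 1)

/-- `D n` is the number of `t` with `r n t ≥ 2`. -/
def D (n : ℕ) : ℕ := ((sums n).filter fun t => 2 ≤ r n t).card

/-- `mu n` is the maximum over `t` of `r n t`. -/
def mu (n : ℕ) : ℕ := (sums n).sup (r n)

end Pool.Agent.H24.MultinomialDefs
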