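import Mathlib
import Pool.Agent.H24.MultinomialDefs

open scoped Nat
open Pool.Agent.H24.MultinomialDefs

namespace Pool.Agent.H24.MultinomialComb

lemma prod_factorial_filter (s : Multiset ℕ) :
    ((s.filter (· ≠ 0)).map Nat.factorial).prod = (s.map Nat.factorial).prod := by
  induction s using Multiset.induction_on with
  | empty => simp
  | cons a s ih =>
    by_cases h : a = 0
    · subst h; simp [ih]
    · rw [Multiset.filter_cons_of_pos (p := (· ≠ 0)) _ h]; simp only [Multiset.map_cons, Multiset.prod_cons, ih]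

lemma mem_values_of_sum_eq {n : ℕ} {s : Multiset ℕ} (hs : s.sum = n) :
    n ! / (s.map Nat.factorial).prod ∈ values n := by
  unfold values
  rw [Finset.mem_image]
  refine ⟨Nat.Partition.ofSums n s hs, Finset.mem_univ _, ?_⟩
  rw [Nat.Partition.ofSums_parts, prod_factorial_filter]

lemma mem_values {n : ℕ} {s : Multiset ℕ} (hs : s.sum ≤ n) :
    n ! / (s.map Nat.factorial).prod ∈ values n := by
  have h : (s + Multiset.replicate (n - s.sum) 1).sum = n := by
    rw [Multiset.sum_add, Multiset.sum_replicate, smul_eq_mul, mul_one]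
    omega
  have := mem_values_of_sum_eq h
  simpa using this

lemma prod_dvd (s : Multiset ℕ) : (s.map Nat.factorial).prod ∣ (s.sum)! := by
  induction s using Multiset.induction_on with
  | empty => simp
  | cons a s ih =>
    simp only [Multiset.map_cons, Multiset.prod_cons, Multiset.sum_cons]
    exact (Nat.mul_dvd_mul_left _ ih).trans (Nat.factorial_mul_factorial_dvd_factorial_add a s.sum)

lemma prod_dvd' {n : ℕ} {s : Multiset ℕ} (hs : s.sum ≤ n) : (s.map Nat.factorial).prod ∣ n ! :=
  (prod_dvd s).trans (Nat.factorial_dvd_factorial hs)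

lemma mem_values_iff {n v : ℕ} : v ∈ values n ↔
    ∃ s : Multiset ℕ, s.sum = n ∧ (s.map Nat.factorial).prod * v = n ! := by
  constructor
  · intro h
    unfold values at h
    rw [Finset.mem_image] at h
    obtain ⟨p, -, rfl⟩ := h
    refine ⟨p.parts, p.parts_sum, ?_⟩
    exact Nat.mul_div_cancel' (prod_dvd' p.parts_sum.le)
  · rintro ⟨s, hs, hv⟩
    have hpos : 0 < (s.map Nat.factorial).prod :=
      Nat.pos_of_ne_zero fun h => by
        rw [h, zero_mul] at hv
        exact (Nat.factorial_ne_zero n) hv.symm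
    have : v = n ! / (s.map Nat.factorial).prod := by
      rw [← hv, Nat.mul_div_cancel_left _ hpos]
    rw [this]
    exact mem_values_of_sum_eq hs

lemma mem_values_of_mul {n v : ℕ} (s : Multiset ℕ) (hs : s.sum ≤ n)
    (hv : (s.map Nat.factorial).prod * v = n !) : v ∈ values n := by
  have hpos : 0 < (s.map Nat.factorial).prod :=
    Nat.pos_of_ne_zero fun h => by
      rw [h, zero_mul] at hv
      exact (Nat.factorial_ne_zero n) hv.symm
  have : v = n ! / (s.map Nat.factorial).prod := by
    rw [← hv, Nat.mul_div_cancel_left _ hpos]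
  rw [this]
  exact mem_values hs

lemma values_pos {n v : ℕ} (h : v ∈ values n) : 0 < v := by
  obtain ⟨s, -, hv⟩ := mem_values_iff.mp h
  exact Nat.pos_of_ne_zero fun h => by
    rw [h, mul_zero] at hv
    exact (Nat.factorial_ne_zero n) hv.symm

/-- From a value of level `n` to values of level `n+5`. -/
lemma lift5 {n v : ℕ} (h : v ∈ values n) :
    10 * (n + 5).choose 5 * v ∈ values (n + 5) ∧ 20 * (n + 5).choose 5 * v ∈ values (n + 5) ∧
      30 * (n + 5).choose 5 * v ∈ values (n + 5) := by
  obtain ⟨s, hs, hv⟩ := mem_values_iff.mp h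
  have hc : (n + 5).choose 5 * 120 * n ! = (n + 5)! := by
    have := Nat.choose_mul_factorial_mul_factorial (show 5 ≤ n + 5 by omega)
    rw [show n + 5 - 5 = n by omega] at this
    rw [← this]; rfl
  refine ⟨?_, ?_, ?_⟩
  · apply mem_values_iff.mpr
    refine ⟨3 ::ₘ 2 ::ₘ s, by simp [hs]; ring, ?_⟩
    simp only [Multiset.map_cons, Multiset.prod_cons]
    rw [← hc, ← hv, show (3)! = 6 from rfl, show (2)! = 2 from rfl]; ring
  · apply mem_values_of_mul (3 ::ₘ s) (by simp [hs]; omega)
    simp only [Multiset.map_cons, Multiset.prod_cons]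
    rw [← hc, ← hv, show (3)! = 6 from rfl]; ring
  · apply mem_values_of_mul (2 ::ₘ 2 ::ₘ s) (by simp [hs]; omega)
    simp only [Multiset.map_cons, Multiset.prod_cons]
    rw [← hc, ← hv, show (2)! = 2 from rfl]; ring

lemma two_le_r {n v : ℕ} (h : v ∈ values n) :
    2 ≤ r (n + 5) (40 * (n + 5).choose 5 * v) := by
  obtain ⟨h1, h2, h3⟩ := lift5 h
  have hv := values_pos h
  have hc : 0 < (n + 5).choose 5 := Nat.choose_pos (by omega)
  unfold r
  refine Finset.one_lt_card.mpr ?_
  refine ⟨(20 * (n + 5).choose 5 * v, 20 * (n + 5).choose 5 * v), ?_,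
    (10 * (n + 5).choose 5 * v, 30 * (n + 5).choose 5 * v), ?_, ?_⟩
  · simp only [Finset.mem_filter, Finset.mem_product]
    exact ⟨⟨h2, h2⟩, le_rfl, by ring⟩
  · simp only [Finset.mem_filter, Finset.mem_product]
    refine ⟨⟨h1, h3⟩, ?_, by ring⟩
    nlinarith [Nat.mul_pos hc hv]
  · intro h
    have := congrArg Prod.fst h
    simp only at this
    nlinarith [Nat.mul_pos hc hv]

lemma r_pos_mem_sums {n t : ℕ} (h : 0 < r n t) : t ∈ sums n := by
  unfold r at h
  rw [Finset.card_pos] at h
  obtain ⟨q, hq⟩ := h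
  simp only [Finset.mem_filter, Finset.mem_product] at hq
  unfold sums
  rw [Finset.mem_image₂]
  exact ⟨q.1, hq.1.1, q.2, hq.1.2, hq.2.2⟩

/-- The key inequality: `M n ≤ D (n+5)`. -/
lemma M_le_D (n : ℕ) : M n ≤ D (n + 5) := by
  unfold M D
  have hc : 0 < (n + 5).choose 5 := Nat.choose_pos (by omega)
  apply Finset.card_le_card_of_injOn (fun v => 40 * (n + 5).choose 5 * v)
  · intro v hv
    have h2 := two_le_r (Finset.mem_coe.mp hv)
    simp only [Finset.coe_filter, Set.mem_ofPred_eq]
    exact ⟨r_pos_mem_sums (by omega), h2⟩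
  · intro v _ w _ h
    simp only at h
    have : 0 < 40 * (n + 5).choose 5 := by positivity
    exact Nat.eq_of_mul_eq_mul_left this h

lemma D_le_C (n : ℕ) : D n ≤ C n := by
  unfold D C
  rw [Finset.card_eq_sum_ones, Finset.sum_filter]
  apply Finset.sum_le_sum
  intro t _
  split_ifs with h
  · omega
  · omega

lemma r_le_mu (n t : ℕ) : r n t ≤ mu n := by
  by_cases h : 0 < r n t
  · unfold mu
    exact Finset.le_sup (f := r n) (r_pos_mem_sums h)
  · omega

end Pool.Agent.H24.MultinomialComb
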