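import Mathlib
import Pool.Agent.H24.MultinomialComb

open scoped Nat
open Pool.Agent.H24.MultinomialDefs
open Pool.Agent.H24.MultinomialComb

namespace Pool.Agent.H24.MultinomialPrimes

/-- Exponent of a prime in a product of factorials of primes. -/
lemma factorization_prod (A : Finset ℕ) (p : ℕ) :
    (∏ q ∈ A, q !).factorization p = ∑ q ∈ A, (q !).factorization p := by
  rw [Nat.factorization_prod (fun q _ => Nat.factorial_ne_zero q)]
  simp

lemma factorization_factorial_of_lt {p q : ℕ} (hp : p.Prime) (h : q < p) :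
    (q !).factorization p = 0 := by
  apply Nat.factorization_eq_zero_of_not_dvd
  rw [hp.dvd_factorial]
  omega

lemma factorization_factorial_self {p : ℕ} (hp : p.Prime) : (p !).factorization p = 1 := by
  obtain ⟨k, rfl⟩ : ∃ k, p = k + 1 := ⟨p - 1, by have := hp.pos; omega⟩
  rw [Nat.factorial_succ, Nat.factorization_mul (by omega) (Nat.factorial_ne_zero k)]
  simp only [Finsupp.coe_add, Pi.add_apply]
  rw [factorization_factorial_of_lt hp (by omega), hp.factorization_self]

/-- Products of factorials over different sets of primes are different. -/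
lemma prod_factorial_injOn (P : Finset ℕ) (hP : ∀ p ∈ P, p.Prime) :
    Set.InjOn (fun A : Finset ℕ => ∏ q ∈ A, q !) (P.powerset : Set (Finset ℕ)) := by
  classical
  intro A hA B hB hAB
  simp only at hAB
  rw [Finset.mem_coe, Finset.mem_powerset] at hA hB
  by_contra hne
  have hS : (symmDiff A B).Nonempty := by
    rw [Finset.nonempty_iff_ne_empty]
    intro h
    exact hne (by rwa [← Finset.bot_eq_empty, symmDiff_eq_bot] at h)
  set p := (symmDiff A B).max' hS with hp
  have hpS : p ∈ symmDiff A B := Finset.max'_mem _ hS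
  have hmax : ∀ q, p < q → (q ∈ A ↔ q ∈ B) := by
    intro q hq
    by_contra hcon
    have : q ∈ symmDiff A B := by
      rw [Finset.mem_symmDiff]; tauto
    have := Finset.le_max' _ q this
    omega
  have hpP : p.Prime := by
    rw [Finset.mem_symmDiff] at hpS
    rcases hpS with h | h
    · exact hP p (hA h.1)
    · exact hP p (hB h.1)
  have key : ∀ E : Finset ℕ, ∑ q ∈ E, (q !).factorization p =
      (if p ∈ E then 1 else 0) + ∑ q ∈ E.filter (fun q => p < q), (q !).factorization p := by
    intro E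
    rw [← Finset.sum_filter_add_sum_filter_not E (fun q => p < q), add_comm]
    congr 1
    split_ifs with h
    · rw [Finset.sum_eq_single_of_mem p]
      · exact factorization_factorial_self hpP
      · simp [h]
      · intro q hq hqp
        rw [Finset.mem_filter] at hq
        exact factorization_factorial_of_lt hpP (by omega)
    · apply Finset.sum_eq_zero
      intro q hq
      rw [Finset.mem_filter] at hq
      apply factorization_factorial_of_lt hpP
      have : q ≠ p := fun h' => h (h' ▸ hq.1)
      omega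
  have hfil : A.filter (fun q => p < q) = B.filter (fun q => p < q) := by
    ext q
    simp only [Finset.mem_filter]
    constructor
    · rintro ⟨h1, h2⟩; exact ⟨(hmax q h2).mp h1, h2⟩
    · rintro ⟨h1, h2⟩; exact ⟨(hmax q h2).mpr h1, h2⟩
  have h1 := congrArg (fun m => m.factorization p) hAB
  simp only [factorization_prod] at h1
  rw [key A, key B, hfil] at h1
  rw [Finset.mem_symmDiff] at hpS
  rcases hpS with ⟨h2, h3⟩ | ⟨h2, h3⟩
  · rw [if_pos h2, if_neg h3] at h1; omega
  · rw [if_neg h3, if_pos h2] at h1; omega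

/-- Lower bound for the number of distinct values. -/
lemma two_pow_le_M (n : ℕ) (P : Finset ℕ) (hP : ∀ p ∈ P, p.Prime) (hsum : ∑ p ∈ P, p ≤ n) :
    2 ^ P.card ≤ M n := by
  classical
  unfold M
  rw [← Finset.card_powerset]
  have hle : ∀ A ∈ P.powerset, (A.val.map id).sum ≤ n := by
    intro A hA
    rw [Finset.mem_powerset] at hA
    have h1 : (A.val.map id).sum = ∑ p ∈ A, p := rfl
    rw [h1]
    exact (Finset.sum_le_sum_of_subset hA).trans hsum
  have hprod : ∀ A : Finset ℕ, ((A.val.map id).map Nat.factorial).prod = ∏ q ∈ A, q ! := by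
    intro A
    rw [Multiset.map_map]; rfl
  apply Finset.card_le_card_of_injOn (fun A => n ! / ∏ q ∈ A, q !)
  · intro A hA
    simp only
    rw [← hprod]
    exact mem_values (hle A (Finset.mem_coe.mp hA))
  · intro A hA B hB h
    simp only at h
    apply prod_factorial_injOn P hP hA hB
    simp only
    have hdA : (∏ q ∈ A, q !) ∣ n ! := by
      rw [← hprod]; exact prod_dvd' (hle A (Finset.mem_coe.mp hA))
    have hdB : (∏ q ∈ B, q !) ∣ n ! := by
      rw [← hprod]; exact prod_dvd' (hle B (Finset.mem_coe.mp hB))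
    have hA2 := Nat.mul_div_cancel' hdA
    have hB2 := Nat.mul_div_cancel' hdB
    rw [h] at hA2
    have hpos : 0 < n ! / ∏ q ∈ B, q ! := by
      apply Nat.pos_of_ne_zero
      intro h0
      rw [h0, mul_zero] at hB2
      exact Nat.factorial_ne_zero n hB2.symm
    exact Nat.eq_of_mul_eq_mul_right hpos (hA2.trans hB2.symm)

/-- The values used in the pigeonhole argument. -/
lemma value_of_subset (n : ℕ) (P A : Finset ℕ) (hP : ∀ p ∈ P, p.Prime) (hsum : ∑ p ∈ P, p ≤ n)
    (hA : A ⊆ P) : (n ! / ∏ p ∈ P, p !) * ∏ p ∈ A, p ∈ values n := by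
  classical
  have hd : (∏ p ∈ P, p !) ∣ n ! := by
    have : ((P.val.map id).map Nat.factorial).prod = ∏ q ∈ P, q ! := by
      rw [Multiset.map_map]; rfl
    rw [← this]
    exact prod_dvd' hsum
  have hn := Nat.mul_div_cancel' hd
  apply mem_values_of_mul (P.val.map fun p => if p ∈ A then p - 1 else p)
  · have h1 : (P.val.map fun p => if p ∈ A then p - 1 else p).sum =
        ∑ p ∈ P, if p ∈ A then p - 1 else p := rfl
    rw [h1]
    refine le_trans (Finset.sum_le_sum fun p _ => ?_) hsum
    split_ifs <;> omega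
  · have h1 : ((P.val.map fun p => if p ∈ A then p - 1 else p).map Nat.factorial).prod =
        ∏ p ∈ P, (if p ∈ A then p - 1 else p)! := by
      rw [Multiset.map_map]; rfl
    rw [h1]
    have h2 : (∏ p ∈ P, (if p ∈ A then p - 1 else p)!) * ∏ p ∈ A, p = ∏ p ∈ P, p ! := by
      have h3 : ∏ p ∈ A, p = ∏ p ∈ P, if p ∈ A then p else 1 := by
        rw [Finset.prod_ite_mem, Finset.inter_eq_right.mpr hA]
      rw [h3, ← Finset.prod_mul_distrib]
      refine Finset.prod_congr rfl fun p hp => ?_
      split_ifs with h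
      · rw [mul_comm]
        exact Nat.mul_factorial_pred (hP p hp).pos.ne'
      · rw [mul_one]
    calc (∏ p ∈ P, (if p ∈ A then p - 1 else p)!) * (n ! / (∏ p ∈ P, p !) * ∏ p ∈ A, p)
        = ((∏ p ∈ P, (if p ∈ A then p - 1 else p)!) * ∏ p ∈ A, p) * (n ! / ∏ p ∈ P, p !) := by ring
      _ = n ! := by rw [h2, hn]

/-- Products over different sets of primes are different. -/
lemma prod_injOn (P : Finset ℕ) (hP : ∀ p ∈ P, p.Prime) :
    Set.InjOn (fun A : Finset ℕ => ∏ q ∈ A, q) (P.powerset : Set (Finset ℕ)) := by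
  classical
  intro A hA B hB hAB
  simp only at hAB
  rw [Finset.mem_coe, Finset.mem_powerset] at hA hB
  have h1 : ∀ E : Finset ℕ, E ⊆ P → (∏ q ∈ E, q).primeFactors = E := by
    intro E hE
    exact Nat.primeFactors_prod fun p hp => hP p (hE hp)
  rw [← h1 A hA, hAB, h1 B hB]

/-- The pigeonhole lower bound for `mu`. -/
lemma choose_sq_le_mu (n y k : ℕ) (P : Finset ℕ) (hP : ∀ p ∈ P, p.Prime) (hy : ∀ p ∈ P, p ≤ y)
    (hsum : ∑ p ∈ P, p ≤ n) : (P.card.choose k) ^ 2 ≤ 4 * y ^ k * mu n := by
  classical
  set G := n ! / ∏ p ∈ P, p ! with hG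
  have hd : (∏ p ∈ P, p !) ∣ n ! := by
    have : ((P.val.map id).map Nat.factorial).prod = ∏ q ∈ P, q ! := by
      rw [Multiset.map_map]; rfl
    rw [← this]
    exact prod_dvd' hsum
  have hGpos : 0 < G := by
    apply Nat.pos_of_ne_zero
    intro h0
    have hn := Nat.mul_div_cancel' hd
    rw [← hG, h0, mul_zero] at hn
    exact Nat.factorial_ne_zero n hn.symm
  set U := (P.powersetCard k).image (fun A => ∏ q ∈ A, q) with hU
  have hUcard : U.card = P.card.choose k := by
    rw [hU, Finset.card_image_of_injOn, Finset.card_powersetCard]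
    intro A hA B hB h
    have hA' := (Finset.mem_powersetCard.mp (Finset.mem_coe.mp hA)).1
    have hB' := (Finset.mem_powersetCard.mp (Finset.mem_coe.mp hB)).1
    exact prod_injOn P hP (Finset.mem_coe.mpr (Finset.mem_powerset.mpr hA'))
      (Finset.mem_coe.mpr (Finset.mem_powerset.mpr hB')) h
  have hUval : ∀ u ∈ U, G * u ∈ values n := by
    intro u hu
    rw [hU, Finset.mem_image] at hu
    obtain ⟨A, hA, rfl⟩ := hu
    exact value_of_subset n P A hP hsum (Finset.mem_powersetCard.mp hA).1
  have hUle : ∀ u ∈ U, 1 ≤ u ∧ u ≤ y ^ k := by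
    intro u hu
    rw [hU, Finset.mem_image] at hu
    obtain ⟨A, hA, rfl⟩ := hu
    obtain ⟨hA1, hA2⟩ := Finset.mem_powersetCard.mp hA
    constructor
    · apply Finset.one_le_prod'
      intro p hp
      exact (hP p (hA1 hp)).one_le
    · rw [← hA2]
      apply Finset.prod_le_pow_card
      intro p hp
      exact hy p (hA1 hp)
  -- ordered pairs
  set R := (U ×ˢ U).filter fun q => q.1 ≤ q.2 with hR
  have hR2 : U.card ^ 2 ≤ 2 * R.card := by
    have h1 : (U ×ˢ U).card = R.card + ((U ×ˢ U).filter fun q => ¬ q.1 ≤ q.2).card := by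
      rw [hR, Finset.card_filter_add_card_filter_not]
    have h2 : ((U ×ˢ U).filter fun q => ¬ q.1 ≤ q.2).card ≤ R.card := by
      apply Finset.card_le_card_of_injOn Prod.swap
      · intro q hq
        simp only [Finset.coe_filter, Set.mem_ofPred_eq, Finset.mem_product] at hq
        simp only [hR, Finset.coe_filter, Set.mem_ofPred_eq, Finset.mem_product, Prod.fst_swap,
          Prod.snd_swap]
        exact ⟨⟨hq.1.2, hq.1.1⟩, by omega⟩
      · intro q _ q' _ h
        exact Prod.swap_injective h
    rw [Finset.card_product] at h1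
    nlinarith
  -- pigeonhole
  have hmaps : ∀ q ∈ R, q.1 + q.2 ∈ Finset.Icc 1 (2 * y ^ k) := by
    intro q hq
    simp only [hR, Finset.mem_filter, Finset.mem_product] at hq
    have h1 := hUle _ hq.1.1
    have h2 := hUle _ hq.1.2
    rw [Finset.mem_Icc]
    omega
  have hfib : ∀ w : ℕ, (R.filter fun q => q.1 + q.2 = w).card ≤ mu n := by
    intro w
    refine le_trans ?_ (r_le_mu n (G * w))
    unfold r
    apply Finset.card_le_card_of_injOn (fun q => (G * q.1, G * q.2))
    · intro q hq
      simp only [hR, Finset.coe_filter, Set.mem_ofPred_eq, Finset.mem_filter,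
        Finset.mem_product] at hq
      simp only [Finset.coe_filter, Set.mem_ofPred_eq, Finset.mem_product]
      obtain ⟨⟨⟨h1, h2⟩, h3⟩, h4⟩ := hq
      refine ⟨⟨hUval _ h1, hUval _ h2⟩, Nat.mul_le_mul_left _ h3, ?_⟩
      rw [← mul_add, h4]
    · intro q _ q' _ h
      have h1 := congrArg Prod.fst h
      have h2 := congrArg Prod.snd h
      simp only at h1 h2
      exact Prod.ext (Nat.eq_of_mul_eq_mul_left hGpos h1) (Nat.eq_of_mul_eq_mul_left hGpos h2)
  have hRcard : R.card ≤ 2 * y ^ k * mu n := by
    have h1 : R.card = ∑ w ∈ Finset.Icc 1 (2 * y ^ k), (R.filter fun q => q.1 + q.2 = w).card :=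
      Finset.card_eq_sum_card_fiberwise hmaps
    rw [h1]
    calc ∑ w ∈ Finset.Icc 1 (2 * y ^ k), (R.filter fun q => q.1 + q.2 = w).card
        ≤ ∑ w ∈ Finset.Icc 1 (2 * y ^ k), mu n := Finset.sum_le_sum fun w _ => hfib w
      _ = 2 * y ^ k * mu n := by simp
  rw [← hUcard]
  calc U.card ^ 2 ≤ 2 * R.card := hR2
    _ ≤ 2 * (2 * y ^ k * mu n) := Nat.mul_le_mul_left _ hRcard
    _ = 4 * y ^ k * mu n := by ring

/-- A simple lower bound for binomial coefficients. -/
lemma div_pow_le_choose : ∀ (k s : ℕ), 1 ≤ k → k ≤ s → ((s : ℝ) / k) ^ k ≤ (s.choose k : ℝ)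
  | 0, _, h, _ => absurd h (by norm_num)
  | 1, s, _, _ => by simp
  | k + 2, 0, _, h => absurd h (by omega)
  | k + 2, s + 1, _, h => by
    have ih := div_pow_le_choose (k + 1) s (by omega) (by omega)
    have h1 : ((s + 1).choose (k + 2) : ℝ) = ((s + 1 : ℕ) : ℝ) / ((k + 2 : ℕ) : ℝ) *
        (s.choose (k + 1) : ℝ) := by
      have := Nat.add_one_mul_choose_eq s (k + 1)
      have h2 : ((s + 1 : ℕ) : ℝ) * (s.choose (k + 1) : ℝ) =
          ((s + 1).choose (k + 2) : ℝ) * ((k + 2 : ℕ) : ℝ) := by exact_mod_cast this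
      have h3 : ((k + 2 : ℕ) : ℝ) ≠ 0 := by positivity
      field_simp
      linarith
    rw [h1, pow_succ, mul_comm]
    apply mul_le_mul_of_nonneg_left _ (by positivity)
    refine le_trans ?_ ih
    apply pow_le_pow_left₀ (by positivity)
    rw [div_le_div_iff₀ (by positivity) (by positivity)]
    have h4 : (k : ℝ) + 1 ≤ s := by
      have : k + 1 ≤ s := by omega
      exact_mod_cast this
    push_cast
    nlinarith

end Pool.Agent.H24.MultinomialPrimes
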