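import Mathlib
import Pool.Agent.H24.MultinomialPrimes

open scoped Nat
open Filter Topology Real
open Pool.Agent.H24.MultinomialDefs
open Pool.Agent.H24.MultinomialComb
open Pool.Agent.H24.MultinomialPrimes

namespace Pool.Agent.H24.MultinomialAsym

/-- Chebyshev lower bound in a simple form. -/
lemma pi_lower : ∀ᶠ y : ℕ in atTop, (y : ℝ) / (2 * log y) ≤ (Nat.primeCounting y : ℝ) := by
  have h1 : Tendsto (fun y : ℕ => (y : ℝ)) atTop atTop := tendsto_natCast_atTop_atTop
  have h2 : ∀ᶠ x : ℝ in atTop, log (x + 1) ≤ (1 / 10) * x := by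
    have h3 : (fun x : ℝ => log x) =o[atTop] (fun x : ℝ => x) := Real.isLittleO_log_id_atTop
    have h4 : Tendsto (fun x : ℝ => x + 1) atTop atTop := tendsto_atTop_add_const_right _ _ tendsto_id
    have h5 := h4.eventually (h3.bound (show (0 : ℝ) < 1 / 20 by norm_num))
    filter_upwards [h5, eventually_ge_atTop 1] with x hx hx1
    rw [Real.norm_of_nonneg (Real.log_nonneg (by linarith)),
      Real.norm_of_nonneg (by linarith)] at hx
    linarith
  filter_upwards [h1.eventually h2, eventually_ge_atTop 2] with y hy hy2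
  have hy2' : (2 : ℝ) ≤ y := by exact_mod_cast hy2
  have hlog : 0 < log (y : ℝ) := Real.log_pos (by linarith)
  refine le_trans ?_ (Chebyshev.pi_ge y)
  rw [div_le_div_iff₀ (by positivity) hlog]
  have hl2 : (0.6931471803 : ℝ) < log 2 := Real.log_two_gt_d9
  have : (y : ℝ) ≤ 2 * (y * log 2 - log (y + 1)) := by nlinarith
  nlinarith

/-- Chebyshev upper bound in a simple form. -/
lemma pi_upper : ∀ᶠ y : ℕ in atTop, (Nat.primeCounting y : ℝ) ≤ 3 / 2 * y / log y := by
  have h1 : Tendsto (fun y : ℕ => (y : ℝ)) atTop atTop := tendsto_natCast_atTop_atTop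
  have h4 : log 4 < 1.3863 := by
    have : (4 : ℝ) = 2 ^ 2 := by norm_num
    rw [this, Real.log_pow]
    have := Real.log_two_lt_d9
    push_cast
    linarith
  have h2 := h1.eventually (Chebyshev.eventually_primeCounting_le (ε := 1 / 10) (by norm_num))
  filter_upwards [h2, eventually_ge_atTop 2] with y hy hy2
  rw [Nat.floor_natCast] at hy
  refine hy.trans ?_
  have hy2' : (2 : ℝ) ≤ y := by exact_mod_cast hy2
  have hlog : 0 < log (y : ℝ) := Real.log_pos (by linarith)
  gcongr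
  linarith

/-- The cut-off for the primes. -/
noncomputable def Y (n : ℕ) : ℕ := ⌊1 / 3 * √(n * log n)⌋₊

lemma tendsto_sqrt : Tendsto (fun n : ℕ => √((n : ℝ) * log n)) atTop atTop := by
  have h1 : Tendsto (fun y : ℕ => (y : ℝ)) atTop atTop := tendsto_natCast_atTop_atTop
  have h2 : Tendsto (fun x : ℝ => √(x * log x)) atTop atTop :=
    Real.tendsto_sqrt_atTop.comp (tendsto_id.atTop_mul_atTop₀ Real.tendsto_log_atTop)
  exact h2.comp h1

lemma tendsto_Y : Tendsto Y atTop atTop := by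
  unfold Y
  apply tendsto_nat_floor_atTop.comp
  exact Tendsto.const_mul_atTop (by norm_num) tendsto_sqrt

/-- All needed properties of the cut-off. -/
lemma Y_bounds : ∀ᶠ n : ℕ in atTop, 2 ≤ Y n ∧ 1 < log (n : ℝ) ∧
    (Y n : ℝ) ≤ 1 / 3 * √(n * log n) ∧ 1 / 4 * √(n * log n) ≤ (Y n : ℝ) ∧
    1 / 2 * log n ≤ log (Y n) ∧ log (Y n) ≤ log n := by
  have h1 : Tendsto (fun y : ℕ => (y : ℝ)) atTop atTop := tendsto_natCast_atTop_atTop
  have hlogt : Tendsto (fun n : ℕ => log (n : ℝ)) atTop atTop := Real.tendsto_log_atTop.comp h1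
  filter_upwards [tendsto_Y.eventually_ge_atTop 2, hlogt.eventually_gt_atTop 16,
    tendsto_sqrt.eventually_ge_atTop 12, eventually_ge_atTop 1] with n hn2 hlog hs hn1
  have hn1' : (1 : ℝ) ≤ n := by exact_mod_cast hn1
  have hnn : 0 ≤ 1 / 3 * √((n : ℝ) * log n) := by positivity
  have hle : (Y n : ℝ) ≤ 1 / 3 * √(n * log n) := Nat.floor_le hnn
  have hlt : 1 / 3 * √((n : ℝ) * log n) < Y n + 1 := Nat.lt_floor_add_one _
  have hge : 1 / 4 * √((n : ℝ) * log n) ≤ Y n := by linarith
  have hYpos : (0 : ℝ) < Y n := by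
    have : 0 < Y n := by omega
    exact_mod_cast this
  refine ⟨hn2, by linarith, hle, hge, ?_, ?_⟩
  · have hsq : √(n : ℝ) ≤ Y n := by
      refine le_trans ?_ hge
      have h3 : √((n : ℝ) * 16) ≤ √(n * log n) := by
        apply Real.sqrt_le_sqrt
        nlinarith
      have h4 : √((n : ℝ) * 16) = 4 * √n := by
        rw [Real.sqrt_mul (by positivity), show (16 : ℝ) = 4 ^ 2 by norm_num,
          Real.sqrt_sq (by norm_num)]
        ring
      linarith
    have h5 : log √(n : ℝ) ≤ log (Y n) :=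
      Real.log_le_log (Real.sqrt_pos.mpr (by linarith)) hsq
    rw [Real.log_sqrt (by linarith)] at h5
    linarith
  · apply Real.log_le_log hYpos
    refine hle.trans ?_
    have h6 : log (n : ℝ) ≤ n := (Real.log_le_sub_one_of_pos (by linarith)).trans (by linarith)
    have h7 : √((n : ℝ) * log n) ≤ n := by
      rw [Real.sqrt_le_left (by linarith)]
      nlinarith
    linarith

lemma sum_primes_le : ∀ᶠ n : ℕ in atTop, ∑ p ∈ Nat.primesLE (Y n), p ≤ n - 5 := by
  filter_upwards [tendsto_Y.eventually pi_upper, Y_bounds, eventually_ge_atTop 20]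
    with n hpi hY hn
  obtain ⟨h2, hlog1, hle, hge, hlogl, hlogu⟩ := hY
  have hn' : (20 : ℝ) ≤ n := by exact_mod_cast hn
  have hYpos : (2 : ℝ) ≤ Y n := by exact_mod_cast h2
  have h1 : ∑ p ∈ Nat.primesLE (Y n), p ≤ Nat.primeCounting (Y n) * Y n := by
    rw [← Nat.primesLE_card_eq_primeCounting, ← smul_eq_mul]
    apply Finset.sum_le_card_nsmul
    intro p hp
    exact Nat.le_of_mem_primesLE hp
  have h3 : ((∑ p ∈ Nat.primesLE (Y n), p : ℕ) : ℝ) ≤ n / 3 := by
    have h4 : ((∑ p ∈ Nat.primesLE (Y n), p : ℕ) : ℝ) ≤ Nat.primeCounting (Y n) * Y n := by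
      exact_mod_cast h1
    refine h4.trans ?_
    have hlY : 0 < log (Y n : ℝ) := Real.log_pos (by linarith)
    have h5 : (Nat.primeCounting (Y n) : ℝ) * Y n ≤ 3 / 2 * Y n / log (Y n) * Y n :=
      mul_le_mul_of_nonneg_right hpi (by linarith)
    refine h5.trans ?_
    have h6 : 3 / 2 * (Y n : ℝ) / log (Y n) * Y n = 3 / 2 * (Y n : ℝ) ^ 2 / log (Y n) := by ring
    rw [h6, div_le_iff₀ hlY]
    have h7 : (Y n : ℝ) ^ 2 ≤ 1 / 9 * (n * log n) := by
      have h8 : (Y n : ℝ) ^ 2 ≤ (1 / 3 * √(n * log n)) ^ 2 :=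
        pow_le_pow_left₀ (by linarith) hle 2
      rw [mul_pow, Real.sq_sqrt (by positivity)] at h8
      linarith
    nlinarith
  have h9 : ((∑ p ∈ Nat.primesLE (Y n), p : ℕ) : ℝ) ≤ ((n - 5 : ℕ) : ℝ) := by
    rw [Nat.cast_sub (by omega)]
    push_cast at h3 ⊢
    linarith
  exact_mod_cast h9

lemma pi_Y_lower : ∀ᶠ n : ℕ in atTop,
    1 / 8 * √(n / log n) ≤ (Nat.primeCounting (Y n) : ℝ) := by
  filter_upwards [tendsto_Y.eventually pi_lower, Y_bounds, eventually_ge_atTop 20]
    with n hpi hY hn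
  obtain ⟨h2, hlog1, hle, hge, hlogl, hlogu⟩ := hY
  have hn' : (20 : ℝ) ≤ n := by exact_mod_cast hn
  have hYpos : (2 : ℝ) ≤ Y n := by exact_mod_cast h2
  have hlY : 0 < log (Y n : ℝ) := Real.log_pos (by linarith)
  refine le_trans ?_ hpi
  have h3 : √((n : ℝ) / log n) = √(n * log n) / log n := by
    have h4 : (n : ℝ) / log n = n * log n / (log n) ^ 2 := by field_simp
    rw [h4, Real.sqrt_div (by positivity), Real.sqrt_sq (by linarith)]
  rw [h3]
  have h5 : 1 / 8 * (√((n : ℝ) * log n) / log n) ≤ Y n / (2 * log n) := by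
    rw [le_div_iff₀ (by positivity)]
    have : 1 / 8 * (√((n : ℝ) * log n) / log n) * (2 * log n) = 1 / 4 * √((n : ℝ) * log n) := by
      field_simp
      ring
    rw [this]; exact hge
  refine h5.trans ?_
  gcongr

/-- Lower bound for `D`. -/
theorem D_lower : ∀ᶠ n : ℕ in atTop, rexp (1 / 16 * √(n / log n)) ≤ (D n : ℝ) := by
  filter_upwards [pi_Y_lower, sum_primes_le, eventually_ge_atTop 20] with n hpi hsum hn
  have h1 : 2 ^ (Nat.primesLE (Y n)).card ≤ M (n - 5) :=
    two_pow_le_M (n - 5) _ (fun p hp => Nat.prime_of_mem_primesLE hp) hsum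
  have h2 : M (n - 5) ≤ D n := by
    have := M_le_D (n - 5)
    rwa [show n - 5 + 5 = n by omega] at this
  rw [Nat.primesLE_card_eq_primeCounting] at h1
  have h3 : ((2 ^ Nat.primeCounting (Y n) : ℕ) : ℝ) ≤ D n := by exact_mod_cast h1.trans h2
  refine le_trans ?_ h3
  push_cast
  have h4 : (2 : ℝ) ^ Nat.primeCounting (Y n) = rexp (log 2 * Nat.primeCounting (Y n)) := by
    rw [mul_comm, Real.exp_nat_mul, Real.exp_log (by norm_num)]
  rw [h4, Real.exp_le_exp]
  have hl2 : (0.6931471803 : ℝ) < log 2 := Real.log_two_gt_d9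
  have h5 : 0 ≤ √((n : ℝ) / log n) := Real.sqrt_nonneg _
  nlinarith

/-- The growth exponent for `mu`. -/
noncomputable def E (n : ℕ) : ℝ := (n / log n ^ 3) ^ (1 / 4 : ℝ)

lemma tendsto_E : Tendsto E atTop atTop := by
  have h1 : Tendsto (fun y : ℕ => (y : ℝ)) atTop atTop := tendsto_natCast_atTop_atTop
  have h2 : Tendsto (fun x : ℝ => x / log x ^ 3) atTop atTop := by
    have h3 : (fun x : ℝ => log x ^ 3) =o[atTop] (fun x : ℝ => x) := isLittleO_pow_log_id_atTop
    have h4 := h3.tendsto_div_nhds_zero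
    have h5 : ∀ᶠ x : ℝ in atTop, 0 < log x ^ 3 / x := by
      filter_upwards [eventually_gt_atTop 1] with x hx
      have : 0 < log x := Real.log_pos hx
      positivity
    have h6 : Tendsto (fun x : ℝ => log x ^ 3 / x) atTop (𝓝[>] 0) :=
      tendsto_nhdsWithin_iff.mpr ⟨h4, h5⟩
    have h7 := h6.inv_tendsto_nhdsGT_zero
    refine h7.congr fun x => ?_
    simp only [Pi.inv_apply, inv_div]
  exact (tendsto_rpow_atTop (by norm_num)).comp (h2.comp h1)

/-- Lower bound for `mu`. -/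
theorem mu_lower : ∀ᶠ n : ℕ in atTop, rexp (1 / 16 * E n) ≤ (mu n : ℝ) := by
  filter_upwards [tendsto_Y.eventually pi_lower, Y_bounds, sum_primes_le,
    tendsto_E.eventually_ge_atTop 100, eventually_ge_atTop 20] with n hpi hY hsum hE hn
  obtain ⟨h2, hlog1, hle, hge, hlogl, hlogu⟩ := hY
  have hn' : (20 : ℝ) ≤ n := by exact_mod_cast hn
  have hYpos : (2 : ℝ) ≤ Y n := by exact_mod_cast h2
  have hlY : 0 < log (Y n : ℝ) := Real.log_pos (by linarith)
  set s := Nat.primeCounting (Y n) with hs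
  set k := ⌊(s : ℝ) / (2 * √(Y n))⌋₊ with hk
  have hsqY : 0 < √(Y n : ℝ) := Real.sqrt_pos.mpr (by linarith)
  -- lower bound for s / (2 √Y)
  have hX : 1 / 8 * E n ≤ (s : ℝ) / (2 * √(Y n)) := by
    have h3 : √(Y n : ℝ) / (4 * log (Y n)) ≤ (s : ℝ) / (2 * √(Y n)) := by
      rw [div_le_div_iff₀ (by positivity) (by positivity)]
      rw [div_le_iff₀ (by positivity)] at hpi
      have h4 : √(Y n : ℝ) * √(Y n : ℝ) = Y n := Real.mul_self_sqrt (by linarith)
      nlinarith
    refine le_trans ?_ h3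
    have h5 : 1 / 8 * E n = 1 / 2 * √(√(n * log n)) / (4 * log n) := by
      unfold E
      have h6 : (n : ℝ) / log n ^ 3 = (n * log n) / (log n) ^ 4 := by
        have : log (n : ℝ) ≠ 0 := by linarith
        field_simp
      have h7 : ((n : ℝ) * log n / (log n) ^ 4) ^ (1 / 4 : ℝ) = √(√(n * log n)) / log n := by
        rw [Real.div_rpow (by positivity) (by positivity)]
        congr 1
        · rw [Real.sqrt_eq_rpow, Real.sqrt_eq_rpow, ← Real.rpow_mul (by positivity)]
          norm_num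
        · rw [← Real.rpow_natCast, ← Real.rpow_mul (by linarith)]
          norm_num
      rw [h6, h7]; ring
    rw [h5]
    have h8 : 1 / 2 * √(√(n * log n)) ≤ √(Y n : ℝ) := by
      have h9 : √(1 / 4 * √(n * log n)) ≤ √(Y n : ℝ) := Real.sqrt_le_sqrt hge
      rw [Real.sqrt_mul (by norm_num), show (1 / 4 : ℝ) = (1 / 2) ^ 2 by norm_num,
        Real.sqrt_sq (by norm_num)] at h9
      exact h9
    gcongr
  have hk1 : (k : ℝ) ≤ (s : ℝ) / (2 * √(Y n)) := Nat.floor_le (by positivity)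
  have hk2 : (s : ℝ) / (2 * √(Y n)) < k + 1 := Nat.lt_floor_add_one _
  have hkbig : (11 : ℝ) ≤ k := by linarith
  have hk3 : 1 ≤ k := by
    have : (1 : ℝ) ≤ k := by linarith
    exact_mod_cast this
  have hks : k ≤ s := by
    have h10 : (s : ℝ) / (2 * √(Y n)) ≤ s := by
      apply div_le_self (by positivity)
      have : 1 ≤ √(Y n : ℝ) := Real.one_le_sqrt.mpr (by linarith)
      linarith
    exact_mod_cast hk1.trans h10
  have hmain := choose_sq_le_mu n (Y n) k (Nat.primesLE (Y n))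
    (fun p hp => Nat.prime_of_mem_primesLE hp) (fun p hp => Nat.le_of_mem_primesLE hp)
    (hsum.trans (by omega))
  rw [Nat.primesLE_card_eq_primeCounting, ← hs] at hmain
  have hmain' : ((s.choose k : ℝ)) ^ 2 ≤ 4 * (Y n : ℝ) ^ k * mu n := by exact_mod_cast hmain
  have hch := div_pow_le_choose k s hk3 hks
  have hkpos : (0 : ℝ) < k := by linarith
  have h11 : 2 * √(Y n : ℝ) ≤ (s : ℝ) / k := by
    rw [le_div_iff₀ hkpos]
    rw [le_div_iff₀ (by positivity)] at hk1
    linarith
  have h12 : (4 * (Y n : ℝ)) ^ k ≤ ((s.choose k : ℝ)) ^ 2 := by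
    have h13 : (4 * (Y n : ℝ)) = (2 * √(Y n : ℝ)) ^ 2 := by
      rw [mul_pow, Real.sq_sqrt (by linarith)]; norm_num
    rw [h13, ← pow_mul, mul_comm 2 k, pow_mul]
    apply pow_le_pow_left₀ (by positivity)
    refine le_trans ?_ hch
    exact pow_le_pow_left₀ (by positivity) h11 k
  have h14 : (4 : ℝ) ^ k ≤ 4 * mu n := by
    have h15 : (4 : ℝ) ^ k * (Y n : ℝ) ^ k ≤ (4 * mu n) * (Y n : ℝ) ^ k := by
      rw [← mul_pow]
      linarith
    exact le_of_mul_le_mul_right h15 (by positivity)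
  have h16 : rexp (1 / 16 * E n) * 4 ≤ 4 ^ k := by
    have h17 : (4 : ℝ) = rexp (log 4) := by rw [Real.exp_log (by norm_num)]
    have h18 : (4 : ℝ) ^ k = rexp (k * log 4) := by
      rw [Real.exp_nat_mul, Real.exp_log (by norm_num)]
    have h19 : rexp (1 / 16 * E n) * 4 = rexp (1 / 16 * E n + log 4) := by
      rw [Real.exp_add, Real.exp_log (by norm_num)]
    rw [h18, h19, Real.exp_le_exp]
    have hl4 : 1 ≤ log 4 := by
      have : (4 : ℝ) = 2 ^ 2 := by norm_num
      rw [this, Real.log_pow]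
      have := Real.log_two_gt_d9
      push_cast
      linarith
    have h20 : ((k : ℝ) - 1) * 1 ≤ (k - 1) * log 4 :=
      mul_le_mul_of_nonneg_left hl4 (by linarith)
    linarith
  linarith

end Pool.Agent.H24.MultinomialAsym
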