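import Mathlib
import Pool.Agent.H24.MultinomialDefs
import Pool.Agent.H24.MultinomialAsym

open Filter Topology Real
open Pool.Agent.H24.MultinomialDefs
open Pool.Agent.H24.MultinomialComb
open Pool.Agent.H24.MultinomialAsym

namespace Pool.Agent.H24.MultinomialGrowth

lemma rpow_le : ∀ᶠ n : ℕ in atTop, (n : ℝ) ^ (1 / 8 : ℝ) ≤ (n / log n ^ 3) ^ (1 / 4 : ℝ) ∧
    (n : ℝ) ^ (1 / 8 : ℝ) ≤ √(n / log n) := by
  have h1 : Tendsto (fun y : ℕ => (y : ℝ)) atTop atTop := tendsto_natCast_atTop_atTop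
  have h2 : (fun x : ℝ => log x ^ (3 : ℝ)) =o[atTop] (fun x : ℝ => x ^ (1 / 2 : ℝ)) :=
    isLittleO_log_rpow_rpow_atTop 3 (by norm_num)
  have h3 := h1.eventually (h2.bound (show (0 : ℝ) < 1 by norm_num))
  have hlogt : Tendsto (fun n : ℕ => log (n : ℝ)) atTop atTop := Real.tendsto_log_atTop.comp h1
  filter_upwards [h3, hlogt.eventually_ge_atTop 1, eventually_ge_atTop 1] with n hn hL hn1
  have hn1' : (1 : ℝ) ≤ n := by exact_mod_cast hn1
  have hLpos : 0 < log (n : ℝ) := by linarith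
  rw [Real.norm_of_nonneg (by positivity), Real.norm_of_nonneg (by positivity), one_mul] at hn
  have hL3 : log (n : ℝ) ^ 3 ≤ (n : ℝ) ^ (1 / 2 : ℝ) := by
    have : log (n : ℝ) ^ (3 : ℝ) = log (n : ℝ) ^ 3 := by
      rw [← Real.rpow_natCast]; norm_num
    rwa [this] at hn
  have hhalf : (n : ℝ) ^ (1 / 2 : ℝ) * (n : ℝ) ^ (1 / 2 : ℝ) = n := by
    rw [← Real.rpow_add (by linarith)]; norm_num
  have hq : (n : ℝ) ^ (1 / 2 : ℝ) ≤ n / log n ^ 3 := by
    rw [le_div_iff₀ (by positivity)]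
    calc (n : ℝ) ^ (1 / 2 : ℝ) * log n ^ 3 ≤ (n : ℝ) ^ (1 / 2 : ℝ) * (n : ℝ) ^ (1 / 2 : ℝ) :=
          mul_le_mul_of_nonneg_left hL3 (by positivity)
      _ = n := hhalf
  constructor
  · have h4 : (n : ℝ) ^ (1 / 8 : ℝ) = ((n : ℝ) ^ (1 / 2 : ℝ)) ^ (1 / 4 : ℝ) := by
      rw [← Real.rpow_mul (by linarith)]; norm_num
    rw [h4]
    exact Real.rpow_le_rpow (by positivity) hq (by norm_num)
  · have h5 : (n : ℝ) / log n ^ 3 ≤ n / log n := by
      apply div_le_div_of_nonneg_left (by linarith) hLpos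
      nlinarith [sq_nonneg (log (n : ℝ)), mul_pos hLpos hLpos]
    have h6 : (n : ℝ) ^ (1 / 8 : ℝ) ≤ √((n : ℝ) ^ (1 / 2 : ℝ)) := by
      rw [Real.sqrt_eq_rpow, ← Real.rpow_mul (by linarith)]
      apply Real.rpow_le_rpow_of_exponent_le hn1'
      norm_num
    exact h6.trans (Real.sqrt_le_sqrt (hq.trans h5))

lemma tendsto_exp_div (c : ℝ) (hc : 0 < c) :
    Tendsto (fun n : ℕ => rexp (c * (n : ℝ) ^ (1 / 8 : ℝ)) / (n : ℝ) ^ 3) atTop atTop := by
  have h1 : Tendsto (fun y : ℕ => (y : ℝ)) atTop atTop := tendsto_natCast_atTop_atTop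
  have h2 : Tendsto (fun n : ℕ => c * (n : ℝ) ^ (1 / 8 : ℝ)) atTop atTop :=
    Tendsto.const_mul_atTop hc ((tendsto_rpow_atTop (by norm_num)).comp h1)
  have h3 := (Real.tendsto_exp_div_pow_atTop 24).comp h2
  have h4 : Tendsto (fun n : ℕ => c ^ 24 * ((fun x => rexp x / x ^ 24) ∘
      (fun n : ℕ => c * (n : ℝ) ^ (1 / 8 : ℝ))) n) atTop atTop :=
    Tendsto.const_mul_atTop (by positivity) h3
  refine h4.congr' ?_
  filter_upwards [eventually_ge_atTop 1] with n hn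
  have hn1' : (1 : ℝ) ≤ n := by exact_mod_cast hn
  simp only [Function.comp]
  have h5 : ((n : ℝ) ^ (1 / 8 : ℝ)) ^ 24 = (n : ℝ) ^ 3 := by
    rw [← Real.rpow_natCast, ← Real.rpow_mul (by linarith), ← Real.rpow_natCast]
    norm_num
  rw [mul_pow, h5]
  have : (n : ℝ) ^ 3 ≠ 0 := by positivity
  field_simp

lemma tendsto_of_ge {f g : ℕ → ℝ} {c : ℝ} (hc : 0 < c)
    (hf : ∀ᶠ n : ℕ in atTop, rexp (c * (n : ℝ) ^ (1 / 8 : ℝ)) ≤ f n)
    (hg : ∀ᶠ n : ℕ in atTop, 0 < g n ∧ g n ≤ (n : ℝ) ^ 3) :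
    Tendsto (fun n => f n / g n) atTop atTop := by
  refine tendsto_atTop_mono' _ ?_ (tendsto_exp_div c hc)
  filter_upwards [hf, hg] with n h1 h2
  have h3 : 0 < f n := lt_of_lt_of_le (Real.exp_pos _) h1
  exact div_le_div₀ h3.le h1 h2.1 h2.2

/-- The three statistics grow at least like `exp (c √(n / log n))`, `exp (c √(n / log n))` and
`exp (c (n / (log n) ^ 3) ^ (1/4))`; in particular the ratio of each of them to the known
lower-bound scale tends to infinity. -/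
theorem main :
    (∃ c : ℝ, 0 < c ∧ ∀ᶠ n : ℕ in atTop,
      rexp (c * √(n / log n)) ≤ (C n : ℝ) ∧
      rexp (c * √(n / log n)) ≤ (D n : ℝ) ∧
      rexp (c * (n / log n ^ 3) ^ (1 / 4 : ℝ)) ≤ (mu n : ℝ)) ∧
    Tendsto (fun n : ℕ => (C n : ℝ) / ((n : ℝ) ^ 2 * log n)) atTop atTop ∧
    Tendsto (fun n : ℕ => (D n : ℝ) / ((n : ℝ) ^ (3 / 2 : ℝ) * √(log n))) atTop atTop ∧
    Tendsto (fun n : ℕ => (mu n : ℝ) / √(n * log n)) atTop atTop := by
  have hC : ∀ᶠ n : ℕ in atTop, rexp (1 / 16 * √(n / log n)) ≤ (C n : ℝ) := by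
    filter_upwards [D_lower] with n hn
    exact hn.trans (by exact_mod_cast D_le_C n)
  have hmu : ∀ᶠ n : ℕ in atTop, rexp (1 / 16 * (n / log n ^ 3) ^ (1 / 4 : ℝ)) ≤ (mu n : ℝ) :=
    mu_lower
  have h1 : Tendsto (fun y : ℕ => (y : ℝ)) atTop atTop := tendsto_natCast_atTop_atTop
  have hlogt : Tendsto (fun n : ℕ => log (n : ℝ)) atTop atTop := Real.tendsto_log_atTop.comp h1
  have hbase : ∀ᶠ n : ℕ in atTop, (1 : ℝ) ≤ n ∧ 1 ≤ log (n : ℝ) ∧ log (n : ℝ) ≤ n := by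
    filter_upwards [hlogt.eventually_ge_atTop 1, eventually_ge_atTop 1] with n hL hn1
    have hn1' : (1 : ℝ) ≤ n := by exact_mod_cast hn1
    exact ⟨hn1', hL, (Real.log_le_sub_one_of_pos (by linarith)).trans (by linarith)⟩
  refine ⟨⟨1 / 16, by norm_num, ?_⟩, ?_, ?_, ?_⟩
  · filter_upwards [hC, D_lower, hmu] with n a b c using ⟨a, b, c⟩
  · refine tendsto_of_ge (c := 1 / 16) (by norm_num) ?_ ?_
    · filter_upwards [hC, rpow_le] with n a b
      refine le_trans (Real.exp_le_exp.mpr ?_) a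
      linarith [b.2]
    · filter_upwards [hbase] with n ⟨a, b, c⟩
      refine ⟨by positivity, ?_⟩
      calc (n : ℝ) ^ 2 * log n ≤ (n : ℝ) ^ 2 * n := mul_le_mul_of_nonneg_left c (by positivity)
        _ = (n : ℝ) ^ 3 := by ring
  · refine tendsto_of_ge (c := 1 / 16) (by norm_num) ?_ ?_
    · filter_upwards [D_lower, rpow_le] with n a b
      refine le_trans (Real.exp_le_exp.mpr ?_) a
      linarith [b.2]
    · filter_upwards [hbase] with n ⟨a, b, c⟩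
      refine ⟨by positivity, ?_⟩
      have h2 : √(log (n : ℝ)) ≤ (n : ℝ) ^ (1 / 2 : ℝ) := by
        rw [← Real.sqrt_eq_rpow]
        exact Real.sqrt_le_sqrt c
      calc (n : ℝ) ^ (3 / 2 : ℝ) * √(log n) ≤ (n : ℝ) ^ (3 / 2 : ℝ) * (n : ℝ) ^ (1 / 2 : ℝ) :=
            mul_le_mul_of_nonneg_left h2 (by positivity)
        _ = (n : ℝ) ^ 2 := by
            rw [← Real.rpow_add (by linarith), ← Real.rpow_natCast]; norm_num
        _ ≤ (n : ℝ) ^ 3 := pow_le_pow_right₀ a (by norm_num)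
  · refine tendsto_of_ge (c := 1 / 16) (by norm_num) ?_ ?_
    · filter_upwards [hmu, rpow_le] with n a b
      refine le_trans (Real.exp_le_exp.mpr ?_) a
      linarith [b.1]
    · filter_upwards [hbase] with n ⟨a, b, c⟩
      refine ⟨Real.sqrt_pos.mpr (by positivity), ?_⟩
      calc √((n : ℝ) * log n) ≤ √((n : ℝ) ^ 2) := by
            apply Real.sqrt_le_sqrt
            nlinarith
        _ = n := Real.sqrt_sq (by linarith)
        _ ≤ (n : ℝ) ^ 3 := by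
            calc (n : ℝ) = (n : ℝ) ^ 1 := (pow_one _).symm
              _ ≤ (n : ℝ) ^ 3 := pow_le_pow_right₀ a (by norm_num)

end Pool.Agent.H24.MultinomialGrowth
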